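import Mathlib

/-!
# Reduced words of finitely supported permutations of `ℤ`: definitions (cell SN, module BASIC)

A permutation `w` of `ℤ` is read as an arrangement: `w x` is the label at the position `x`.
A letter `i` exchanges the labels at the positions `i` and `i + 1` (`w * sw i`).
-/

namespace Pool.Agent.SortNet

open Equiv

theorem apply_inv (w : Perm ℤ) (x : ℤ) : w (w⁻¹ x) = x := w.apply_symm_apply x

theorem inv_apply (w : Perm ℤ) (x : ℤ) : w⁻¹ (w x) = x := w.symm_apply_apply x

/-- Finite support. -/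
def FS (w : Perm ℤ) : Prop := {x | w x ≠ x}.Finite

/-- The adjacent transposition of `i` and `i + 1`. -/
def sw (i : ℤ) : Perm ℤ := swap i (i + 1)

open Classical in
/-- The descents of `w`: the positions `i` such that the labels at `i`, `i + 1` are inverted. -/
noncomputable def desc (w : Perm ℤ) : Finset ℤ :=
  if h : {i : ℤ | w (i + 1) < w i}.Finite then h.toFinset else ∅

/-- The left descents of `w`: the values `v` such that the position of `v + 1` is to the left of
the position of `v`. -/
noncomputable def ldesc (w : Perm ℤ) : Finset ℤ := desc w⁻¹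

open Classical in
/-- The number of words of length `k` with product `w` all of whose steps create an inversion;
this is the number of reduced words if `k` is the length of `w`, and `0` otherwise. -/
noncomputable def R : ℕ → Perm ℤ → ℕ
  | 0, w => if w = 1 then 1 else 0
  | k + 1, w => ∑ i ∈ desc w, R k (w * sw i)

namespace FS

theorem one : FS 1 := by
  unfold FS
  have : {x : ℤ | (1 : Perm ℤ) x ≠ x} = ∅ := by
    ext x
    simp
  rw [this]
  exact Set.finite_empty

theorem mul {w w' : Perm ℤ} (h : FS w) (h' : FS w') : FS (w * w') := by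
  refine (h.union h').subset fun x hx => ?_
  by_contra hcon
  rw [Set.mem_union, not_or] at hcon
  have h1 : w' x = x := by
    by_contra h2
    exact hcon.2 h2
  have h2 : w x = x := by
    by_contra h3
    exact hcon.1 h3
  exact hx (by rw [Perm.mul_apply, h1, h2])

theorem inv {w : Perm ℤ} (h : FS w) : FS w⁻¹ := by
  refine h.subset fun x hx => ?_
  intro h1
  apply hx
  rw [Perm.inv_eq_iff_eq]
  exact h1.symm

theorem swap (a b : ℤ) : FS (Equiv.swap a b) := by
  refine (Set.toFinite {a, b}).subset fun x hx => ?_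
  by_contra hcon
  rw [Set.mem_insert_iff, Set.mem_singleton_iff, not_or] at hcon
  exact hx (swap_apply_of_ne_of_ne hcon.1 hcon.2)

theorem sw (i : ℤ) : FS (sw i) := FS.swap _ _

theorem desc_finite {w : Perm ℤ} (h : FS w) : {i : ℤ | w (i + 1) < w i}.Finite := by
  refine (h.union (h.preimage (f := fun i : ℤ => i + 1)
    (fun a _ b _ hab => by simpa using hab))).subset fun i hi => ?_
  by_contra hcon
  rw [Set.mem_union, not_or, Set.mem_preimage] at hcon
  have h1 : w i = i := by
    by_contra h2
    exact hcon.1 h2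
  have h2 : w (i + 1) = i + 1 := by
    by_contra h3
    exact hcon.2 h3
  have hi' : w (i + 1) < w i := hi
  rw [h1, h2] at hi'
  omega

end FS

theorem mem_desc {w : Perm ℤ} (h : FS w) (i : ℤ) : i ∈ desc w ↔ w (i + 1) < w i := by
  unfold desc
  rw [dif_pos h.desc_finite, Set.Finite.mem_toFinset]
  exact Iff.rfl

theorem mem_ldesc {w : Perm ℤ} (h : FS w) (v : ℤ) : v ∈ ldesc w ↔ w⁻¹ (v + 1) < w⁻¹ v :=
  mem_desc h.inv v

theorem R_zero (w : Perm ℤ) [Decidable (w = 1)] : R 0 w = if w = 1 then 1 else 0 := by
  unfold R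
  congr

theorem R_succ (k : ℕ) (w : Perm ℤ) : R (k + 1) w = ∑ i ∈ desc w, R k (w * sw i) := rfl

theorem sw_mul_self (i : ℤ) : sw i * sw i = 1 := swap_mul_self _ _

theorem sw_inv (i : ℤ) : (sw i)⁻¹ = sw i := swap_inv _ _

theorem sw_apply_left (i : ℤ) : sw i i = i + 1 := swap_apply_left _ _

theorem sw_apply_right (i : ℤ) : sw i (i + 1) = i := swap_apply_right _ _

theorem sw_apply_of_ne {i x : ℤ} (h1 : x ≠ i) (h2 : x ≠ i + 1) : sw i x = x :=
  swap_apply_of_ne_of_ne h1 h2

/-- Descents and left descents commute: the pairs (descent of `w`, then left descent) and (left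
descent of `w`, then descent) are the same. -/
theorem desc_ldesc_comm {w : Perm ℤ} (h : FS w) (i v : ℤ) :
    i ∈ desc w ∧ v ∈ ldesc (w * sw i) ↔ i ∈ desc (sw v * w) ∧ v ∈ ldesc w := by
  rw [mem_desc h, mem_ldesc (h.mul (FS.sw i)), mem_desc ((FS.sw v).mul h), mem_ldesc h]
  have e1 : ∀ x, (w * sw i)⁻¹ x = sw i (w⁻¹ x) := by
    intro x
    rw [mul_inv_rev, sw_inv]
    rfl
  rw [e1, e1]
  show _ ↔ sw v (w (i + 1)) < sw v (w i) ∧ _
  obtain ⟨a, rfl⟩ : ∃ a, v = w a := ⟨w⁻¹ v, (apply_inv w v).symm⟩
  obtain ⟨b, hb⟩ : ∃ b, w a + 1 = w b := ⟨w⁻¹ (w a + 1), (apply_inv w _).symm⟩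
  rw [inv_apply, hb, inv_apply]
  have hab : a ≠ b := by
    rintro rfl
    omega
  have hi : w i ≠ w (i + 1) := fun h => by
    have := w.injective h
    omega
  have k1 : ∀ x, w x = w a ↔ x = a := fun x => w.injective.eq_iff
  have k2 : ∀ x, w x = w b ↔ x = b := fun x => w.injective.eq_iff
  unfold sw
  simp only [swap_apply_def, hb, k1, k2]
  have e2 := k1 i
  have e3 := k2 i
  have e4 := k1 (i + 1)
  have e5 := k2 (i + 1)
  split_ifs <;> constructor <;> intro hh <;> omega

/-- The recursion over the first letter. -/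
theorem R_succ_left (k : ℕ) {w : Perm ℤ} (h : FS w) :
    R (k + 1) w = ∑ v ∈ ldesc w, R k (sw v * w) := by
  induction k generalizing w with
  | zero =>
    rw [R_succ]
    -- both sides count the `i` with `w = sw i`
    have key : ∀ (i : ℤ), (i ∈ desc w ∧ w * sw i = 1) ↔ w = sw i := by
      intro i
      constructor
      · rintro ⟨-, h1⟩
        rw [mul_eq_one_iff_eq_inv, sw_inv] at h1
        exact h1
      · rintro rfl
        refine ⟨?_, sw_mul_self i⟩
        rw [mem_desc h, sw_apply_left, sw_apply_right]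
        omega
    have key' : ∀ (i : ℤ), (i ∈ ldesc w ∧ sw i * w = 1) ↔ w = sw i := by
      intro i
      constructor
      · rintro ⟨-, h1⟩
        rw [mul_eq_one_iff_inv_eq, sw_inv] at h1
        exact h1.symm
      · rintro rfl
        refine ⟨?_, sw_mul_self i⟩
        rw [mem_ldesc h, sw_inv, sw_apply_left, sw_apply_right]
        omega
    classical
    have e1 : ∀ i, R 0 (w * sw i) = if w * sw i = 1 then 1 else 0 := fun i => R_zero _
    have e2 : ∀ i, R 0 (sw i * w) = if sw i * w = 1 then 1 else 0 := fun i => R_zero _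
    simp only [e1, e2]
    rw [← Finset.card_filter, ← Finset.card_filter]
    congr 1
    ext i
    rw [Finset.mem_filter, Finset.mem_filter, key, key']
  | succ k ih =>
    rw [R_succ]
    have e1 : ∀ i ∈ desc w, R (k + 1) (w * sw i) = ∑ v ∈ ldesc (w * sw i),
        R k (sw v * (w * sw i)) := fun i _ => ih (h.mul (FS.sw i))
    have e2 : ∀ v ∈ ldesc w, R (k + 1) (sw v * w) = ∑ i ∈ desc (sw v * w),
        R k (sw v * (w * sw i)) := by
      intro v _
      rw [R_succ]
      rfl
    rw [Finset.sum_congr rfl e1, Finset.sum_congr rfl e2]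
    exact Finset.sum_comm' fun i v => desc_ldesc_comm h i v

end Pool.Agent.SortNet
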