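import Pool.Agent.Work.MP_aee03d_pr.Fam

/-!
# The discrete arcsine law (module BETA)
-/

namespace Pool.Agent.SortNet

open Finset

theorem be_zero : be 0 = 1 := by simp [be]

theorem be_nonneg (c : ℕ) : 0 ≤ be c := by
  unfold be
  positivity

theorem be_succ (c : ℕ) : (2 * (c : ℚ) + 2) * be (c + 1) = (2 * c + 1) * be c := by
  have h := Nat.succ_mul_centralBinom_succ c
  have h' : ((c : ℚ) + 1) * (Nat.centralBinom (c + 1) : ℚ) =
      2 * (2 * c + 1) * (Nat.centralBinom c : ℚ) := by exact_mod_cast h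
  unfold be
  rw [pow_succ]
  field_simp
  linarith

/-- the convolution -/
theorem conv_be (n : ℕ) : ∑ i ∈ range (n + 1), be i * be (n - i) = 1 := by
  induction n with
  | zero => simp [be_zero]
  | succ n ih =>
    have hsym : ∀ N : ℕ, 2 * ∑ i ∈ range (N + 1), (i : ℚ) * (be i * be (N - i)) =
        N * ∑ i ∈ range (N + 1), be i * be (N - i) := by
      intro N
      have h := Finset.sum_range_reflect (fun i => (i : ℚ) * (be i * be (N - i))) (N + 1)
      rw [two_mul]
      nth_rewrite 1 [← h]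
      rw [← Finset.sum_add_distrib, Finset.mul_sum]
      refine Finset.sum_congr rfl fun i hi => ?_
      have hi' : i ≤ N := Nat.lt_succ_iff.1 (mem_range.1 hi)
      have e1 : N + 1 - 1 - i = N - i := by omega
      have e2 : N - (N - i) = i := by omega
      rw [e1, e2, Nat.cast_sub hi']
      ring
    have h1 := hsym (n + 1)
    have h2 := hsym n
    rw [ih] at h2
    have h3 : 2 * ∑ i ∈ range (n + 1 + 1), (i : ℚ) * (be i * be (n + 1 - i)) =
        ∑ i ∈ range (n + 1), (2 * (i : ℚ) + 1) * (be i * be (n - i)) := by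
      rw [Finset.sum_range_succ', Nat.cast_zero, zero_mul, add_zero, Finset.mul_sum]
      refine Finset.sum_congr rfl fun i _ => ?_
      have e1 : n + 1 - (i + 1) = n - i := by omega
      rw [e1]
      have := be_succ i
      push_cast
      linear_combination (be (n - i)) * this
    have h4 : ∑ i ∈ range (n + 1), (2 * (i : ℚ) + 1) * (be i * be (n - i)) =
        2 * ∑ i ∈ range (n + 1), (i : ℚ) * (be i * be (n - i)) +
          ∑ i ∈ range (n + 1), be i * be (n - i) := by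
      rw [Finset.mul_sum, ← Finset.sum_add_distrib]
      refine Finset.sum_congr rfl fun i _ => ?_
      ring
    rw [h3, h4, h2, ih] at h1
    have h5 : ((n : ℚ) + 1) ≠ 0 := by positivity
    push_cast at h1
    have h6 : ((n : ℚ) + 1) * (∑ i ∈ range (n + 1 + 1), be i * be (n + 1 - i)) =
      ((n : ℚ) + 1) * 1 := by linarith
    exact mul_left_cancel₀ h5 h6

theorem sum_mm {n : ℕ} (hn : 1 ≤ n) : ∑ c ∈ range n, mm n c = 1 := by
  obtain ⟨m, rfl⟩ : ∃ m, n = m + 1 := ⟨n - 1, by omega⟩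
  exact conv_be m

theorem mm_nonneg (n c : ℕ) : 0 ≤ mm n c := mul_nonneg (be_nonneg _) (be_nonneg _)

theorem odd_ne (a : ℤ) : (2 * (a : ℚ) - 1) ≠ 0 := by
  intro h
  have h1 : 2 * a - 1 = 0 := by exact_mod_cast h
  omega

theorem row_sum (M c : ℕ) : ∑ c' ∈ range M, 1 / (1 - 4 * ((c : ℚ) - c') ^ 2) =
    1 / 2 * (1 / (2 * ((M : ℚ) - c) - 1) + 1 / (2 * c + 1)) := by
  induction M with
  | zero =>
    simp only [range_zero, sum_empty, Nat.cast_zero]
    rw [show (2 * (0 - (c : ℚ)) - 1) = -(2 * c + 1) by ring]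
    rw [one_div_neg_eq_neg_one_div]
    ring
  | succ M ih =>
    rw [sum_range_succ, ih]
    have h1 : (2 * ((M : ℚ) - c) - 1) ≠ 0 := by
      have := odd_ne ((M : ℤ) - c)
      exact_mod_cast this
    have h2 : (2 * (((M : ℚ) + 1) - c) - 1) ≠ 0 := by
      have := odd_ne ((M : ℤ) + 1 - c)
      exact_mod_cast this
    have h3 : (1 - 4 * ((c : ℚ) - M) ^ 2) = -((2 * ((M : ℚ) - c) - 1) *
      (2 * (((M : ℚ) + 1) - c) - 1)) := by ring
    have h4 : (2 * (c : ℚ) + 1) ≠ 0 := by positivity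
    rw [h3]
    push_cast
    field_simp
    ring

/-- The kernel `1 / (1 - 4 (c - c') ^ 2)` is positive semidefinite. -/
theorem kernel_psd (M : ℕ) (x : ℕ → ℚ) :
    0 ≤ ∑ c ∈ range M, ∑ c' ∈ range M, x c * x c' / (1 - 4 * ((c : ℚ) - c') ^ 2) := by
  have hrow : ∀ c ∈ range M, 0 ≤ ∑ c' ∈ range M, 1 / (1 - 4 * ((c : ℚ) - c') ^ 2) := by
    intro c hc
    rw [row_sum]
    have h1 : (c : ℚ) + 1 ≤ M := by exact_mod_cast mem_range.1 hc
    have h2 : 0 < 2 * ((M : ℚ) - c) - 1 := by linarith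
    positivity
  have e : ∀ c c' : ℕ, x c * x c' / (1 - 4 * ((c : ℚ) - c') ^ 2) =
      1 / 2 * (x c ^ 2 * (1 / (1 - 4 * ((c : ℚ) - c') ^ 2))) +
      1 / 2 * (x c' ^ 2 * (1 / (1 - 4 * ((c : ℚ) - c') ^ 2))) +
      1 / 2 * ((x c - x c') ^ 2 * (-(1 / (1 - 4 * ((c : ℚ) - c') ^ 2)))) := by
    intro c c'
    ring
  simp only [e, sum_add_distrib, ← mul_sum]
  have h1 : 0 ≤ ∑ c ∈ range M, x c ^ 2 * ∑ c' ∈ range M, 1 / (1 - 4 * ((c : ℚ) - c') ^ 2) :=
    sum_nonneg fun c hc => mul_nonneg (sq_nonneg _) (hrow c hc)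
  have h2 : ∑ c ∈ range M, ∑ c' ∈ range M, x c' ^ 2 * (1 / (1 - 4 * ((c : ℚ) - c') ^ 2)) =
      ∑ c ∈ range M, x c ^ 2 * ∑ c' ∈ range M, 1 / (1 - 4 * ((c : ℚ) - c') ^ 2) := by
    rw [sum_comm]
    refine sum_congr rfl fun c _ => ?_
    rw [mul_sum]
    refine sum_congr rfl fun c' _ => ?_
    rw [show ((c' : ℚ) - c) ^ 2 = ((c : ℚ) - c') ^ 2 by ring]
  have h3 : 0 ≤ ∑ c ∈ range M, ∑ c' ∈ range M,
      (x c - x c') ^ 2 * (-(1 / (1 - 4 * ((c : ℚ) - c') ^ 2))) := by
    refine sum_nonneg fun c _ => sum_nonneg fun c' _ => ?_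
    by_cases hcc : c = c'
    · subst hcc
      simp
    · apply mul_nonneg (sq_nonneg _)
      have h4 : (1 : ℚ) ≤ ((c : ℚ) - c') ^ 2 := by
        have h5 : (1 : ℤ) ≤ ((c : ℤ) - c') ^ 2 := by
          have : ((c : ℤ) - c') ≠ 0 := by omega
          have := sq_nonneg ((c : ℤ) - c')
          have h6 : ((c : ℤ) - c') ^ 2 ≠ 0 := by positivity
          omega
        exact_mod_cast h5
      rw [neg_nonneg]
      apply div_nonpos_of_nonneg_of_nonpos zero_le_one
      linarith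
  rw [h2]
  linarith

/-- The distribution function of the discrete arcsine law. -/
noncomputable def tau (n p : ℕ) : ℚ := ∑ c ∈ range p, mm n c

theorem be_sq_le {c : ℕ} (hc : 1 ≤ c) : ((be c : ℚ) : ℝ) ^ 2 ≤ 1 / (Real.pi * c) := by
  have h1 := Real.Wallis.le_W c
  rw [Real.Wallis.W_eq_factorial_ratio] at h1
  have h2 : ((be c : ℚ) : ℝ) = ((2 * c).factorial : ℝ) / ((c.factorial : ℝ) ^ 2 * 4 ^ c) := by
    unfold be
    have h3 := Nat.centralBinom_eq_two_mul_choose c
    have h4 : Nat.choose (2 * c) c * c.factorial * (2 * c - c).factorial = (2 * c).factorial :=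
      Nat.choose_mul_factorial_mul_factorial (by omega)
    rw [show 2 * c - c = c by omega, ← h3] at h4
    have h5 : (Nat.centralBinom c : ℝ) * (c.factorial : ℝ) * (c.factorial : ℝ) =
        ((2 * c).factorial : ℝ) := by exact_mod_cast h4
    push_cast
    rw [← h5]
    have h6 : (c.factorial : ℝ) ≠ 0 := by positivity
    field_simp
  have hc' : (1 : ℝ) ≤ c := by exact_mod_cast hc
  have hpi := Real.pi_pos
  rw [h2, div_pow, div_le_div_iff₀ (by positivity) (by positivity)]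
  rw [le_div_iff₀ (by positivity)] at h1
  have h7 : ((c.factorial : ℝ) ^ 2 * 4 ^ c) ^ 2 = 2 ^ (4 * c) * (c.factorial : ℝ) ^ 4 := by
    rw [mul_pow, ← pow_mul, ← pow_mul, pow_mul 2 4 c, mul_comm]
    congr 1
    rw [mul_comm c 2, pow_mul]
    norm_num
  rw [h7, one_mul]
  refine le_trans ?_ h1
  have h8 : Real.pi * c ≤ (2 * (c : ℝ) + 1) / (2 * c + 2) * (Real.pi / 2) * (2 * c + 1) := by
    rw [show (2 * (c : ℝ) + 1) / (2 * c + 2) * (Real.pi / 2) * (2 * c + 1) =
      Real.pi * ((2 * (c : ℝ) + 1) ^ 2 / (2 * (2 * c + 2))) by field_simp]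
    apply mul_le_mul_of_nonneg_left _ hpi.le
    rw [le_div_iff₀ (by positivity)]
    nlinarith
  calc ((2 * c).factorial : ℝ) ^ 2 * (Real.pi * c)
      ≤ ((2 * c).factorial : ℝ) ^ 2 *
        ((2 * (c : ℝ) + 1) / (2 * c + 2) * (Real.pi / 2) * (2 * c + 1)) := by gcongr
    _ = (2 * (c : ℝ) + 1) / (2 * c + 2) * (Real.pi / 2) *
        (((2 * c).factorial : ℝ) ^ 2 * (2 * c + 1)) := by ring

/-- the continuous arcsine law -/
noncomputable def arcF (m : ℕ) (x : ℝ) : ℝ := Real.arccos (1 - 2 * x / m) / Real.pi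

theorem arcF_step {m c : ℕ} (hc : 1 ≤ c) (hcm : c + 1 ≤ m) :
    1 / (Real.pi * √((c : ℝ) * (m - c))) ≤ arcF m (c + 1 / 2) - arcF m (c - 1 / 2) := by
  have hc' : (1 : ℝ) ≤ c := by exact_mod_cast hc
  have hcm' : (c : ℝ) + 1 ≤ m := by exact_mod_cast hcm
  have hm : (0 : ℝ) < m := by linarith
  have hpi := Real.pi_pos
  unfold arcF
  set a : ℝ := 1 - 2 * ((c : ℝ) - 1 / 2) / m with ha
  set b : ℝ := 1 - 2 * ((c : ℝ) + 1 / 2) / m with hb
  have hab : a - b = 2 / m := by rw [ha, hb]; ring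
  have hab2 : a + b = 2 * (1 - 2 * c / m) := by rw [ha, hb]; ring
  have ha1 : a < 1 := by
    rw [ha]
    have : 0 < 2 * ((c : ℝ) - 1 / 2) / m := by
      apply div_pos _ hm
      linarith
    linarith
  have hb1 : -1 < b := by
    rw [hb]
    have : 2 * ((c : ℝ) + 1 / 2) / m < 2 := by
      rw [div_lt_iff₀ hm]
      linarith
    linarith
  have hba : b < a := by
    have : 0 < 2 / (m : ℝ) := by positivity
    linarith
  set al := Real.arccos a with hal
  set be' := Real.arccos b with hbe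
  have c1 : Real.cos al = a := Real.cos_arccos (by linarith) ha1.le
  have c2 : Real.cos be' = b := Real.cos_arccos hb1.le (by linarith)
  have hlt : al < be' := Real.arccos_lt_arccos hb1.le hba ha1.le
  have hal0 : 0 ≤ al := Real.arccos_nonneg _
  have hbepi : be' ≤ Real.pi := Real.arccos_le_pi _
  set σ := (al + be') / 2 with hσ
  set δ := (be' - al) / 2 with hδ
  have hδ0 : 0 < δ := by rw [hδ]; linarith
  have hσ0 : 0 < σ := by rw [hσ]; linarith
  have hσpi : σ < Real.pi := by rw [hσ]; linarith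
  have e1 : al = σ - δ := by rw [hσ, hδ]; ring
  have e2 : be' = σ + δ := by rw [hσ, hδ]; ring
  rw [e1, Real.cos_sub] at c1
  rw [e2, Real.cos_add] at c2
  have s1 : Real.sin σ * Real.sin δ = 1 / m := by
    have : 2 * (Real.sin σ * Real.sin δ) = 2 / m := by linarith
    have h2 : (2 : ℝ) / m = 2 * (1 / m) := by ring
    linarith
  have s2 : Real.cos σ * Real.cos δ = 1 - 2 * c / m := by linarith
  have hsσ : 0 < Real.sin σ := Real.sin_pos_of_pos_of_lt_pi hσ0 hσpi
  have hq : 0 < (c : ℝ) * (m - c) := by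
    apply mul_pos <;> linarith
  set s : ℝ := 2 * √((c : ℝ) * (m - c)) / m with hs
  have hs0 : 0 < s := by
    rw [hs]
    have := Real.sqrt_pos.2 hq
    positivity
  have hs2 : s ^ 2 = 1 - (1 - 2 * c / m) ^ 2 := by
    rw [hs, div_pow, mul_pow, Real.sq_sqrt hq.le]
    field_simp
    ring
  have hsin : Real.sin σ ≤ s := by
    apply le_of_sq_le_sq _ hs0.le
    rw [hs2, ← s2]
    have h3 := Real.sin_sq_add_cos_sq σ
    have h4 : Real.cos δ ^ 2 ≤ 1 := Real.cos_sq_le_one δ
    have h5 : (Real.cos σ * Real.cos δ) ^ 2 ≤ Real.cos σ ^ 2 := by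
      rw [mul_pow]
      nlinarith [sq_nonneg (Real.cos σ)]
    linarith
  have hsδ : 1 / (m * s) ≤ Real.sin δ := by
    have h3 : Real.sin δ = 1 / m / Real.sin σ := by
      rw [← s1]
      field_simp
    rw [h3, ← div_div]
    apply div_le_div_of_nonneg_left (by positivity) hsσ hsin
  have hδs : Real.sin δ ≤ δ := (Real.sin_lt hδ0).le
  have key : 1 / (m * s) = 1 / (2 * √((c : ℝ) * (m - c))) := by
    rw [hs]
    field_simp
  rw [key] at hsδ
  have hfin : be' / Real.pi - al / Real.pi = 2 * δ / Real.pi := by rw [hδ]; ring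
  rw [hfin]
  have h9 : 1 / (Real.pi * √((c : ℝ) * (m - c))) = 2 * (1 / (2 * √((c : ℝ) * (m - c)))) /
      Real.pi := by
    have := Real.sqrt_pos.2 hq
    field_simp
  rw [h9]
  gcongr
  exact hsδ.trans hδs

theorem mm_le {m c : ℕ} (hc : 1 ≤ c) (hcm : c + 1 ≤ m) :
    ((mm (m + 1) c : ℚ) : ℝ) ≤ 1 / (Real.pi * √((c : ℝ) * (m - c))) := by
  have hc' : (1 : ℝ) ≤ c := by exact_mod_cast hc
  have hcm' : (c : ℝ) + 1 ≤ m := by exact_mod_cast hcm
  have hpi := Real.pi_pos
  have h1 := be_sq_le hc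
  have h2 := be_sq_le (c := m - c) (by omega)
  rw [Nat.cast_sub (by omega)] at h2
  have hq : 0 < (c : ℝ) * (m - c) := by
    apply mul_pos <;> linarith
  have h3 : (((mm (m + 1) c : ℚ) : ℝ)) ^ 2 ≤ (1 / (Real.pi * √((c : ℝ) * (m - c)))) ^ 2 := by
    have e : ((mm (m + 1) c : ℚ) : ℝ) = ((be c : ℚ) : ℝ) * ((be (m - c) : ℚ) : ℝ) := by
      unfold mm
      rw [Nat.add_sub_cancel]
      push_cast
      rfl
    rw [e, mul_pow, div_pow, mul_pow, Real.sq_sqrt hq.le]
    calc ((be c : ℚ) : ℝ) ^ 2 * ((be (m - c) : ℚ) : ℝ) ^ 2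
        ≤ 1 / (Real.pi * c) * (1 / (Real.pi * (m - c))) :=
          mul_le_mul h1 h2 (sq_nonneg _) (by positivity)
      _ = 1 ^ 2 / (Real.pi ^ 2 * (c * (m - c))) := by
          have : (0 : ℝ) < m - c := by linarith
          field_simp
  have h4 : 0 < 1 / (Real.pi * √((c : ℝ) * (m - c))) := by
    have := Real.sqrt_pos.2 hq
    positivity
  exact le_of_sq_le_sq h3 h4.le

theorem tau_le {m p : ℕ} (hp : 1 ≤ p) (hpm : p ≤ m) :
    (tau (m + 1) p : ℝ) - arcF m (p - 1 / 2) ≤ be m := by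
  have h : ∀ q : ℕ, q + 1 ≤ m → (tau (m + 1) (q + 1) : ℝ) ≤
      be m + (arcF m ((q + 1 : ℕ) - 1 / 2) - arcF m (1 / 2)) := by
    intro q
    induction q with
    | zero =>
      intro _
      have e : tau (m + 1) (0 + 1) = be m := by
        simp [tau, mm, be_zero]
      rw [e]
      have : arcF m (((0 + 1 : ℕ) : ℝ) - 1 / 2) = arcF m (1 / 2) := by
        congr 1
        norm_num
      rw [this]
      simp
    | succ q ih =>
      intro hq
      have h1 := ih (by omega)
      have e : tau (m + 1) (q + 1 + 1) = tau (m + 1) (q + 1) + mm (m + 1) (q + 1) := by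
        unfold tau
        rw [sum_range_succ]
      rw [e]
      have h2 := mm_le (m := m) (c := q + 1) (by omega) hq
      have h3 := arcF_step (m := m) (c := q + 1) (by omega) hq
      have h4 : arcF m (((q + 1 : ℕ) : ℝ) + 1 / 2) = arcF m (((q + 1 + 1 : ℕ) : ℝ) - 1 / 2) := by
        congr 1
        push_cast
        ring
      rw [h4] at h3
      rw [Rat.cast_add]
      linarith
  obtain ⟨q, rfl⟩ : ∃ q, p = q + 1 := ⟨p - 1, by omega⟩
  have h1 := h q hpm
  have h2 : 0 ≤ arcF m (1 / 2) := div_nonneg (Real.arccos_nonneg _) Real.pi_pos.le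
  linarith

theorem tau_symm {m p : ℕ} (hpm : p ≤ m + 1) :
    tau (m + 1) (m + 1 - p) = 1 - tau (m + 1) p := by
  have h1 := sum_mm (n := m + 1) (by omega)
  have h2 : tau (m + 1) (m + 1) = tau (m + 1) p + ∑ c ∈ range (m + 1 - p), mm (m + 1) (p + c) := by
    unfold tau
    rw [← sum_range_add, Nat.add_sub_cancel' hpm]
  have h3 : ∑ c ∈ range (m + 1 - p), mm (m + 1) (p + c) = tau (m + 1) (m + 1 - p) := by
    unfold tau
    rw [← sum_range_reflect]
    refine sum_congr rfl fun c hc => ?_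
    have := mem_range.1 hc
    unfold mm
    rw [mul_comm]
    congr 2 <;> omega
  rw [h3] at h2
  have h4 : tau (m + 1) (m + 1) = 1 := h1
  linarith

theorem arcF_symm {m : ℕ} (hm : 1 ≤ m) (x : ℝ) : arcF m (m - x) = 1 - arcF m x := by
  have hm' : (0 : ℝ) < m := by exact_mod_cast hm
  unfold arcF
  have e : 1 - 2 * ((m : ℝ) - x) / m = -(1 - 2 * x / m) := by
    field_simp
    ring
  rw [e, Real.arccos_neg]
  field_simp [Real.pi_pos.ne']

/-- The distance to the continuous arcsine law. -/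
theorem tau_arcsine {m p : ℕ} (hp : 1 ≤ p) (hpm : p ≤ m) :
    |(tau (m + 1) p : ℝ) - Real.arccos (1 - (2 * p - 1) / m) / Real.pi| ≤ 2 / Real.sqrt m := by
  have hm : 1 ≤ m := hp.trans hpm
  have hm' : (1 : ℝ) ≤ m := by exact_mod_cast hm
  have e : Real.arccos (1 - (2 * p - 1) / m) / Real.pi = arcF m (p - 1 / 2) := by
    unfold arcF
    congr 3
    ring
  rw [e]
  have h1 := tau_le hp hpm
  have h2 := tau_le (m := m) (p := m + 1 - p) (by omega) (by omega)
  rw [tau_symm (by omega)] at h2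
  have e2 : arcF m (((m + 1 - p : ℕ) : ℝ) - 1 / 2) = 1 - arcF m (p - 1 / 2) := by
    rw [← arcF_symm hm]
    congr 1
    rw [Nat.cast_sub (by omega)]
    push_cast
    ring
  rw [e2] at h2
  push_cast at h2
  have h3 : ((be m : ℚ) : ℝ) ≤ 2 / √m := by
    have h4 := be_sq_le hm
    have h5 : (((be m : ℚ) : ℝ)) ^ 2 ≤ (2 / √m) ^ 2 := by
      rw [div_pow, Real.sq_sqrt (by linarith)]
      refine h4.trans ?_
      rw [div_le_div_iff₀ (by have := Real.pi_pos; positivity) (by linarith)]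
      have := Real.pi_gt_three
      nlinarith
    exact le_of_sq_le_sq h5 (by positivity)
  rw [abs_le]
  constructor <;> linarith

end Pool.Agent.SortNet
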