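import Pool.Agent.Work.MP_aee03d_pr.Frob

/-!
# The reversal and the permutations with one or two inserted strands (module FAM)
-/

namespace Pool.Agent.SortNet

open Equiv Finset

/-- The reversal of the positions `0, ..., n - 1`. -/
def w0 (n : ℕ) : Perm ℤ where
  toFun x := if 0 ≤ x ∧ x < n then n - 1 - x else x
  invFun x := if 0 ≤ x ∧ x < n then n - 1 - x else x
  left_inv x := by
    dsimp only
    split_ifs <;> omega
  right_inv x := by
    dsimp only
    split_ifs <;> omega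

theorem w0_apply (n : ℕ) (x : ℤ) : w0 n x = if 0 ≤ x ∧ x < n then n - 1 - x else x := rfl

/-- `binom (2 c) c / 4 ^ c`. -/
noncomputable def be (c : ℕ) : ℚ := (Nat.centralBinom c : ℚ) / 4 ^ c

/-- The discrete arcsine law on `0, ..., n - 1`. -/
noncomputable def mm (n c : ℕ) : ℚ := be c * be (n - 1 - c)

/-- One inserted strand. -/
def u1 (n : ℕ) (c : ℤ) : Perm ℤ := swap (-1) c * w0 n

/-- Two inserted strands. -/
def z1 (n : ℕ) (c : ℤ) : Perm ℤ := swap (-2) (-1) * (swap (-1) c * w0 n)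

/-- One inserted strand and an additional exchange. -/
def u2 (n : ℕ) (c' c : ℤ) : Perm ℤ := u1 n c * swap ((n : ℤ) - 1 - c) ((n : ℤ) - 1 - c')

/-- One inserted strand and an additional exchange to the right. -/
def ud (n : ℕ) : Perm ℤ := u1 n 0 * swap ((n : ℤ) - 1) n

/-! ### The permutations -/

theorem w0_inv (n : ℕ) : (w0 n)⁻¹ = w0 n := rfl

theorem w0_fs (n : ℕ) : FS (w0 n) := by
  refine (Set.finite_Icc (0 : ℤ) n).subset fun x hx => ?_
  by_contra hcon
  rw [Set.mem_Icc] at hcon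
  apply hx
  rw [w0_apply, if_neg]
  omega

theorem u1_fs (n : ℕ) (c : ℤ) : FS (u1 n c) := (FS.swap _ _).mul (w0_fs n)

theorem u2_fs (n : ℕ) (c' c : ℤ) : FS (u2 n c' c) := (u1_fs n c).mul (FS.swap _ _)

theorem ud_fs (n : ℕ) : FS (ud n) := (u1_fs n 0).mul (FS.swap _ _)

theorem w0_eq_iff {n : ℕ} {c : ℤ} (h0 : 0 ≤ c) (hc : c < n) (x : ℤ) :
    w0 n x = c ↔ x = n - 1 - c := by
  rw [w0_apply]
  split_ifs <;> omega

theorem w0_eq_neg {n : ℕ} {c : ℤ} (h0 : c < 0) (x : ℤ) : w0 n x = c ↔ x = c := by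
  rw [w0_apply]
  split_ifs <;> omega

theorem u1_apply {n : ℕ} {c : ℤ} (h0 : 0 ≤ c) (hc : c < n) (x : ℤ) :
    u1 n c x = if x = -1 then c else if x = n - 1 - c then -1 else w0 n x := by
  show swap (-1) c (w0 n x) = _
  rw [swap_apply_def]
  simp only [w0_eq_iff h0 hc, w0_eq_neg (show (-1 : ℤ) < 0 by norm_num)]

theorem u1_inv_apply {n : ℕ} {c : ℤ} (y : ℤ) :
    (u1 n c)⁻¹ y = w0 n (if y = -1 then c else if y = c then -1 else y) := by
  show ((swap (-1) c * w0 n)⁻¹ : Perm ℤ) y = _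
  rw [mul_inv_rev, swap_inv, w0_inv, Perm.mul_apply, swap_apply_def]

theorem u2_apply {n : ℕ} {c' c : ℤ} (x : ℤ) :
    u2 n c' c x = u1 n c (if x = n - 1 - c then n - 1 - c' else
      if x = n - 1 - c' then n - 1 - c else x) := by
  show u1 n c (swap _ _ x) = _
  rw [swap_apply_def]

theorem u2_inv_apply {n : ℕ} {c' c : ℤ} (y : ℤ) :
    (u2 n c' c)⁻¹ y = if (u1 n c)⁻¹ y = n - 1 - c then n - 1 - c' else
      if (u1 n c)⁻¹ y = n - 1 - c' then n - 1 - c else (u1 n c)⁻¹ y := by
  show ((u1 n c * swap _ _)⁻¹ : Perm ℤ) y = _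
  rw [mul_inv_rev, swap_inv, Perm.mul_apply, swap_apply_def]

theorem ud_apply {n : ℕ} (x : ℤ) :
    ud n x = u1 n 0 (if x = n - 1 then n else if x = n then n - 1 else x) := by
  show u1 n 0 (swap _ _ x) = _
  rw [swap_apply_def]

theorem ud_inv_apply {n : ℕ} (y : ℤ) :
    (ud n)⁻¹ y = if (u1 n 0)⁻¹ y = n - 1 then (n : ℤ) else
      if (u1 n 0)⁻¹ y = n then n - 1 else (u1 n 0)⁻¹ y := by
  show ((u1 n 0 * swap _ _)⁻¹ : Perm ℤ) y = _
  rw [mul_inv_rev, swap_inv, Perm.mul_apply, swap_apply_def]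

/-! ### Rows -/

theorem mem_row' {w : Perm ℤ} {x y : ℤ} : y ∈ row w x ↔ y < w x ∧ x < w⁻¹ y := Iff.rfl

theorem row_w0 (n : ℕ) (x y : ℤ) :
    y ∈ row (w0 n) x ↔ 0 ≤ x ∧ x < n ∧ 0 ≤ y ∧ y < n - 1 - x := by
  rw [mem_row', w0_inv, w0_apply, w0_apply]
  split_ifs <;> omega

theorem row_u1 {n : ℕ} {c : ℤ} (h0 : 0 ≤ c) (hc : c < n) (x y : ℤ) :
    y ∈ row (u1 n c) x ↔ (x = -1 ∧ -1 ≤ y ∧ y < c) ∨
      (0 ≤ x ∧ x < n - 1 - c ∧ -1 ≤ y ∧ y < n - 1 - x ∧ y ≠ c) ∨
      (n - 1 - c < x ∧ x < n ∧ 0 ≤ y ∧ y < n - 1 - x) := by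
  rw [mem_row', u1_apply h0 hc, u1_inv_apply, w0_apply, w0_apply]
  split_ifs <;> omega

theorem row_u2 {n : ℕ} {c' c : ℤ} (h0 : 0 ≤ c') (hcc : c' < c) (hc : c < n) (x y : ℤ) :
    y ∈ row (u2 n c' c) x ↔ (x = -1 ∧ -1 ≤ y ∧ y < c) ∨
      (0 ≤ x ∧ x < n - 1 - c ∧ -1 ≤ y ∧ y < n - 1 - x ∧ y ≠ c) ∨
      (x = n - 1 - c ∧ -1 ≤ y ∧ y < c') ∨
      (n - 1 - c < x ∧ x < n - 1 - c' ∧ -1 ≤ y ∧ y < n - 1 - x ∧ y ≠ c') ∨
      (n - 1 - c' < x ∧ x < n ∧ 0 ≤ y ∧ y < n - 1 - x) := by
  have e1 : u2 n c' c x = if x = -1 then c else if x = n - 1 - c then c' else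
      if x = n - 1 - c' then -1 else w0 n x := by
    rw [u2_apply, u1_apply (by omega) hc, w0_apply, w0_apply]
    split_ifs <;> omega
  have e2 : (u2 n c' c)⁻¹ y = if y = -1 then n - 1 - c' else if y = c' then n - 1 - c else
      if y = c then -1 else w0 n y := by
    rw [u2_inv_apply, u1_inv_apply, w0_apply, w0_apply]
    split_ifs <;> omega
  rw [mem_row', e1, e2, w0_apply, w0_apply]
  split_ifs <;> omega

theorem row_ud {n : ℕ} (hn : 1 ≤ n) (x y : ℤ) :
    y ∈ row (ud n) x ↔ ((x = -1 ∨ x = n - 1) ∧ y = -1) ∨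
      (0 ≤ x ∧ x < n - 1 ∧ -1 ≤ y ∧ y < n - 1 - x ∧ y ≠ 0) := by
  have e1 : ud n x = if x = -1 then 0 else if x = n - 1 then (n : ℤ) else
      if x = n then -1 else w0 n x := by
    rw [ud_apply]
    by_cases h1 : x = n - 1
    · rw [if_pos h1, u1_apply le_rfl (by omega)]
      simp only [w0_apply]
      split_ifs <;> first | omega | contradiction
    · rw [if_neg h1]
      by_cases h2 : x = n
      · rw [if_pos h2, u1_apply le_rfl (by omega)]
        simp only [w0_apply]
        split_ifs <;> omega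
      · rw [if_neg h2, u1_apply le_rfl (by omega)]
        simp only [w0_apply]
        split_ifs <;> omega
  have e2 : (ud n)⁻¹ y = if y = -1 then (n : ℤ) else if y = 0 then -1 else
      if y = n then n - 1 else w0 n y := by
    rw [ud_inv_apply, u1_inv_apply]
    by_cases h1 : y = -1
    · rw [if_pos h1, if_pos h1]
      simp only [w0_apply]
      split_ifs <;> omega
    · rw [if_neg h1, if_neg h1]
      by_cases h2 : y = 0
      · rw [if_pos h2, if_pos h2]
        simp only [w0_apply]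
        split_ifs <;> first | omega | contradiction
      · rw [if_neg h2, if_neg h2]
        simp only [w0_apply]
        split_ifs <;> omega
  rw [mem_row', e1, e2, w0_apply, w0_apply]
  split_ifs <;> omega

theorem nested_of {w : Perm ℤ} (h : ∀ i k y z, y ∈ row w i → y ∉ row w k → z ∈ row w k →
    z ∉ row w i → False) : Nested w := by
  intro i k
  by_contra hcon
  rw [not_or, Set.not_subset, Set.not_subset] at hcon
  obtain ⟨⟨y, hy1, hy2⟩, z, hz1, hz2⟩ := hcon
  exact h i k y z hy1 hy2 hz1 hz2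

theorem nested_w0 (n : ℕ) : Nested (w0 n) := by
  refine nested_of fun i k y z => ?_
  rw [row_w0, row_w0, row_w0, row_w0]
  omega

theorem nested_u1 {n : ℕ} {c : ℤ} (h0 : 0 ≤ c) (hc : c < n) : Nested (u1 n c) := by
  refine nested_of fun i k y z => ?_
  rw [row_u1 h0 hc, row_u1 h0 hc, row_u1 h0 hc, row_u1 h0 hc]
  rintro (h1 | h1 | h1) h2 (h3 | h3 | h3) h4 <;> omega

theorem nested_u2 {n : ℕ} {c' c : ℤ} (h0 : 0 ≤ c') (hcc : c' < c) (hc : c < n) :
    Nested (u2 n c' c) := by
  refine nested_of fun i k y z => ?_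
  rw [row_u2 h0 hcc hc, row_u2 h0 hcc hc, row_u2 h0 hcc hc, row_u2 h0 hcc hc]
  rintro (h1 | h1 | h1 | h1 | h1) h2 (h3 | h3 | h3 | h3 | h3) h4 <;> omega

theorem nested_ud {n : ℕ} (hn : 1 ≤ n) : Nested (ud n) := by
  refine nested_of fun i k y z => ?_
  rw [row_ud hn, row_ud hn, row_ud hn, row_ud hn]
  rintro (h1 | h1) h2 (h3 | h3) h4 <;> omega

/-! ### Row lengths -/

theorem code_of {w : Perm ℤ} {x t e : ℤ} (h : ∀ y, y ∈ row w x ↔ -1 ≤ y ∧ y < t ∧ y ≠ e)
    (he : -1 ≤ e) (he' : e < t) : code w x = t.toNat := by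
  have h1 : row w x = ((Finset.Ico (-1) t).erase e : Finset ℤ) := by
    ext y
    rw [h, Finset.mem_coe, Finset.mem_erase, Finset.mem_Ico]
    tauto
  unfold code
  rw [h1, Set.ncard_coe_finset, Finset.card_erase_of_mem (Finset.mem_Ico.2 ⟨he, he'⟩),
    Int.card_Ico]
  omega

theorem code_of' {w : Perm ℤ} {x t : ℤ} (h : ∀ y, y ∈ row w x ↔ -1 ≤ y ∧ y < t) :
    code w x = (t + 1).toNat := by
  have h1 : row w x = (Finset.Ico (-1) t : Finset ℤ) := by
    ext y
    rw [h, Finset.mem_coe, Finset.mem_Ico]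
  unfold code
  rw [h1, Set.ncard_coe_finset, Int.card_Ico]
  congr 1

theorem code_of_empty {w : Perm ℤ} {x : ℤ} (h : ∀ y, y ∉ row w x) : code w x = 0 := by
  unfold code
  rw [Set.eq_empty_iff_forall_notMem.2 h, Set.ncard_empty]

/-- Counting long rows by an enumeration of the rows. -/
theorem hcol_of_pos {w : Perm ℤ} {M : ℕ} {lam : ℕ → ℕ} (pos : ℕ → ℤ)
    (hinj : ∀ i j, i < M → j < M → pos i = pos j → i = j)
    (hcode : ∀ i, i < M → code w (pos i) = lam i)
    (hout : ∀ x, (∀ i, i < M → pos i ≠ x) → code w x = 0) (t : ℕ) (ht : 1 ≤ t) :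
    {x : ℤ | t ≤ code w x}.ncard = ((range M).filter (t ≤ lam ·)).card := by
  have h1 : {x : ℤ | t ≤ code w x} = (((range M).filter (t ≤ lam ·)).image pos : Finset ℤ) := by
    ext x
    rw [Finset.mem_coe, Finset.mem_image]
    constructor
    · intro hx
      have hx' : t ≤ code w x := hx
      by_contra hcon
      have h2 := hout x (fun i hi h3 => hcon ⟨i, ?_, h3⟩)
      · omega
      · rw [Finset.mem_filter, Finset.mem_range]
        refine ⟨hi, ?_⟩
        rw [← hcode i hi, h3]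
        exact hx'
    · rintro ⟨i, hi, rfl⟩
      rw [Finset.mem_filter, Finset.mem_range] at hi
      show t ≤ code w (pos i)
      rw [hcode i hi.1]
      exact hi.2
  rw [h1, Set.ncard_coe_finset, Finset.card_image_of_injOn]
  intro i hi j hj hij
  rw [Finset.mem_coe, Finset.mem_filter, Finset.mem_range] at hi hj
  exact hinj i j hi.1 hj.1 hij

/-! ### The numbers of reduced words -/

theorem sum_lam0 (n : ℕ) : ∑ i ∈ range (n + 1), (i - 1) = n * (n - 1) / 2 := by
  rw [Finset.sum_range_succ', ← Finset.sum_range_id]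
  simp

theorem R_w0_eq (n : ℕ) : (R (n * (n - 1) / 2) (w0 n) : ℚ) = frob (n + 1) (fun i => i - 1) := by
  rw [← sum_lam0 n]
  refine R_eq_frob (w0_fs n) (nested_w0 n) (n + 1) (fun i => i - 1)
    (fun i j hij _ => by omega) ?_
  refine hcol_of_pos (fun i => (n : ℤ) - i) ?_ ?_ ?_
  · intro i j hi hj h
    omega
  · intro i hi
    rcases (show i ≤ 1 ∨ 2 ≤ i by omega) with h | h
    · rw [code_of_empty]
      · omega
      · intro y
        rw [row_w0]
        omega
    · rw [code_of (t := (i : ℤ) - 1) (e := -1)]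
      · omega
      · intro y
        rw [row_w0]
        omega
      · omega
      · omega
  · intro x hx
    apply code_of_empty
    intro y
    rw [row_w0]
    intro h
    have h1 := hx (n - x).toNat (by omega)
    omega

theorem R_u1_eq {n c : ℕ} (hc : c < n) : (R (n * (n - 1) / 2 + 1) (u1 n c) : ℚ) =
    frob (n + 1) (fun i => (i - 1) + if i = c + 1 then 1 else 0) := by
  have hsum : ∑ i ∈ range (n + 1), ((i - 1) + if i = c + 1 then 1 else 0) =
      n * (n - 1) / 2 + 1 := by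
    rw [Finset.sum_add_distrib, sum_lam0, Finset.sum_ite_eq', if_pos]
    rw [Finset.mem_range]
    omega
  rw [← hsum]
  have hc0 : (0 : ℤ) ≤ (c : ℤ) := by omega
  have hcn : (c : ℤ) < n := by omega
  refine R_eq_frob (u1_fs n c) (nested_u1 hc0 hcn) (n + 1) _
    (fun i j hij _ => by split_ifs <;> omega) ?_
  refine hcol_of_pos (fun i => if i = c + 1 then -1 else (n : ℤ) - i) ?_ ?_ ?_
  · intro i j hi hj h
    split_ifs at h <;> omega
  · intro i hi
    split_ifs with h1
    · rw [code_of' (t := c)]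
      · omega
      · intro y
        rw [row_u1 hc0 hcn]
        omega
    · rcases (show i = 0 ∨ (1 ≤ i ∧ i ≤ c) ∨ c + 2 ≤ i by omega) with h | h | h
      · rw [code_of_empty]
        · omega
        · intro y
          rw [row_u1 hc0 hcn]
          omega
      · rw [code_of (t := (i : ℤ) - 1) (e := -1)]
        · omega
        · intro y
          rw [row_u1 hc0 hcn]
          omega
        · omega
        · omega
      · rw [code_of (t := (i : ℤ) - 1) (e := c)]
        · omega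
        · intro y
          rw [row_u1 hc0 hcn]
          omega
        · omega
        · omega
  · intro x hx
    apply code_of_empty
    intro y
    rw [row_u1 hc0 hcn]
    intro h
    have h1 := hx (n - x).toNat
    have h2 := hx (c + 1) (by omega)
    rw [if_pos rfl] at h2
    split_ifs at h1 <;> omega

theorem R_u2_eq {n c' c : ℕ} (hcc : c' < c) (hc : c < n) :
    (R (n * (n - 1) / 2 + 2) (u2 n c' c) : ℚ) =
    frob (n + 1) (fun i => (i - 1) + (if i = c + 1 then 1 else 0) +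
      if i = c' + 1 then 1 else 0) := by
  have hsum : ∑ i ∈ range (n + 1), ((i - 1) + (if i = c + 1 then 1 else 0) +
      if i = c' + 1 then 1 else 0) = n * (n - 1) / 2 + 2 := by
    rw [Finset.sum_add_distrib, Finset.sum_add_distrib, sum_lam0, Finset.sum_ite_eq', if_pos,
      Finset.sum_ite_eq', if_pos]
    · rw [Finset.mem_range]
      omega
    · rw [Finset.mem_range]
      omega
  rw [← hsum]
  have hc0 : (0 : ℤ) ≤ (c' : ℤ) := by omega
  have hcn : (c : ℤ) < n := by omega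
  have hccz : (c' : ℤ) < c := by omega
  refine R_eq_frob (u2_fs n c' c) (nested_u2 hc0 hccz hcn) (n + 1) _
    (fun i j hij _ => by split_ifs <;> omega) ?_
  refine hcol_of_pos (fun i => if i = c + 1 then -1 else if i = c' + 1 then
    (n : ℤ) - 1 - c else (n : ℤ) - i) ?_ ?_ ?_
  · intro i j hi hj h
    split_ifs at h <;> omega
  · intro i hi
    by_cases h1 : i = c + 1
    · rw [if_pos h1, if_pos h1, if_neg (by omega)]
      rw [code_of' (t := c)]
      · omega
      · intro y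
        rw [row_u2 hc0 hccz hcn]
        omega
    · rw [if_neg h1, if_neg h1]
      by_cases h2 : i = c' + 1
      · rw [if_pos h2, if_pos h2]
        rw [code_of' (t := c')]
        · omega
        · intro y
          rw [row_u2 hc0 hccz hcn]
          omega
      · rw [if_neg h2, if_neg h2]
        rcases (show i = 0 ∨ (1 ≤ i ∧ i ≤ c') ∨ (c' + 2 ≤ i ∧ i ≤ c) ∨ c + 2 ≤ i by omega)
          with h | h | h | h
        · rw [code_of_empty]
          · omega
          · intro y
            rw [row_u2 hc0 hccz hcn]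
            omega
        · rw [code_of (t := (i : ℤ) - 1) (e := -1)]
          · omega
          · intro y
            rw [row_u2 hc0 hccz hcn]
            omega
          · omega
          · omega
        · rw [code_of (t := (i : ℤ) - 1) (e := c')]
          · omega
          · intro y
            rw [row_u2 hc0 hccz hcn]
            omega
          · omega
          · omega
        · rw [code_of (t := (i : ℤ) - 1) (e := c)]
          · omega
          · intro y
            rw [row_u2 hc0 hccz hcn]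
            omega
          · omega
          · omega
  · intro x hx
    apply code_of_empty
    intro y
    rw [row_u2 hc0 hccz hcn]
    intro h
    have h1 := hx (n - x).toNat
    have h2 := hx (c + 1) (by omega)
    have h3 := hx (c' + 1) (by omega)
    rw [if_pos rfl] at h2
    rw [if_neg (by omega), if_pos rfl] at h3
    split_ifs at h1 <;> omega

theorem R_ud_eq {n : ℕ} (hn : 1 ≤ n) : (R (n * (n - 1) / 2 + 2) (ud n) : ℚ) =
    frob (n + 1) (fun i => (i - 1) + (if i = 1 then 1 else 0) + if i = 0 then 1 else 0) := by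
  have hsum : ∑ i ∈ range (n + 1), ((i - 1) + (if i = 1 then 1 else 0) +
      if i = 0 then 1 else 0) = n * (n - 1) / 2 + 2 := by
    rw [Finset.sum_add_distrib, Finset.sum_add_distrib, sum_lam0, Finset.sum_ite_eq', if_pos,
      Finset.sum_ite_eq', if_pos]
    · rw [Finset.mem_range]
      omega
    · rw [Finset.mem_range]
      omega
  rw [← hsum]
  refine R_eq_frob (ud_fs n) (nested_ud hn) (n + 1) _
    (fun i j hij _ => by split_ifs <;> omega) ?_
  refine hcol_of_pos (fun i => if i = 0 then -1 else (n : ℤ) - i) ?_ ?_ ?_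
  · intro i j hi hj h
    split_ifs at h <;> omega
  · intro i hi
    rcases (show i = 0 ∨ i = 1 ∨ 2 ≤ i by omega) with h | h | h
    · rw [if_pos h, if_neg (by omega), if_pos h]
      rw [code_of' (t := 0)]
      · omega
      · intro y
        rw [row_ud hn]
        omega
    · rw [if_neg (by omega), if_pos h, if_neg (by omega)]
      rw [code_of' (t := 0)]
      · omega
      · intro y
        rw [row_ud hn]
        omega
    · rw [if_neg (by omega), if_neg (by omega), if_neg (by omega)]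
      rw [code_of (t := (i : ℤ) - 1) (e := 0)]
      · omega
      · intro y
        rw [row_ud hn]
        omega
      · omega
      · omega
  · intro x hx
    apply code_of_empty
    intro y
    rw [row_ud hn]
    intro h
    have h1 := hx (n - x).toNat
    have h2 := hx 0 (by omega)
    rw [if_pos rfl] at h2
    split_ifs at h1 <;> omega

/-! ### Ratios -/

theorem be_zero0 : be 0 = 1 := by
  unfold be
  rw [Nat.centralBinom_zero]
  norm_num

theorem be_succ0 (c : ℕ) : be (c + 1) * (2 * c + 2) = be c * (2 * c + 1) := by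
  unfold be
  have h1 : ((c + 1 : ℕ) : ℚ) * (Nat.centralBinom (c + 1) : ℚ) =
      2 * (2 * c + 1) * (Nat.centralBinom c : ℚ) := by
    have := Nat.succ_mul_centralBinom_succ c
    exact_mod_cast this
  have h4 : (4 : ℚ) ^ c ≠ 0 := by positivity
  rw [pow_succ]
  push_cast at h1
  field_simp
  linear_combination 2 * h1

theorem be_pos (c : ℕ) : 0 < be c := by
  unfold be
  have h1 : 0 < (Nat.centralBinom c : ℚ) := by exact_mod_cast Nat.centralBinom_pos c
  positivity

/-- The effect on the formula of Frobenius of one more box. -/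
theorem frob_update (M : ℕ) (lam : ℕ → ℕ) {i : ℕ} (hi : i < M)
    (hinj : ∀ j, j < M → j ≠ i → lam j + j ≠ lam i + i) :
    frob M (fun j => lam j + if j = i then 1 else 0) =
      frob M lam * ((∑ j ∈ range M, lam j : ℕ) + 1) / (((lam i + i : ℕ) : ℚ) + 1) *
        ∏ j ∈ (range M).erase i, ((((lam i + i : ℕ) : ℚ) + 1 - ((lam j + j : ℕ) : ℚ)) /
          (((lam i + i : ℕ) : ℚ) - ((lam j + j : ℕ) : ℚ))) := by
  have hmem := Finset.mem_range.2 hi
  have hsum : ∑ j ∈ range M, (lam j + if j = i then 1 else 0) =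
      (∑ j ∈ range M, lam j) + 1 := by
    rw [Finset.sum_add_distrib, Finset.sum_ite_eq', if_pos hmem]
  have hv := vdm_update M (fun k => ((lam k + k : ℕ) : ℚ)) hi (((lam i + i : ℕ) : ℚ) + 1)
  have hup : (fun k => (((lam k + if k = i then 1 else 0) + k : ℕ) : ℚ)) =
      Function.update (fun k => ((lam k + k : ℕ) : ℚ)) i (((lam i + i : ℕ) : ℚ) + 1) := by
    funext k
    by_cases hk : k = i
    · subst hk
      rw [Function.update_self, if_pos rfl]
      push_cast
      ring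
    · rw [Function.update_of_ne hk, if_neg hk, add_zero]
  have hfac : ∏ k ∈ range M, (((lam k + if k = i then 1 else 0) + k).factorial : ℚ) =
      (((lam i + i : ℕ) : ℚ) + 1) * ∏ k ∈ range M, ((lam k + k).factorial : ℚ) := by
    rw [← Finset.mul_prod_erase _ _ hmem, ← Finset.mul_prod_erase (range M)
      (fun k => ((lam k + k).factorial : ℚ)) hmem, if_pos rfl]
    have e1 : ∏ x ∈ (range M).erase i, (((lam x + if x = i then 1 else 0) + x).factorial : ℚ) =
        ∏ x ∈ (range M).erase i, ((lam x + x).factorial : ℚ) :=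
      Finset.prod_congr rfl fun j hj => by
        rw [if_neg (Finset.ne_of_mem_erase hj), add_zero]
    have e2 : lam i + 1 + i = (lam i + i) + 1 := by ring
    rw [e1, e2, Nat.factorial_succ]
    push_cast
    ring
  have hP : (∏ k ∈ range M, ((lam k + k).factorial : ℚ)) ≠ 0 := Finset.prod_ne_zero_iff.2
    fun k _ => by
      have := Nat.factorial_ne_zero (lam k + k)
      exact_mod_cast this
  have hD : ∏ j ∈ (range M).erase i, (((lam i + i : ℕ) : ℚ) - ((lam j + j : ℕ) : ℚ)) ≠ 0 := by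
    rw [Finset.prod_ne_zero_iff]
    intro j hj h
    have h1 : lam i + i = lam j + j := by exact_mod_cast (sub_eq_zero.1 h)
    exact hinj j (Finset.mem_range.1 (Finset.mem_of_mem_erase hj)) (Finset.ne_of_mem_erase hj)
      h1.symm
  have hl : (((lam i + i : ℕ) : ℚ) + 1) ≠ 0 := by positivity
  rw [← fro_eq_frob, ← fro_eq_frob]
  unfold fro
  rw [hsum, hup, hfac, Finset.prod_div_distrib, Nat.factorial_succ]
  push_cast at hv hD hl ⊢
  field_simp
  linear_combination hv

theorem prod_A (c : ℕ) :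
    ∏ k ∈ range c, ((2 * (k : ℚ) + 3) / (2 * k + 2)) = (2 * c + 1) * be c := by
  induction c with
  | zero =>
    rw [Finset.prod_range_zero, be_zero0]
    norm_num
  | succ c ih =>
    rw [Finset.prod_range_succ, ih]
    have h1 := be_succ0 c
    have h2 : (2 * (c : ℚ) + 2) ≠ 0 := by positivity
    push_cast
    field_simp
    linear_combination -(2 * (c : ℚ) + 3) * h1

theorem prod_B (c : ℕ) : ∏ k ∈ range c, ((2 * (k : ℚ) + 1) / (2 * k + 2)) = be c := by
  induction c with
  | zero =>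
    rw [Finset.prod_range_zero, be_zero0]
  | succ c ih =>
    rw [Finset.prod_range_succ, ih]
    have h1 := be_succ0 c
    have h2 : (2 * (c : ℚ) + 2) ≠ 0 := by positivity
    field_simp
    linear_combination -h1

theorem prod_erase_split {n c : ℕ} (hc : c < n) (f : ℕ → ℚ) :
    ∏ j ∈ (range (n + 1)).erase (c + 1), f j =
      f 0 * (∏ k ∈ range c, f (c - k)) * ∏ k ∈ range (n - 1 - c), f (c + 2 + k) := by
  have h1 : (range (n + 1)).erase (c + 1) = range (c + 1) ∪ Finset.Ico (c + 2) (n + 1) := by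
    ext j
    rw [Finset.mem_erase, Finset.mem_union, Finset.mem_range, Finset.mem_range, Finset.mem_Ico]
    omega
  have h2 : Disjoint (range (c + 1)) (Finset.Ico (c + 2) (n + 1)) := by
    rw [Finset.disjoint_left]
    intro j hj hj'
    rw [Finset.mem_range] at hj
    rw [Finset.mem_Ico] at hj'
    omega
  rw [h1, Finset.prod_union h2, Finset.prod_Ico_eq_prod_range, Finset.prod_range_succ',
    ← Finset.prod_range_reflect]
  have e1 : n + 1 - (c + 2) = n - 1 - c := by omega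
  have e2 : ∏ j ∈ range c, f (c - 1 - j + 1) = ∏ k ∈ range c, f (c - k) := by
    refine Finset.prod_congr rfl fun k hk => ?_
    rw [Finset.mem_range] at hk
    congr 1
    omega
  rw [e1, e2]
  ring

/-- The product in the first ratio. -/
theorem prod_ratio {n c : ℕ} (hc : c < n) :
    ∏ j ∈ (range (n + 1)).erase (c + 1),
      ((2 * (c : ℚ) + 1 + 1 - ((j - 1 + j : ℕ) : ℚ)) / (2 * (c : ℚ) + 1 - ((j - 1 + j : ℕ) : ℚ))) =
      (2 * c + 2) * (be c * be (n - 1 - c)) := by
  rw [prod_erase_split hc]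
  have e1 : ∏ k ∈ range c, ((2 * (c : ℚ) + 1 + 1 - (((c - k) - 1 + (c - k) : ℕ) : ℚ)) /
      (2 * (c : ℚ) + 1 - (((c - k) - 1 + (c - k) : ℕ) : ℚ))) =
      ∏ k ∈ range c, ((2 * (k : ℚ) + 3) / (2 * k + 2)) := by
    refine Finset.prod_congr rfl fun k hk => ?_
    rw [Finset.mem_range] at hk
    obtain ⟨d, rfl⟩ : ∃ d, c = k + d + 1 := ⟨c - k - 1, by omega⟩
    have h1 : (k + d + 1 - k) - 1 + (k + d + 1 - k) = 2 * d + 1 := by omega
    rw [h1]
    push_cast
    congr 1 <;> ring
  have e2 : ∏ k ∈ range (n - 1 - c), ((2 * (c : ℚ) + 1 + 1 -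
      (((c + 2 + k) - 1 + (c + 2 + k) : ℕ) : ℚ)) /
      (2 * (c : ℚ) + 1 - (((c + 2 + k) - 1 + (c + 2 + k) : ℕ) : ℚ))) =
      ∏ k ∈ range (n - 1 - c), ((2 * (k : ℚ) + 1) / (2 * k + 2)) := by
    refine Finset.prod_congr rfl fun k _ => ?_
    have h1 : (c + 2 + k) - 1 + (c + 2 + k) = 2 * c + 2 * k + 3 := by omega
    rw [h1]
    push_cast
    have h2 : (2 * (k : ℚ) + 2) ≠ 0 := by positivity
    have h3 : 2 * (c : ℚ) + 1 - (2 * c + 2 * k + 3) ≠ 0 := by
      have : 2 * (c : ℚ) + 1 - (2 * c + 2 * k + 3) = -(2 * k + 2) := by ring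
      rw [this]
      exact neg_ne_zero.2 h2
    rw [div_eq_div_iff h3 h2]
    ring
  rw [e1, e2, prod_A, prod_B]
  have h1 : (2 * (c : ℚ) + 1) ≠ 0 := by positivity
  simp only [Nat.zero_sub, Nat.add_zero, Nat.cast_zero, sub_zero]
  field_simp
  ring

theorem lam0_inj {n : ℕ} (i : ℕ) (hi : 1 ≤ i) :
    ∀ j, j < n + 1 → j ≠ i → (j - 1) + j ≠ (i - 1) + i := by
  intro j _ hj h
  omega

theorem frob_lam1 {n c : ℕ} (hc : c < n) :
    frob (n + 1) (fun i => (i - 1) + if i = c + 1 then 1 else 0) =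
      frob (n + 1) (fun i => i - 1) * (((n * (n - 1) / 2 : ℕ) : ℚ) + 1) * mm n c := by
  have h1 := frob_update (n + 1) (fun i => i - 1) (i := c + 1) (by omega)
    (lam0_inj (c + 1) (by omega))
  rw [h1, sum_lam0]
  have e1 : (((c + 1 - 1 + (c + 1) : ℕ)) : ℚ) = 2 * (c : ℚ) + 1 := by
    have : c + 1 - 1 + (c + 1) = 2 * c + 1 := by omega
    rw [this]
    push_cast
    ring
  rw [e1, prod_ratio hc]
  unfold mm
  have h2 : (2 * (c : ℚ) + 1 + 1) ≠ 0 := by positivity
  field_simp
  ring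

theorem frob_lam0_pos (n : ℕ) : 0 < frob (n + 1) (fun i => i - 1) := by
  unfold frob
  refine div_pos (mul_pos ?_ ?_) ?_
  · exact_mod_cast Nat.factorial_pos _
  · refine Finset.prod_pos fun i _ => Finset.prod_pos fun j hj => ?_
    rw [Finset.mem_range] at hj
    rw [sub_pos]
    have : j - 1 + j < i - 1 + i := by omega
    exact_mod_cast this
  · refine Finset.prod_pos fun i _ => ?_
    exact_mod_cast Nat.factorial_pos _

theorem R_w0_pos (n : ℕ) : 0 < R (n * (n - 1) / 2) (w0 n) := by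
  have h1 := frob_lam0_pos n
  rw [← R_w0_eq] at h1
  exact_mod_cast h1

theorem R_u1 {n c : ℕ} (hc : c < n) : (R (n * (n - 1) / 2 + 1) (u1 n c) : ℚ) =
    ((n * (n - 1) / 2 : ℕ) + 1) * mm n c * R (n * (n - 1) / 2) (w0 n) := by
  rw [R_u1_eq hc, frob_lam1 hc, R_w0_eq]
  ring

theorem R_u2 {n c' c : ℕ} (hc' : c' < c) (hc : c < n) :
    (R (n * (n - 1) / 2 + 2) (u2 n c' c) : ℚ) =
    ((n * (n - 1) / 2 : ℕ) + 1) * ((n * (n - 1) / 2 : ℕ) + 2) * (mm n c' * mm n c) *
      (4 * ((c : ℚ) - c') ^ 2 / (4 * ((c : ℚ) - c') ^ 2 - 1)) *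
        R (n * (n - 1) / 2) (w0 n) := by
  have hc'n : c' < n := by omega
  rw [R_u2_eq hc' hc]
  have h1 := frob_update (n + 1) (fun i => (i - 1) + if i = c + 1 then 1 else 0)
    (i := c' + 1) (by omega) (by
      intro j _ hj h
      split_ifs at h <;> omega)
  rw [h1, frob_lam1 hc]
  have hsum : ∑ j ∈ range (n + 1), ((j - 1) + if j = c + 1 then 1 else 0) =
      n * (n - 1) / 2 + 1 := by
    rw [Finset.sum_add_distrib, sum_lam0, Finset.sum_ite_eq', if_pos]
    rw [Finset.mem_range]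
    omega
  rw [hsum]
  have e1 : (((c' + 1 - 1 + (if c' + 1 = c + 1 then 1 else 0)) + (c' + 1) : ℕ) : ℚ) =
      2 * (c' : ℚ) + 1 := by
    rw [if_neg (by omega)]
    have : c' + 1 - 1 + 0 + (c' + 1) = 2 * c' + 1 := by omega
    rw [this]
    push_cast
    ring
  rw [e1]
  -- the product
  have hmem : c + 1 ∈ (range (n + 1)).erase (c' + 1) := by
    rw [Finset.mem_erase, Finset.mem_range]
    omega
  have hpr := prod_ratio hc'n
  rw [← Finset.mul_prod_erase _ _ hmem] at hpr ⊢
  have e2 : ∏ x ∈ ((range (n + 1)).erase (c' + 1)).erase (c + 1),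
      ((2 * (c' : ℚ) + 1 + 1 - (((x - 1 + (if x = c + 1 then 1 else 0)) + x : ℕ) : ℚ)) /
        (2 * (c' : ℚ) + 1 - (((x - 1 + (if x = c + 1 then 1 else 0)) + x : ℕ) : ℚ))) =
      ∏ x ∈ ((range (n + 1)).erase (c' + 1)).erase (c + 1),
      ((2 * (c' : ℚ) + 1 + 1 - ((x - 1 + x : ℕ) : ℚ)) /
        (2 * (c' : ℚ) + 1 - ((x - 1 + x : ℕ) : ℚ))) := by
    refine Finset.prod_congr rfl fun x hx => ?_
    rw [if_neg (Finset.ne_of_mem_erase hx), add_zero]
  rw [e2]
  have e3 : (((c + 1 - 1 + (if c + 1 = c + 1 then 1 else 0)) + (c + 1) : ℕ) : ℚ) =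
      2 * (c : ℚ) + 2 := by
    rw [if_pos rfl]
    have : c + 1 - 1 + 1 + (c + 1) = 2 * c + 2 := by omega
    rw [this]
    push_cast
    ring
  have e4 : ((c + 1 - 1 + (c + 1) : ℕ) : ℚ) = 2 * (c : ℚ) + 1 := by
    have : c + 1 - 1 + (c + 1) = 2 * c + 1 := by omega
    rw [this]
    push_cast
    ring
  rw [e3]
  rw [e4] at hpr
  generalize (∏ x ∈ ((range (n + 1)).erase (c' + 1)).erase (c + 1),
      ((2 * (c' : ℚ) + 1 + 1 - ((x - 1 + x : ℕ) : ℚ)) /
        (2 * (c' : ℚ) + 1 - ((x - 1 + x : ℕ) : ℚ)))) = Q at *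
  have hD : ((c : ℚ) - c') ≠ 0 := by
    rw [sub_ne_zero]
    intro h
    have : c = c' := by exact_mod_cast h
    omega
  have hD1 : 1 ≤ (c : ℚ) - c' := by
    have : (c' : ℚ) + 1 ≤ c := by exact_mod_cast hc'
    linarith
  obtain ⟨D, hDD⟩ : ∃ D : ℚ, (c : ℚ) = c' + D := ⟨(c : ℚ) - c', by ring⟩
  rw [hDD] at hpr hD hD1 ⊢
  have hD0 : D ≠ 0 := by
    intro h
    apply hD
    rw [h]
    ring
  have hD2 : 1 ≤ D := by linarith
  have h3 : (2 * (c' : ℚ) + 1 + 1) ≠ 0 := by positivity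
  have h4 : (2 * D + 1) ≠ 0 := by positivity
  have h5 : (2 * D - 1) ≠ 0 := by
    have : 0 < 2 * D - 1 := by linarith
    exact this.ne'
  have hQ : (2 * D - 1) * Q = 2 * D * ((2 * (c' : ℚ) + 2) * (be c' * be (n - 1 - c'))) := by
    rw [← hpr]
    have h6 : 2 * (c' : ℚ) + 1 - (2 * (c' + D) + 1) = -(2 * D) := by ring
    have h7 : 2 * (c' : ℚ) + 1 + 1 - (2 * (c' + D) + 1) = -(2 * D - 1) := by ring
    rw [h6, h7, neg_div_neg_eq]
    field_simp
  have h8 : (2 * (c' : ℚ) + 1 + 1 - (2 * (c' + D) + 2)) /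
      (2 * (c' : ℚ) + 1 - (2 * (c' + D) + 2)) = 2 * D / (2 * D + 1) := by
    have h6 : 2 * (c' : ℚ) + 1 - (2 * (c' + D) + 2) = -(2 * D + 1) := by ring
    have h7 : 2 * (c' : ℚ) + 1 + 1 - (2 * (c' + D) + 2) = -(2 * D) := by ring
    rw [h6, h7, neg_div_neg_eq]
  have h9 : 4 * ((c' : ℚ) + D - c') ^ 2 - 1 = (2 * D + 1) * (2 * D - 1) := by ring
  have h10 : 4 * ((c' : ℚ) + D - c') ^ 2 = 2 * D * (2 * D) := by ring
  rw [h8, h9, h10, R_w0_eq]
  have hQ' : Q = 2 * D * ((2 * (c' : ℚ) + 2) * (be c' * be (n - 1 - c'))) / (2 * D - 1) := by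
    rw [eq_div_iff h5, ← hQ]
    ring
  rw [hQ']
  unfold mm
  push_cast
  field_simp
  ring

theorem R_ud {n : ℕ} (hn : 1 ≤ n) : (R (n * (n - 1) / 2 + 2) (ud n) : ℚ) =
    ((n * (n - 1) / 2 : ℕ) + 1) * ((n * (n - 1) / 2 : ℕ) + 2) / (2 * (2 * n - 1)) *
      R (n * (n - 1) / 2) (w0 n) := by
  rw [R_ud_eq hn]
  have h1 := frob_update (n + 1) (fun i => (i - 1) + if i = 1 then 1 else 0)
    (i := 0) (by omega) (by
      intro j _ hj h
      split_ifs at h <;> omega)
  have h2 := frob_lam1 (c := 0) (n := n) (by omega)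
  rw [zero_add] at h2
  rw [h1, h2]
  have hsum : ∑ j ∈ range (n + 1), ((j - 1) + if j = 1 then 1 else 0) =
      n * (n - 1) / 2 + 1 := by
    rw [Finset.sum_add_distrib, sum_lam0, Finset.sum_ite_eq', if_pos]
    rw [Finset.mem_range]
    omega
  rw [hsum]
  obtain ⟨m, rfl⟩ : ∃ m, n = m + 1 := ⟨n - 1, by omega⟩
  have e0 : (((0 - 1 + (if (0 : ℕ) = 1 then 1 else 0)) + 0 : ℕ) : ℚ) = 0 := by
    norm_num
  rw [e0]
  have e1 : (range (m + 1 + 1)).erase 0 = insert 1 (Finset.Ico 2 (m + 2)) := by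
    ext j
    rw [Finset.mem_erase, Finset.mem_insert, Finset.mem_range, Finset.mem_Ico]
    omega
  rw [e1, Finset.prod_insert (by rw [Finset.mem_Ico]; omega), Finset.prod_Ico_eq_prod_range]
  have e2 : ∏ k ∈ range (m + 2 - 2), ((0 : ℚ) + 1 -
      (((2 + k - 1 + (if 2 + k = 1 then 1 else 0)) + (2 + k) : ℕ) : ℚ)) /
      (0 - (((2 + k - 1 + (if 2 + k = 1 then 1 else 0)) + (2 + k) : ℕ) : ℚ)) =
      (∏ k ∈ range m, ((2 * (k : ℚ) + 3) / (2 * k + 2)))⁻¹ := by
    rw [Nat.add_sub_cancel, ← Finset.prod_inv_distrib]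
    refine Finset.prod_congr rfl fun k _ => ?_
    rw [if_neg (by omega)]
    have h3 : 2 + k - 1 + 0 + (2 + k) = 2 * k + 3 := by omega
    rw [h3, inv_div]
    push_cast
    have h4 : (2 * (k : ℚ) + 3) ≠ 0 := by positivity
    rw [div_eq_div_iff (by rw [zero_sub]; exact neg_ne_zero.2 h4) h4]
    ring
  rw [e2, prod_A]
  have e3 : (((1 - 1 + (if (1 : ℕ) = 1 then 1 else 0)) + 1 : ℕ) : ℚ) = 2 := by norm_num
  rw [e3, R_w0_eq]
  unfold mm
  have hb := (be_pos m).ne'
  have h5 : (2 * (m : ℚ) + 1) ≠ 0 := by positivity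
  have h6 : (2 * (((m + 1 : ℕ) : ℚ)) - 1) = 2 * m + 1 := by
    push_cast
    ring
  rw [be_zero0, h6, Nat.add_sub_cancel, Nat.sub_zero]
  push_cast
  field_simp
  ring

/-! ### The transition formulas -/

theorem z1_eq {n : ℕ} {c : ℤ} (h0 : 0 ≤ c) (hc : c < n) :
    z1 n c = u1 n c * swap (-2) ((n : ℤ) - 1 - c) := by
  rw [Equiv.mul_swap_eq_swap_mul]
  have e1 : u1 n c (-2) = -2 := by
    rw [u1_apply h0 hc, w0_apply]
    split_ifs <;> omega
  have e2 : u1 n c ((n : ℤ) - 1 - c) = -1 := by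
    rw [u1_apply h0 hc, if_neg (by omega), if_pos rfl]
  rw [e1, e2]
  rfl

theorem cov_left_u1 {n : ℕ} {c : ℤ} (h0 : 0 ≤ c) (hc : c < n) (i : ℤ) :
    Cov (u1 n c) i ((n : ℤ) - 1 - c) ↔ i = -2 := by
  have e2 : u1 n c ((n : ℤ) - 1 - c) = -1 := by
    rw [u1_apply h0 hc, if_neg (by omega), if_pos rfl]
  have e3 : ∀ x, x < -1 → u1 n c x = x := by
    intro x hx
    rw [u1_apply h0 hc, w0_apply]
    split_ifs <;> omega
  have e4 : ∀ x, -1 ≤ x → -1 ≤ u1 n c x := by
    intro x hx
    rw [u1_apply h0 hc, w0_apply]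
    split_ifs <;> omega
  unfold Cov
  rw [e2]
  constructor
  · rintro ⟨h1, h2, h3⟩
    have h4 : i < -1 := by
      by_contra hcon
      have := e4 i (by omega)
      omega
    by_contra hne
    have h5 := h3 (-2) (by omega) (by omega)
    rw [e3 i h4, e3 (-2) (by omega)] at h5
    omega
  · rintro rfl
    refine ⟨by omega, by rw [e3 (-2) (by omega)]; omega, fun m hm1 hm2 => ?_⟩
    have := e4 m (by omega)
    omega

/-- The transition formula for `z1 n 0`. -/
theorem R_z1_zero {n : ℕ} (hn : 1 ≤ n) (k : ℕ) : R k (z1 n 0) = R k (ud n) := by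
  have hc : (0 : ℤ) < n := by omega
  have h1 := transition_unique (u1_fs n 0) (q := (n : ℤ) - 1 - 0) (i0 := -2) (j0 := n) ?_
    (cov_left_u1 le_rfl hc) k
  · rw [z1_eq le_rfl hc, ← h1, sub_zero]
    rfl
  · intro j
    have e2 : u1 n 0 ((n : ℤ) - 1 - 0) = -1 := by
      rw [u1_apply le_rfl hc, if_neg (by omega), if_pos rfl]
    have e3 : ∀ x, (n : ℤ) ≤ x → u1 n 0 x = x := by
      intro x hx
      rw [u1_apply le_rfl hc, w0_apply]
      split_ifs <;> omega
    unfold Cov
    rw [e2]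
    constructor
    · rintro ⟨h1, h2, h3⟩
      by_contra hne
      have h4 := h3 n (by omega) (by omega)
      rw [e3 n le_rfl, e3 j (by omega)] at h4
      omega
    · rintro rfl
      refine ⟨by omega, by rw [e3 n le_rfl]; omega, fun m hm1 hm2 => ?_⟩
      omega

/-- The transition formula for `z1 n c`, `1 ≤ c`. -/
theorem R_z1 {n c : ℕ} (h1 : 1 ≤ c) (hc : c < n) (k : ℕ) :
    R k (z1 n c) = ∑ c' ∈ range c, R k (u2 n c' c) := by
  have h0 : (0 : ℤ) ≤ (c : ℤ) := by omega
  have hcn : (c : ℤ) < n := by omega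
  have htr := transition (u1_fs n c) ((n : ℤ) - 1 - c) k
  have el : lc (u1 n c) ((n : ℤ) - 1 - c) = {-2} := by
    ext i
    rw [mem_lc (u1_fs n c), cov_left_u1 h0 hcn, Finset.mem_singleton]
  have e2 : u1 n c ((n : ℤ) - 1 - c) = -1 := by
    rw [u1_apply h0 hcn, if_neg (by omega), if_pos rfl]
  have e3 : ∀ x, (n : ℤ) ≤ x → u1 n c x = x := by
    intro x hx
    rw [u1_apply h0 hcn, w0_apply]
    split_ifs <;> omega
  have e4 : ∀ x, (n : ℤ) - 1 - c < x → x < n → u1 n c x = n - 1 - x := by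
    intro x hx hx'
    rw [u1_apply h0 hcn, w0_apply]
    split_ifs <;> omega
  have er : rc (u1 n c) ((n : ℤ) - 1 - c) =
      (range c).image (fun c' : ℕ => (n : ℤ) - 1 - c') := by
    ext j
    rw [mem_rc (u1_fs n c), Finset.mem_image]
    unfold Cov
    rw [e2]
    constructor
    · rintro ⟨g1, g2, g3⟩
      have g4 : j < n := by
        by_contra hcon
        have g5 := g3 (n - 1) (by omega) (by omega)
        rw [e4 ((n : ℤ) - 1) (by omega) (by omega), e3 j (by omega)] at g5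
        omega
      exact ⟨(n - 1 - j).toNat, Finset.mem_range.2 (by omega), by omega⟩
    · rintro ⟨c', hc', rfl⟩
      rw [Finset.mem_range] at hc'
      refine ⟨by omega, by rw [e4 _ (by omega) (by omega)]; omega, fun m hm1 hm2 => ?_⟩
      rw [e4 m (by omega) (by omega), e4 _ (by omega) (by omega)]
      omega
  rw [el, er, Finset.sum_singleton, Finset.sum_image] at htr
  · rw [z1_eq h0 hcn, ← htr]
    rfl
  · intro a _ b _ hab
    dsimp only at hab
    omega

end Pool.Agent.SortNet
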