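import Pool.Agent.Work.MP_aee03d_pr.Vex

/-!
# The number of reduced words of Grassmannian and nested permutations (module FROB)
-/

namespace Pool.Agent.SortNet

open Equiv Finset

/-- The formula of Frobenius for the rows `lam 0 ≤ ... ≤ lam (M - 1)`. -/
noncomputable def frob (M : ℕ) (lam : ℕ → ℕ) : ℚ :=
  ((∑ i ∈ range M, lam i).factorial : ℚ) *
    (∏ i ∈ range M, ∏ j ∈ range i, (((lam i + i : ℕ) : ℚ) - ((lam j + j : ℕ) : ℚ))) /
      ∏ i ∈ range M, ((lam i + i).factorial : ℚ)

/-! ### The identity of Lagrange -/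

theorem lagrange_aux (S : Finset ℕ) :
    (∀ x : ℚ, (∀ a ∈ S, x ≠ (a : ℚ)) → ∏ a ∈ S, (1 - 1 / (x - a)) =
      1 - ∑ g ∈ S, (∏ a ∈ S.erase g, (1 - 1 / ((g : ℚ) - a))) / (x - g)) ∧
    (∑ g ∈ S, ∏ a ∈ S.erase g, (1 - 1 / ((g : ℚ) - a)) = S.card) ∧
    (∑ g ∈ S, (g : ℚ) * ∏ a ∈ S.erase g, (1 - 1 / ((g : ℚ) - a)) =
      ∑ g ∈ S, (g : ℚ) - (S.card : ℚ) * ((S.card : ℚ) - 1) / 2) := by
  induction S using Finset.induction_on with
  | empty => simp
  | insert b S hb ih =>
    obtain ⟨h1, h2, h3⟩ := ih
    have hbS : ∀ a ∈ S, (b : ℚ) ≠ (a : ℚ) := by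
      intro a ha h
      have h' : b = a := by exact_mod_cast h
      exact hb (h' ▸ ha)
    have hE : ∀ g ∈ S, ∏ a ∈ (insert b S).erase g, (1 - 1 / ((g : ℚ) - a)) =
        (1 - 1 / ((g : ℚ) - b)) * ∏ a ∈ S.erase g, (1 - 1 / ((g : ℚ) - a)) := by
      intro g hg
      have hgb : g ≠ b := fun h => hb (h ▸ hg)
      rw [Finset.erase_insert_of_ne (Ne.symm hgb), Finset.prod_insert]
      exact fun h => hb (Finset.mem_of_mem_erase h)
    have hEb : (insert b S).erase b = S := Finset.erase_insert hb
    have hFb := h1 b hbS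
    have hsum : ∑ g ∈ S, (∏ a ∈ S.erase g, (1 - 1 / ((g : ℚ) - a))) / ((b : ℚ) - g) =
        1 - ∏ a ∈ S, (1 - 1 / ((b : ℚ) - a)) := by
      rw [hFb]
      ring
    refine ⟨?_, ?_, ?_⟩
    · intro x hx
      have hxb : x - b ≠ 0 := sub_ne_zero.2 (hx b (Finset.mem_insert_self b S))
      have hxS : ∀ a ∈ S, x ≠ (a : ℚ) := fun a ha => hx a (Finset.mem_insert_of_mem ha)
      rw [Finset.prod_insert hb, Finset.sum_insert hb, hEb, h1 x hxS]
      have e1 : ∑ g ∈ S, (∏ a ∈ (insert b S).erase g, (1 - 1 / ((g : ℚ) - a))) / (x - g) =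
          ∑ g ∈ S, ((∏ a ∈ S.erase g, (1 - 1 / ((g : ℚ) - a))) / (x - g) -
            1 / (x - b) * ((∏ a ∈ S.erase g, (1 - 1 / ((g : ℚ) - a))) / (x - g)) -
            1 / (x - b) * ((∏ a ∈ S.erase g, (1 - 1 / ((g : ℚ) - a))) / ((b : ℚ) - g))
            * (-1)) := by
        refine Finset.sum_congr rfl fun g hg => ?_
        rw [hE g hg]
        have hxg : x - g ≠ 0 := sub_ne_zero.2 (hxS g hg)
        have hbg : (b : ℚ) - g ≠ 0 := sub_ne_zero.2 (hbS g hg)
        have hgb : (g : ℚ) - b ≠ 0 := fun h => hbg (by linarith)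
        generalize (∏ a ∈ S.erase g, (1 - 1 / ((g : ℚ) - a))) = c
        field_simp
        ring
      rw [e1, Finset.sum_sub_distrib, Finset.sum_sub_distrib, ← Finset.sum_mul,
        ← Finset.mul_sum, ← Finset.mul_sum, hsum]
      ring
    · rw [Finset.sum_insert hb, hEb, Finset.card_insert_of_notMem hb]
      have e1 : ∑ g ∈ S, ∏ a ∈ (insert b S).erase g, (1 - 1 / ((g : ℚ) - a)) =
          ∑ g ∈ S, ((∏ a ∈ S.erase g, (1 - 1 / ((g : ℚ) - a))) +
            (∏ a ∈ S.erase g, (1 - 1 / ((g : ℚ) - a))) / ((b : ℚ) - g)) := by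
        refine Finset.sum_congr rfl fun g hg => ?_
        rw [hE g hg]
        have hbg : (b : ℚ) - g ≠ 0 := sub_ne_zero.2 (hbS g hg)
        have hgb : (g : ℚ) - b ≠ 0 := fun h => hbg (by linarith)
        generalize (∏ a ∈ S.erase g, (1 - 1 / ((g : ℚ) - a))) = c
        field_simp
        ring
      rw [e1, Finset.sum_add_distrib, hsum, h2]
      push_cast
      ring
    · rw [Finset.sum_insert hb, Finset.sum_insert hb, hEb, Finset.card_insert_of_notMem hb]
      have e1 : ∑ g ∈ S, (g : ℚ) * ∏ a ∈ (insert b S).erase g, (1 - 1 / ((g : ℚ) - a)) =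
          ∑ g ∈ S, ((g : ℚ) * (∏ a ∈ S.erase g, (1 - 1 / ((g : ℚ) - a))) -
            (∏ a ∈ S.erase g, (1 - 1 / ((g : ℚ) - a))) +
            (b : ℚ) * ((∏ a ∈ S.erase g, (1 - 1 / ((g : ℚ) - a))) / ((b : ℚ) - g))) := by
        refine Finset.sum_congr rfl fun g hg => ?_
        rw [hE g hg]
        have hbg : (b : ℚ) - g ≠ 0 := sub_ne_zero.2 (hbS g hg)
        have hgb : (g : ℚ) - b ≠ 0 := fun h => hbg (by linarith)
        generalize (∏ a ∈ S.erase g, (1 - 1 / ((g : ℚ) - a))) = c
        field_simp
        ring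
      rw [e1, Finset.sum_add_distrib, Finset.sum_sub_distrib, ← Finset.mul_sum, hsum, h2, h3]
      push_cast
      ring

/-- The identity behind the formula of Frobenius: `l` a finite set of natural numbers. -/
theorem lagrange_identity (S : Finset ℕ) :
    ∑ g ∈ S, (g : ℚ) * ∏ a ∈ S.erase g, (((g : ℚ) - 1 - a) / ((g : ℚ) - a)) =
      ∑ g ∈ S, (g : ℚ) - (S.card : ℚ) * ((S.card : ℚ) - 1) / 2 := by
  rw [← (lagrange_aux S).2.2]
  refine Finset.sum_congr rfl fun g _ => ?_
  congr 1
  refine Finset.prod_congr rfl fun a ha => ?_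
  have h1 : (g : ℚ) - a ≠ 0 := by
    rw [sub_ne_zero]
    intro h
    have h' : g = a := by exact_mod_cast h
    exact (Finset.ne_of_mem_erase ha) h'.symm
  field_simp
  ring

/-! ### Vandermonde products -/

/-- The product of the differences. -/
noncomputable def vdm (M : ℕ) (l : ℕ → ℚ) : ℚ := ∏ i ∈ range M, ∏ j ∈ range i, (l i - l j)

theorem vdm_succ (M : ℕ) (l : ℕ → ℚ) :
    vdm (M + 1) l = vdm M l * ∏ j ∈ range M, (l M - l j) := Finset.prod_range_succ _ _

theorem vdm_congr (M : ℕ) {l l' : ℕ → ℚ} (h : ∀ i, i < M → l i = l' i) :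
    vdm M l = vdm M l' := by
  refine Finset.prod_congr rfl fun i hi => Finset.prod_congr rfl fun j hj => ?_
  rw [Finset.mem_range] at hi hj
  rw [h i hi, h j (hj.trans hi)]

theorem vdm_update (M : ℕ) (l : ℕ → ℚ) {i : ℕ} (hi : i < M) (x : ℚ) :
    vdm M (Function.update l i x) * ∏ j ∈ (range M).erase i, (l i - l j) =
      vdm M l * ∏ j ∈ (range M).erase i, (x - l j) := by
  induction M with
  | zero => omega
  | succ M ih =>
    rw [vdm_succ, vdm_succ]
    rcases (show i < M ∨ i = M by omega) with h | h
    · have ih' := ih h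
      have hMi : M ≠ i := by omega
      have hr : (range (M + 1)).erase i = insert M ((range M).erase i) := by
        rw [Finset.range_add_one, Finset.erase_insert_of_ne hMi]
      have hnot : M ∉ (range M).erase i := fun h' => by
        have := Finset.mem_range.1 (Finset.mem_of_mem_erase h')
        omega
      have hsplit : ∀ f : ℕ → ℚ, ∏ j ∈ range M, f j = f i * ∏ j ∈ (range M).erase i, f j :=
        fun f => (Finset.mul_prod_erase _ _ (Finset.mem_range.2 h)).symm
      rw [hr, Finset.prod_insert hnot, Finset.prod_insert hnot, hsplit (fun j => _ - _),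
        hsplit (fun j => l M - l j), Function.update_self, Function.update_of_ne hMi]
      have e1 : ∏ j ∈ (range M).erase i, (l M - Function.update l i x j) =
          ∏ j ∈ (range M).erase i, (l M - l j) :=
        Finset.prod_congr rfl fun j hj => by
          rw [Function.update_of_ne (Finset.ne_of_mem_erase hj)]
      rw [e1]
      generalize (∏ j ∈ (range M).erase i, (l M - l j)) = c1 at *
      generalize (∏ j ∈ (range M).erase i, (l i - l j)) = c2 at *
      generalize (∏ j ∈ (range M).erase i, (x - l j)) = c3 at *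
      linear_combination (l M - x) * c1 * (l i - l M) * ih'
    · subst h
      have hr : (range (i + 1)).erase i = range i := by
        rw [Finset.range_add_one, Finset.erase_insert]
        exact Finset.notMem_range_self
      have e1 : vdm i (Function.update l i x) = vdm i l :=
        vdm_congr i fun j hj => Function.update_of_ne (by omega) _ _
      have e2 : ∏ j ∈ range i, (Function.update l i x i - Function.update l i x j) =
          ∏ j ∈ range i, (x - l j) :=
        Finset.prod_congr rfl fun j hj => by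
          have := Finset.mem_range.1 hj
          rw [Function.update_self, Function.update_of_ne (by omega)]
      rw [hr, e1, e2]
      ring

theorem vdm_id (M : ℕ) : vdm M (fun i => (i : ℚ)) = ∏ i ∈ range M, (i.factorial : ℚ) := by
  have key : ∀ i : ℕ, ∏ j ∈ range i, ((i : ℚ) - (j : ℚ)) = (i.factorial : ℚ) := by
    intro i
    induction i with
    | zero => simp
    | succ i ih =>
      rw [Finset.prod_range_succ', Nat.factorial_succ]
      have e1 : ∏ k ∈ range i, (((i + 1 : ℕ) : ℚ) - ((k + 1 : ℕ) : ℚ)) =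
          ∏ k ∈ range i, ((i : ℚ) - (k : ℚ)) := by
        refine Finset.prod_congr rfl fun k _ => ?_
        push_cast
        ring
      rw [e1, ih]
      push_cast
      ring
  exact Finset.prod_congr rfl fun i _ => key i

/-- The formula of Frobenius in terms of the increasing numbers `l`. -/
noncomputable def fro (M n : ℕ) (l : ℕ → ℕ) : ℚ :=
  (n.factorial : ℚ) * vdm M (fun i => (l i : ℚ)) / ∏ i ∈ range M, ((l i).factorial : ℚ)

open Classical in
theorem fro_rec (M n : ℕ) (l : ℕ → ℕ) (hinj : ∀ i j, i < M → j < M → l i = l j → i = j)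
    (hn : (∑ i ∈ range M, l i : ℚ) = n + 1 + (M : ℚ) * ((M : ℚ) - 1) / 2) :
    fro M (n + 1) l = ∑ i ∈ (range M).filter (fun i => 1 ≤ l i ∧ ∀ j, j < M → l j ≠ l i - 1),
      fro M n (Function.update l i (l i - 1)) := by
  have hP : ∀ i, ((l i).factorial : ℚ) ≠ 0 := fun i => by
    have := Nat.factorial_ne_zero (l i)
    exact_mod_cast this
  have hPP : (∏ i ∈ range M, ((l i).factorial : ℚ)) ≠ 0 := Finset.prod_ne_zero_iff.2
    fun i _ => hP i
  have hD : ∀ i, i < M → ∏ j ∈ (range M).erase i, ((l i : ℚ) - l j) ≠ 0 := by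
    intro i hi
    rw [Finset.prod_ne_zero_iff]
    intro j hj h
    have h1 : l i = l j := by exact_mod_cast (sub_eq_zero.1 h)
    have h2 := hinj i j hi (Finset.mem_range.1 (Finset.mem_of_mem_erase hj)) h1
    exact (Finset.ne_of_mem_erase hj) h2.symm
  -- one term
  have hterm : ∀ i ∈ range M, 1 ≤ l i → fro M n (Function.update l i (l i - 1)) =
      (n.factorial : ℚ) * vdm M (fun i => (l i : ℚ)) / (∏ i ∈ range M, ((l i).factorial : ℚ)) *
        ((l i : ℚ) * ∏ j ∈ (range M).erase i, (((l i : ℚ) - 1 - l j) / ((l i : ℚ) - l j))) := by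
    intro i hi h1
    have hi' := Finset.mem_range.1 hi
    have hc : ((l i - 1 : ℕ) : ℚ) = (l i : ℚ) - 1 := by
      rw [Nat.cast_sub h1, Nat.cast_one]
    have hup : (fun k => ((Function.update l i (l i - 1) k : ℕ) : ℚ)) =
        Function.update (fun k => (l k : ℚ)) i ((l i : ℚ) - 1) := by
      funext k
      by_cases hk : k = i
      · subst hk
        rw [Function.update_self, Function.update_self, hc]
      · rw [Function.update_of_ne hk, Function.update_of_ne hk]
    have hv := vdm_update M (fun k => (l k : ℚ)) hi' ((l i : ℚ) - 1)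
    have hf : (l i : ℚ) * ∏ k ∈ range M, ((Function.update l i (l i - 1) k).factorial : ℚ) =
        ∏ k ∈ range M, ((l k).factorial : ℚ) := by
      rw [← Finset.mul_prod_erase _ _ hi, ← Finset.mul_prod_erase (range M)
        (fun k => ((l k).factorial : ℚ)) hi, Function.update_self]
      have e1 : ∏ x ∈ (range M).erase i, ((Function.update l i (l i - 1) x).factorial : ℚ) =
          ∏ x ∈ (range M).erase i, ((l x).factorial : ℚ) :=
        Finset.prod_congr rfl fun j hj => by
          rw [Function.update_of_ne (Finset.ne_of_mem_erase hj)]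
      rw [e1]
      obtain ⟨t, ht⟩ : ∃ t, l i = t + 1 := ⟨l i - 1, by omega⟩
      rw [ht, Nat.add_sub_cancel, Nat.factorial_succ]
      push_cast
      ring
    unfold fro
    rw [hup]
    have hl : (l i : ℚ) ≠ 0 := by
      have : l i ≠ 0 := by omega
      exact_mod_cast this
    have hF : (∏ k ∈ range M, ((Function.update l i (l i - 1) k).factorial : ℚ)) ≠ 0 := by
      intro h0
      rw [h0, mul_zero] at hf
      exact hPP hf.symm
    rw [Finset.prod_div_distrib, ← hf]
    have hDi := hD i hi'
    field_simp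
    linear_combination hv
  have hzero : ∀ i ∈ range M, ¬ (1 ≤ l i ∧ ∀ j, j < M → l j ≠ l i - 1) →
      (l i : ℚ) * ∏ j ∈ (range M).erase i, (((l i : ℚ) - 1 - l j) / ((l i : ℚ) - l j)) = 0 := by
    intro i hi h1
    by_cases h2 : 1 ≤ l i
    · have h3 : ¬ ∀ j, j < M → l j ≠ l i - 1 := fun h3 => h1 ⟨h2, h3⟩
      push Not at h3
      obtain ⟨j, hj, hlj⟩ := h3
      have hji : j ≠ i := by
        rintro rfl
        omega
      rw [Finset.prod_eq_zero (Finset.mem_erase.2 ⟨hji, Finset.mem_range.2 hj⟩), mul_zero]
      have : (l j : ℚ) = (l i : ℚ) - 1 := by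
        rw [hlj, Nat.cast_sub h2, Nat.cast_one]
      rw [this, sub_self, zero_div]
    · have : l i = 0 := by omega
      rw [this, Nat.cast_zero, zero_mul]
  rw [Finset.sum_congr rfl fun i hi => hterm i (Finset.mem_filter.1 hi).1
    (Finset.mem_filter.1 hi).2.1, ← Finset.mul_sum, Finset.sum_filter_of_ne]
  · -- Lagrange
    have hinj' : Set.InjOn l (range M : Finset ℕ) := by
      intro i hi j hj h
      exact hinj i j (Finset.mem_range.1 hi) (Finset.mem_range.1 hj) h
    have hL := lagrange_identity ((range M).image l)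
    rw [Finset.sum_image hinj', Finset.sum_image hinj', Finset.card_image_of_injOn hinj',
      Finset.card_range] at hL
    have e2 : ∑ x ∈ range M, ((l x : ℕ) : ℚ) *
        ∏ a ∈ ((range M).image l).erase (l x), (((l x : ℕ) : ℚ) - 1 - a) / (((l x : ℕ) : ℚ) - a) =
        ∑ i ∈ range M, (l i : ℚ) *
          ∏ j ∈ (range M).erase i, (((l i : ℚ) - 1 - l j) / ((l i : ℚ) - l j)) := by
      refine Finset.sum_congr rfl fun i hi => ?_
      congr 1
      have e3 : ((range M).image l).erase (l i) = ((range M).erase i).image l := by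
        ext a
        rw [Finset.mem_erase, Finset.mem_image, Finset.mem_image]
        constructor
        · rintro ⟨h1, j, hj, rfl⟩
          exact ⟨j, Finset.mem_erase.2 ⟨fun h => h1 (by rw [h]), hj⟩, rfl⟩
        · rintro ⟨j, hj, rfl⟩
          refine ⟨fun h => (Finset.ne_of_mem_erase hj) ?_, j, Finset.mem_of_mem_erase hj, rfl⟩
          exact hinj j i (Finset.mem_range.1 (Finset.mem_of_mem_erase hj))
            (Finset.mem_range.1 hi) h
      rw [e3, Finset.prod_image]
      intro j hj k hk h
      exact hinj j k (Finset.mem_range.1 (Finset.mem_of_mem_erase hj))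
        (Finset.mem_range.1 (Finset.mem_of_mem_erase hk)) h
    rw [← e2, hL, hn]
    unfold fro
    rw [Nat.factorial_succ]
    push_cast
    ring
  · intro i hi h
    by_contra h1
    exact h (hzero i hi h1)

/-! ### Grassmannian permutations -/

theorem eq_one_of_mono {w : Perm ℤ} (h : FS w) (hm : ∀ x, w x < w (x + 1)) : w = 1 := by
  obtain ⟨K, hK0, hK⟩ := h.exists_bound
  have h1 : ∀ x y, x ≤ y → w x - x ≤ w y - y := by
    intro x y hxy
    induction y, hxy using Int.leInduction with
    | base => exact le_rfl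
    | succ y hy ih =>
      have := hm y
      omega
  ext x
  show w x = x
  have h2 := h1 x (max x (K + 1)) (le_max_left _ _)
  have h3 := h1 (min x (-K - 1)) x (min_le_left _ _)
  have h4 := hK (max x (K + 1)) (Or.inr (by omega))
  have h5 := hK (min x (-K - 1)) (Or.inl (by omega))
  omega

theorem gr_fixed_left {g : Perm ℤ} {x0 : ℤ} (hx0 : ∀ x, x < x0 → g x = x)
    {x : ℤ} (hx : x0 ≤ x) : x0 ≤ g x := by
  by_contra hcon
  push Not at hcon
  have h1 := hx0 (g x) hcon
  have h2 := g.injective h1
  omega

/-- The row lengths of a Grassmannian permutation. -/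
theorem gr_code {g : Perm ℤ} (h : FS g) {q : ℤ} (hg : Gr q g) {x : ℤ} (hx : x ≤ q) :
    (code g x : ℤ) = g x - x := by
  obtain ⟨K, hK0, hK⟩ := h.exists_bound
  obtain ⟨x0, g1, g2⟩ : ∃ x0 : ℤ, x0 < -K ∧ x0 < x := ⟨min (-K) x - 1, by omega, by omega⟩
  have hfix : ∀ y, y < x0 → g y = y := fun y hy => hK y (Or.inl (by omega))
  have hset : (Set.Ico x0 (g x)) = row g x ∪ g '' Set.Ico x0 x := by
    ext y
    obtain ⟨p, rfl⟩ : ∃ p, y = g p := ⟨g⁻¹ y, (apply_inv g y).symm⟩
    rw [Set.mem_union, mem_row, Set.mem_Ico]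
    constructor
    · rintro ⟨h1, h2⟩
      rcases lt_trichotomy p x with h3 | h3 | h3
      · right
        refine ⟨p, ⟨?_, h3⟩, rfl⟩
        by_contra hcon
        rw [hfix p (by omega)] at h1
        omega
      · rw [h3] at h2
        omega
      · exact Or.inl ⟨h2, h3⟩
    · rintro (⟨h1, h2⟩ | ⟨p', ⟨h1, h2⟩, h3⟩)
      · exact ⟨gr_fixed_left hfix (by omega), h1⟩
      · rw [← h3]
        exact ⟨gr_fixed_left hfix h1, hg.1 p' x h2 hx⟩
  have hdisj : Disjoint (row g x) (g '' Set.Ico x0 x) := by
    rw [Set.disjoint_left]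
    rintro y hy ⟨p, ⟨h1, h2⟩, rfl⟩
    have := (mem_row.1 hy).2
    omega
  have hcard := congrArg Set.ncard hset
  rw [Set.ncard_union_eq hdisj (row_finite h x) ((Set.finite_Ico _ _).image _),
    Set.ncard_image_of_injective _ g.injective] at hcard
  have e1 : ∀ a b : ℤ, (Set.Ico a b).ncard = (b - a).toNat := by
    intro a b
    rw [← Finset.coe_Ico, Set.ncard_coe_finset, Int.card_Ico]
  rw [e1, e1] at hcard
  have h3 := gr_fixed_left hfix g2.le
  unfold code
  omega

theorem sw_mul_gr {g : Perm ℤ} {q : ℤ} (hg : Gr q g) {v : ℤ} (h1 : q < g⁻¹ v)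
    (h2 : g⁻¹ (v + 1) ≤ q) : Gr q (sw v * g) := by
  have key : ∀ x y, g x < g y → ¬ (g x = v ∧ g y = v + 1) → (sw v * g) x < (sw v * g) y := by
    intro x y hxy hn
    show swap v (v + 1) (g x) < swap v (v + 1) (g y)
    rw [swap_apply_def, swap_apply_def]
    split_ifs <;> omega
  constructor
  · intro x y hxy hy
    refine key x y (hg.1 x y hxy hy) ?_
    rintro ⟨h3, -⟩
    rw [← h3, inv_apply] at h1
    omega
  · intro x y hx hxy
    refine key x y (hg.2 x y hx hxy) ?_
    rintro ⟨-, h3⟩
    rw [← h3, inv_apply] at h2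
    omega

theorem R_gr_aux (n : ℕ) : ∀ {g : Perm ℤ}, FS g → ∀ {q : ℤ}, Gr q g → ∀ (M : ℕ) (l : ℕ → ℕ),
    (∀ x, x ≤ q - M → g x = x) → (∀ i, i < M → g (q - M + 1 + i) = q - M + 1 + l i) →
    (∑ i ∈ range M, l i : ℚ) = n + (M : ℚ) * ((M : ℚ) - 1) / 2 →
    (R n g : ℚ) = fro M n l := by
  classical
  induction n with
  | zero =>
    intro g h q hg M l hM hl hn
    -- all rows are empty
    have hcode : ∀ i, i < M → i ≤ l i := by
      intro i hi
      have h1 := gr_code h hg (x := q - M + 1 + i) (by omega)
      rw [hl i hi] at h1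
      omega
    have hsum : ∑ i ∈ range M, ((l i : ℚ) - i) = 0 := by
      rw [Finset.sum_sub_distrib, hn]
      have e1 : (∑ i ∈ range M, (i : ℚ)) = (M : ℚ) * ((M : ℚ) - 1) / 2 := by
        clear hn hcode hl hM
        induction M with
        | zero => simp
        | succ M ih =>
          rw [Finset.sum_range_succ, ih]
          push_cast
          ring
      rw [e1]
      push_cast
      ring
    have hli : ∀ i, i < M → l i = i := by
      intro i hi
      have h1 := (Finset.sum_eq_zero_iff_of_nonneg (fun i hi' => by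
        have := hcode i (Finset.mem_range.1 hi')
        have h2 : (i : ℚ) ≤ l i := by exact_mod_cast this
        linarith)).1 hsum i (Finset.mem_range.2 hi)
      have h2 : (l i : ℚ) = i := by linarith
      exact_mod_cast h2
    have hfix : ∀ x, x ≤ q → g x = x := by
      intro x hx
      rcases (show x ≤ q - M ∨ q - M < x by omega) with h1 | h1
      · exact hM x h1
      · obtain ⟨i, hi⟩ : ∃ i : ℕ, x = q - M + 1 + i := ⟨(x - (q - M + 1)).toNat, by omega⟩
        rw [hi, hl i (by omega), hli i (by omega)]
    have hg1 : g = 1 := by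
      refine eq_one_of_mono h fun x => ?_
      rcases lt_trichotomy x q with h1 | h1 | h1
      · exact hg.1 x (x + 1) (by omega) (by omega)
      · rw [hfix x h1.le]
        by_contra hcon
        push Not at hcon
        have h2 := hfix (g (x + 1)) (by omega)
        have h3 := g.injective h2
        omega
      · exact hg.2 x (x + 1) h1 (by omega)
    rw [R_zero, if_pos hg1]
    unfold fro
    have e1 : vdm M (fun i => (l i : ℚ)) = vdm M (fun i => (i : ℚ)) :=
      vdm_congr M fun i hi => by rw [hli i hi]
    have e2 : ∏ i ∈ range M, ((l i).factorial : ℚ) = ∏ i ∈ range M, (i.factorial : ℚ) :=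
      Finset.prod_congr rfl fun i hi => by rw [hli i (Finset.mem_range.1 hi)]
    rw [e1, e2, vdm_id]
    have hPP : (∏ i ∈ range M, (i.factorial : ℚ)) ≠ 0 := Finset.prod_ne_zero_iff.2
      fun i _ => by
        have := Nat.factorial_ne_zero i
        exact_mod_cast this
    rw [Nat.factorial_zero, Nat.cast_one, one_mul, div_self hPP]
  | succ n ih =>
    intro g h q hg M l hM hl hn
    have hinj : ∀ i j, i < M → j < M → l i = l j → i = j := by
      intro i j hi hj hij
      have h1 := hl i hi
      rw [hij, ← hl j hj] at h1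
      have h2 := g.injective h1
      omega
    have hpos : ∀ x, q - M < x → q - M < g x := by
      intro x hx
      have := gr_fixed_left (x0 := q - M + 1) (fun x hx => hM x (by omega))
        (x := x) (by omega)
      omega
    rw [R_succ_left n h]
    have hset : ldesc g = ((range M).filter (fun i => 1 ≤ l i ∧ ∀ j, j < M → l j ≠ l i - 1)).image
        (fun i => q - M + l i) := by
      ext v
      rw [mem_ldesc h, Finset.mem_image]
      constructor
      · intro hv
        have hvq : g⁻¹ (v + 1) ≤ q := by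
          by_contra hcon
          push Not at hcon
          have h1 := hg.2 _ _ hcon hv
          rw [apply_inv, apply_inv] at h1
          omega
        have hvq' : q < g⁻¹ v := by
          by_contra hcon
          push Not at hcon
          have h1 := hg.1 _ _ hv hcon
          rw [apply_inv, apply_inv] at h1
          omega
        have hvM : q - M < g⁻¹ (v + 1) := by
          by_contra hcon
          push Not at hcon
          have h1 := hM _ hcon
          rw [apply_inv] at h1
          have h2 := hM v (by omega)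
          have h3 : g⁻¹ v = v := by
            conv_lhs => rw [← h2]
            exact inv_apply _ _
          omega
        obtain ⟨i, hi⟩ : ∃ i : ℕ, g⁻¹ (v + 1) = q - M + 1 + i :=
          ⟨(g⁻¹ (v + 1) - (q - M + 1)).toNat, by omega⟩
        have hiM : i < M := by omega
        have h1 := hl i hiM
        rw [← hi, apply_inv] at h1
        have h0 : q - M < v := by
          have := hpos (g⁻¹ v) (by omega)
          rwa [apply_inv] at this
        refine ⟨i, Finset.mem_filter.2 ⟨Finset.mem_range.2 hiM, by omega, ?_⟩, by omega⟩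
        intro j hj hlj
        have h2 := hl j hj
        have h3 : g (q - M + 1 + j) = v := by omega
        rw [← h3, inv_apply] at hvq'
        omega
      · rintro ⟨i, hi, rfl⟩
        obtain ⟨hiM, hli, hno⟩ := Finset.mem_filter.1 hi
        rw [Finset.mem_range] at hiM
        have h1 := hl i hiM
        have h2 : g⁻¹ (q - M + l i + 1) = q - M + 1 + i := by
          have : q - M + l i + 1 = g (q - M + 1 + i) := by omega
          rw [this, inv_apply]
        rw [h2]
        by_contra hcon
        push Not at hcon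
        have h3 : g (g⁻¹ (q - M + l i)) = q - M + l i := apply_inv _ _
        have h4 : q - M < g⁻¹ (q - M + l i) := by
          by_contra hcon2
          push Not at hcon2
          rw [hM _ hcon2] at h3
          omega
        obtain ⟨j, hj⟩ : ∃ j : ℕ, g⁻¹ (q - M + l i) = q - M + 1 + j :=
          ⟨(g⁻¹ (q - M + l i) - (q - M + 1)).toNat, by omega⟩
        have hjM : j < M := by omega
        have h5 := hl j hjM
        rw [← hj, h3] at h5
        exact hno j hjM (by omega)
    have hinjimg : Set.InjOn (fun i : ℕ => q - M + (l i : ℤ))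
        ((range M).filter (fun i => 1 ≤ l i ∧ ∀ j, j < M → l j ≠ l i - 1) : Finset ℕ) := by
      intro i hi j hj hij
      have h1 := Finset.mem_range.1 (Finset.mem_filter.1 hi).1
      have h2 := Finset.mem_range.1 (Finset.mem_filter.1 hj).1
      refine hinj i j h1 h2 ?_
      dsimp only at hij
      omega
    rw [hset, Finset.sum_image hinjimg, Nat.cast_sum, fro_rec M n l hinj (by
      rw [hn]
      push_cast
      ring)]
    refine Finset.sum_congr rfl fun i hi => ?_
    obtain ⟨hiM, hli, hno⟩ := Finset.mem_filter.1 hi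
    rw [Finset.mem_range] at hiM
    have h1 := hl i hiM
    have hv : g⁻¹ (q - M + l i + 1) = q - M + 1 + i := by
      have : q - M + l i + 1 = g (q - M + 1 + i) := by omega
      rw [this, inv_apply]
    have hv' : q < g⁻¹ (q - M + l i) := by
      by_contra hcon
      push Not at hcon
      have h3 : g (g⁻¹ (q - M + l i)) = q - M + l i := apply_inv _ _
      have h4 : q - M < g⁻¹ (q - M + l i) := by
        by_contra hcon2
        push Not at hcon2
        rw [hM _ hcon2] at h3
        omega
      obtain ⟨j, hj⟩ : ∃ j : ℕ, g⁻¹ (q - M + l i) = q - M + 1 + j :=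
        ⟨(g⁻¹ (q - M + l i) - (q - M + 1)).toNat, by omega⟩
      have hjM : j < M := by omega
      have h5 := hl j hjM
      rw [← hj, h3] at h5
      exact hno j hjM (by omega)
    refine ih ((FS.sw _).mul h) (sw_mul_gr hg hv' (by rw [hv]; omega)) M _ ?_ ?_ ?_
    · intro x hx
      show sw _ (g x) = x
      rw [hM x hx, sw_apply_of_ne (by omega) (by omega)]
    · intro j hj
      show sw _ (g (q - M + 1 + j)) = _
      by_cases hji : j = i
      · subst hji
        rw [Function.update_self, h1]
        have e1 : q - M + 1 + (l j : ℤ) = q - M + l j + 1 := by ring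
        rw [e1, sw_apply_right]
        omega
      · rw [Function.update_of_ne hji, hl j hj]
        have h2 : l j ≠ l i := fun h2 => hji (hinj j i hj hiM h2)
        have h3 := hno j hj
        exact sw_apply_of_ne (by omega) (by omega)
    · rw [← Finset.add_sum_erase _ _ (Finset.mem_range.2 hiM)] at hn ⊢
      rw [Function.update_self]
      have e1 : ∑ x ∈ (range M).erase i, ((Function.update l i (l i - 1) x : ℕ) : ℚ) =
          ∑ x ∈ (range M).erase i, (l x : ℚ) :=
        Finset.sum_congr rfl fun j hj => by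
          rw [Function.update_of_ne (Finset.ne_of_mem_erase hj)]
      rw [e1, Nat.cast_sub hli]
      push_cast at hn ⊢
      linarith

theorem fro_eq_frob (M : ℕ) (lam : ℕ → ℕ) :
    fro M (∑ i ∈ range M, lam i) (fun i => lam i + i) = frob M lam := rfl

/-- Grassmannian permutations. -/
theorem R_gr {g : Perm ℤ} (h : FS g) {q : ℤ} (hg : Gr q g) (M : ℕ)
    (hM : ∀ x, x ≤ q - M → g x = x) :
    (R (∑ i ∈ range M, code g (q - M + 1 + i)) g : ℚ) =
      frob M (fun i => code g (q - M + 1 + i)) := by
  rw [← fro_eq_frob]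
  refine R_gr_aux _ h hg M _ hM ?_ ?_
  · intro i hi
    have h1 := gr_code h hg (x := q - M + 1 + i) (by omega)
    push_cast
    omega
  · have e1 : ∀ M : ℕ, (∑ i ∈ range M, (i : ℚ)) = (M : ℚ) * ((M : ℚ) - 1) / 2 := by
      intro M
      induction M with
      | zero => simp
      | succ M ih =>
        rw [Finset.sum_range_succ, ih]
        push_cast
        ring
    push_cast
    rw [Finset.sum_add_distrib, e1]

/-- An upward closed finite set of integers below `q`. -/
theorem upset_card {A : Set ℤ} {q : ℤ} (hf : A.Finite) (hq : ∀ x ∈ A, x ≤ q)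
    (hup : ∀ x y, x ∈ A → x ≤ y → y ≤ q → y ∈ A) {x : ℤ} (hx : x ≤ q) :
    x ∈ A ↔ (q - x).toNat < A.ncard := by
  have e1 : ∀ a b : ℤ, (Set.Icc a b).ncard = (b + 1 - a).toNat := by
    intro a b
    rw [← Finset.coe_Icc, Set.ncard_coe_finset, Int.card_Icc]
  have e2 : ∀ a b : ℤ, (Set.Ioc a b).ncard = (b - a).toNat := by
    intro a b
    rw [← Finset.coe_Ioc, Set.ncard_coe_finset, Int.card_Ioc]
  constructor
  · intro h
    have h1 : Set.Icc x q ⊆ A := fun y hy => hup x y h hy.1 hy.2
    have h2 := Set.ncard_le_ncard h1 hf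
    rw [e1] at h2
    omega
  · intro h
    by_contra hcon
    have h1 : A ⊆ Set.Ioc x q := by
      intro y hy
      refine ⟨?_, hq y hy⟩
      by_contra h2
      push Not at h2
      exact hcon (hup y x hy h2 hx)
    have h2 := Set.ncard_le_ncard h1 (Set.finite_Ioc _ _)
    rw [e2] at h2
    omega

theorem upset_card_nat {M : ℕ} {p : ℕ → Prop} [DecidablePred p]
    (hup : ∀ i j, i ≤ j → j < M → p i → p j) {i : ℕ} (hi : i < M) :
    p i ↔ M - 1 - i < ((range M).filter p).card := by
  constructor
  · intro h
    have h1 : Finset.Ico i M ⊆ (range M).filter p := by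
      intro j hj
      rw [Finset.mem_Ico] at hj
      exact Finset.mem_filter.2 ⟨Finset.mem_range.2 hj.2, hup i j hj.1 hj.2 h⟩
    have h2 := Finset.card_le_card h1
    rw [Nat.card_Ico] at h2
    omega
  · intro h
    by_contra hcon
    have h1 : (range M).filter p ⊆ Finset.Ico (i + 1) M := by
      intro j hj
      obtain ⟨h3, h4⟩ := Finset.mem_filter.1 hj
      rw [Finset.mem_range] at h3
      rw [Finset.mem_Ico]
      refine ⟨?_, h3⟩
      by_contra h2
      exact hcon (hup j i (by omega) hi h4)
    have h2 := Finset.card_le_card h1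
    rw [Nat.card_Ico] at h2
    omega

/-- Nested permutations. -/
theorem R_eq_frob {w : Perm ℤ} (h : FS w) (hN : Nested w) (M : ℕ) (lam : ℕ → ℕ)
    (hmono : ∀ i j, i ≤ j → j < M → lam i ≤ lam j)
    (hcol : ∀ t, 1 ≤ t → {x : ℤ | t ≤ code w x}.ncard = ((range M).filter (t ≤ lam ·)).card) :
    (R (∑ i ∈ range M, lam i) w : ℚ) = frob M lam := by
  obtain ⟨g, q, π, hg, hgr, hcode, hR⟩ := exists_gr h hN
  -- the numbers of long rows
  have hcol' : ∀ t, 1 ≤ t → {x : ℤ | t ≤ code g x}.ncard =
      ((range M).filter (t ≤ lam ·)).card := by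
    intro t ht
    rw [← hcol t ht]
    have e1 : {x : ℤ | t ≤ code g x} = π ⁻¹' {x : ℤ | t ≤ code w x} := by
      ext x
      show t ≤ code g x ↔ t ≤ code w (π x)
      rw [hcode]
    rw [e1, ← Set.ncard_image_of_injective _ π.injective,
      Set.image_preimage_eq _ π.surjective]
  have hright : ∀ x, q < x → code g x = 0 := by
    intro x hx
    unfold code
    have : row g x = ∅ := by
      rw [Set.eq_empty_iff_forall_notMem]
      intro y
      obtain ⟨p, rfl⟩ : ∃ p, y = g p := ⟨g⁻¹ y, (apply_inv g y).symm⟩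
      rw [mem_row]
      rintro ⟨h1, h2⟩
      have := hgr.2 x p hx h2
      omega
    rw [this, Set.ncard_empty]
  obtain ⟨K, hK0, hK⟩ := hg.exists_bound
  have hmem : ∀ t, 1 ≤ t → ∀ x, x ≤ q →
      (t ≤ code g x ↔ (q - x).toNat < ((range M).filter (t ≤ lam ·)).card) := by
    intro t ht x hx
    rw [← hcol' t ht]
    refine upset_card (A := {x : ℤ | t ≤ code g x}) ?_ ?_ ?_ hx
    · refine (Set.finite_Icc (-K) q).subset fun y hy => ?_
      rw [Set.mem_Icc]
      have hyq : y ≤ q := by
        by_contra h1
        push Not at h1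
        have h2 := hright y h1
        have h3 : t ≤ code g y := hy
        omega
      refine ⟨?_, hyq⟩
      by_contra h1
      push Not at h1
      have h2 := gr_code hg hgr hyq
      have h3 : t ≤ code g y := hy
      rw [hK y (Or.inl h1)] at h2
      omega
    · intro y hy
      by_contra h1
      push Not at h1
      have h2 := hright y h1
      have h3 : t ≤ code g y := hy
      omega
    · intro y z hy hyz hz
      have h3 : t ≤ code g y := hy
      show t ≤ code g z
      have h4 := gr_code hg hgr (hyz.trans hz)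
      have h5 := gr_code hg hgr hz
      have h6 : g y - y ≤ g z - z := by
        clear h5 h3 hy h4
        induction z, hyz using Int.leInduction with
        | base => exact le_rfl
        | succ z hz' ih =>
          have h7 := hgr.1 z (z + 1) (by omega) hz
          have h8 := ih (by omega)
          omega
      omega
  have hlam : ∀ i, i < M → code g (q - M + 1 + i) = lam i := by
    intro i hi
    have h1 : ∀ t, 1 ≤ t → (t ≤ code g (q - M + 1 + i) ↔ t ≤ lam i) := by
      intro t ht
      rw [hmem t ht _ (by omega)]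
      have h2 := upset_card_nat (M := M) (p := fun j => t ≤ lam j)
        (fun a b hab hb hta => hta.trans (hmono a b hab hb)) hi
      rw [h2]
      have h3 : (q - (q - M + 1 + i)).toNat = M - 1 - i := by omega
      rw [h3]
    apply le_antisymm
    · rcases Nat.eq_zero_or_pos (code g (q - M + 1 + i)) with h2 | h2
      · omega
      · exact (h1 _ h2).1 le_rfl
    · rcases Nat.eq_zero_or_pos (lam i) with h2 | h2
      · omega
      · exact (h1 _ h2).2 le_rfl
  have hM : ∀ x, x ≤ q - M → g x = x := by
    intro x hx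
    have h1 := hmem 1 le_rfl x (by omega)
    have h2 := gr_code hg hgr (x := x) (by omega)
    have h3 : ((range M).filter (1 ≤ lam ·)).card ≤ M := by
      have := Finset.card_filter_le (range M) (1 ≤ lam ·)
      rwa [Finset.card_range] at this
    have h4 : ¬ 1 ≤ code g x := by
      rw [h1]
      omega
    omega
  have hfinal := R_gr hg hgr M hM
  have e1 : ∑ i ∈ range M, code g (q - M + 1 + i) = ∑ i ∈ range M, lam i :=
    Finset.sum_congr rfl fun i hi => hlam i (Finset.mem_range.1 hi)
  rw [e1, hR] at hfinal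
  rw [hfinal]
  unfold frob
  rw [e1]
  congr 1
  · congr 1
    refine Finset.prod_congr rfl fun i hi => Finset.prod_congr rfl fun j hj => ?_
    rw [Finset.mem_range] at hi hj
    dsimp only
    rw [hlam i hi, hlam j (hj.trans hi)]
  · refine Finset.prod_congr rfl fun i hi => ?_
    dsimp only
    rw [hlam i (Finset.mem_range.1 hi)]

end Pool.Agent.SortNet
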