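import Pool.Agent.Work.MP_aee03d_pr.Moments

/-!
# The variance of the rotated trajectory and the square distance from the sine curve
(module INTEG)
-/

namespace Pool.Agent.SortNet

open Equiv Finset MeasureTheory

/-- The position of the particle `j` at the real time `t`. -/
noncomputable def XX (m : ℕ) (s : Fin ((m + 1) * m / 2) → Fin m) (j : Fin (m + 1)) (t : ℝ) : ℕ :=
  (PP m s ⌊(((m + 1) * m / 2 : ℕ) : ℝ) * t⌋₊ j).val

/-- The scaled position. -/
noncomputable def xx (m : ℕ) (s : Fin ((m + 1) * m / 2) → Fin m) (j : Fin (m + 1)) (t : ℝ) : ℝ :=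
  (2 * ((PP m s ⌊(((m + 1) * m / 2 : ℕ) : ℝ) * t⌋₊ j).val : ℝ) - m) / (m + 1)

/-- The rotated pair. -/
noncomputable def ZZ (m : ℕ) (s : Fin ((m + 1) * m / 2) → Fin m) (j : Fin (m + 1)) (t : ℝ) : ℂ :=
  Complex.exp (Real.pi * Complex.I * t) *
    ((xx m s j t : ℂ) + Complex.I * (xx m s j (t + 1 / 2) : ℂ))

/-- `n` times the variance. -/
noncomputable def VV (m : ℕ) (s : Fin ((m + 1) * m / 2) → Fin m) (j : Fin (m + 1)) : ℝ :=
  ((m : ℝ) + 1) * (2 * (∫ t in (0 : ℝ)..(1 / 2), ‖ZZ m s j t‖ ^ 2)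
    - ‖2 * ∫ t in (0 : ℝ)..(1 / 2), ZZ m s j t‖ ^ 2)

/-- The sine curve of the extreme particle. -/
noncomputable def ff (m : ℕ) (t : ℝ) : ℝ := m / 2 * (1 - Real.cos (Real.pi * t))

/-- The integral of the square of the distance from the sine curve. -/
noncomputable def II (m : ℕ) (s : Fin ((m + 1) * m / 2) → Fin m) (j : Fin (m + 1)) : ℝ :=
  ∫ t in (0 : ℝ)..1, ((XX m s j t : ℝ) - m / 2 * (1 - Real.cos (Real.pi * t))) ^ 2

theorem measurable_XX (m : ℕ) (s : Fin ((m + 1) * m / 2) → Fin m) (j : Fin (m + 1)) :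
    Measurable (fun t : ℝ => (XX m s j t : ℝ)) := by
  have h1 : Measurable (fun t : ℝ => ⌊(((m + 1) * m / 2 : ℕ) : ℝ) * t⌋₊) :=
    Nat.measurable_floor.comp (measurable_const_mul _)
  have h2 : Measurable (fun k : ℕ => (((PP m s k j).val : ℕ) : ℝ)) := measurable_from_nat
  exact h2.comp h1

theorem XX_le (m : ℕ) (s : Fin ((m + 1) * m / 2) → Fin m) (j : Fin (m + 1)) (t : ℝ) :
    (XX m s j t : ℝ) ≤ m := by
  have h := (PP m s ⌊(((m + 1) * m / 2 : ℕ) : ℝ) * t⌋₊ j).isLt
  have h1 : XX m s j t ≤ m := by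
    unfold XX
    omega
  exact_mod_cast h1

theorem xx_eq (m : ℕ) (s : Fin ((m + 1) * m / 2) → Fin m) (j : Fin (m + 1)) (t : ℝ) :
    xx m s j t = (2 * (XX m s j t : ℝ) - m) / (m + 1) := rfl

theorem measurable_xx (m : ℕ) (s : Fin ((m + 1) * m / 2) → Fin m) (j : Fin (m + 1)) :
    Measurable (xx m s j) := by
  have h := measurable_XX m s j
  exact ((h.const_mul 2).sub_const _).div_const _

theorem abs_xx_le (m : ℕ) (s : Fin ((m + 1) * m / 2) → Fin m) (j : Fin (m + 1)) (t : ℝ) :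
    |xx m s j t| ≤ 1 := by
  rw [xx_eq, abs_div, abs_of_pos (by positivity : (0 : ℝ) < m + 1), div_le_one (by positivity),
    abs_le]
  have h1 := XX_le m s j t
  have h2 : (0 : ℝ) ≤ (XX m s j t : ℝ) := by positivity
  constructor <;> linarith

/-- Bounded measurable functions are integrable. -/
theorem ii_of_bounded {f : ℝ → ℝ} (hf : Measurable f) {C : ℝ} (hC : ∀ t, |f t| ≤ C) (a b : ℝ) :
    IntervalIntegrable f volume a b := by
  refine ⟨?_, ?_⟩ <;>
  · refine Measure.integrableOn_of_bounded (M := C) ?_ hf.aestronglyMeasurable ?_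
    · exact measure_Ioc_lt_top.ne
    · exact Filter.Eventually.of_forall fun t => by
        rw [Real.norm_eq_abs]
        exact hC t

theorem ii_of_bounded_complex {f : ℝ → ℂ} (hf : Measurable f) {C : ℝ} (hC : ∀ t, ‖f t‖ ≤ C)
    (a b : ℝ) : IntervalIntegrable f volume a b := by
  refine ⟨?_, ?_⟩ <;>
  · refine Measure.integrableOn_of_bounded (M := C) ?_ hf.aestronglyMeasurable ?_
    · exact measure_Ioc_lt_top.ne
    · exact Filter.Eventually.of_forall fun t => hC t

theorem measurable_ZZ (m : ℕ) (s : Fin ((m + 1) * m / 2) → Fin m) (j : Fin (m + 1)) :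
    Measurable (ZZ m s j) := by
  have h1 : Measurable (fun t : ℝ => (xx m s j t : ℂ)) :=
    Complex.measurable_ofReal.comp (measurable_xx m s j)
  have h2 : Measurable (fun t : ℝ => (xx m s j (t + 1 / 2) : ℂ)) :=
    Complex.measurable_ofReal.comp ((measurable_xx m s j).comp (measurable_add_const _))
  have h3 : Measurable (fun t : ℝ => Complex.exp (Real.pi * Complex.I * t)) := by
    refine Complex.measurable_exp.comp ?_
    exact Complex.measurable_ofReal.const_mul _
  exact h3.mul (h1.add (h2.const_mul _))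

theorem norm_exp_pi (t : ℝ) : ‖Complex.exp (Real.pi * Complex.I * t)‖ = 1 := by
  have h : (Real.pi : ℂ) * Complex.I * t = ((Real.pi * t : ℝ) : ℂ) * Complex.I := by
    push_cast
    ring
  rw [h, Complex.norm_exp_ofReal_mul_I]

theorem norm_ZZ_le (m : ℕ) (s : Fin ((m + 1) * m / 2) → Fin m) (j : Fin (m + 1)) (t : ℝ) :
    ‖ZZ m s j t‖ ≤ 2 := by
  unfold ZZ
  rw [norm_mul, norm_exp_pi, one_mul]
  refine (norm_add_le _ _).trans ?_
  rw [norm_mul, Complex.norm_I, one_mul, Complex.norm_real, Complex.norm_real, Real.norm_eq_abs,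
    Real.norm_eq_abs]
  have h1 := abs_xx_le m s j t
  have h2 := abs_xx_le m s j (t + 1 / 2)
  linarith

/-- The square distance of `ZZ` from `-1`. -/
theorem norm_ZZ_add_one (m : ℕ) (s : Fin ((m + 1) * m / 2) → Fin m) (j : Fin (m + 1)) (t : ℝ) :
    ‖ZZ m s j t + 1‖ ^ 2 = (xx m s j t + Real.cos (Real.pi * t)) ^ 2 +
      (xx m s j (t + 1 / 2) + Real.cos (Real.pi * (t + 1 / 2))) ^ 2 := by
  have h1 : Real.cos (Real.pi * (t + 1 / 2)) = - Real.sin (Real.pi * t) := by
    rw [mul_add, show Real.pi * (1 / 2) = Real.pi / 2 by ring, Real.cos_add_pi_div_two]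
  have h2 : Complex.exp (Real.pi * Complex.I * t) =
      (Real.cos (Real.pi * t) : ℂ) + (Real.sin (Real.pi * t) : ℂ) * Complex.I := by
    have h : (Real.pi : ℂ) * Complex.I * t = ((Real.pi * t : ℝ) : ℂ) * Complex.I := by
      push_cast
      ring
    rw [h, Complex.exp_mul_I, Complex.ofReal_cos, Complex.ofReal_sin]
  have h3 := Real.sin_sq_add_cos_sq (Real.pi * t)
  rw [h1]
  unfold ZZ
  rw [h2, ← Complex.normSq_eq_norm_sq]
  generalize xx m s j t = x
  generalize xx m s j (t + 1 / 2) = y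
  generalize Real.cos (Real.pi * t) = c at *
  generalize Real.sin (Real.pi * t) = d at *
  rw [Complex.normSq_apply]
  simp only [Complex.add_re, Complex.mul_re, Complex.ofReal_re, Complex.ofReal_im,
    Complex.I_re, Complex.I_im, Complex.one_re, Complex.add_im, Complex.mul_im, Complex.one_im,
    mul_zero, mul_one, zero_mul, add_zero, zero_add, sub_self, one_mul]
  linear_combination (x ^ 2 + y ^ 2 - 1) * h3

theorem var_le_dist {Z : ℝ → ℂ} (hZ : Measurable Z) {C : ℝ} (hC : ∀ t, ‖Z t‖ ≤ C) :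
    2 * (∫ t in (0 : ℝ)..(1 / 2), ‖Z t‖ ^ 2) - ‖2 * ∫ t in (0 : ℝ)..(1 / 2), Z t‖ ^ 2 ≤
      2 * ∫ t in (0 : ℝ)..(1 / 2), ‖Z t + 1‖ ^ 2 := by
  have hC0 : 0 ≤ C := (norm_nonneg _).trans (hC 0)
  have i1 : IntervalIntegrable (fun t => ‖Z t‖ ^ 2) volume 0 (1 / 2) := by
    refine ii_of_bounded (hZ.norm.pow_const 2) (C := C ^ 2) (fun t => ?_) _ _
    rw [abs_of_nonneg (sq_nonneg _)]
    exact pow_le_pow_left₀ (norm_nonneg _) (hC t) 2
  have i2 : IntervalIntegrable Z volume 0 (1 / 2) := ii_of_bounded_complex hZ hC _ _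
  have i3 : IntervalIntegrable (fun t => (Z t).re) volume 0 (1 / 2) := by
    refine ii_of_bounded (Complex.measurable_re.comp hZ) (C := C) (fun t => ?_) _ _
    exact (Complex.abs_re_le_norm _).trans (hC t)
  have e1 : ∀ t, ‖Z t + 1‖ ^ 2 = ‖Z t‖ ^ 2 + (2 * (Z t).re + 1) := by
    intro t
    rw [← Complex.normSq_eq_norm_sq, ← Complex.normSq_eq_norm_sq, Complex.normSq_add,
      Complex.normSq_one]
    simp only [map_one, mul_one]
    ring
  have e2 : ∫ t in (0 : ℝ)..(1 / 2), ‖Z t + 1‖ ^ 2 = (∫ t in (0 : ℝ)..(1 / 2), ‖Z t‖ ^ 2) +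
      (2 * (∫ t in (0 : ℝ)..(1 / 2), (Z t).re) + 1 / 2) := by
    rw [intervalIntegral.integral_congr (fun t _ => e1 t), intervalIntegral.integral_add i1
      ((i3.const_mul 2).add intervalIntegrable_const), intervalIntegral.integral_add
      (i3.const_mul 2) intervalIntegrable_const, intervalIntegral.integral_const_mul,
      intervalIntegral.integral_const]
    norm_num
  have e3 : (∫ t in (0 : ℝ)..(1 / 2), (Z t).re) = (∫ t in (0 : ℝ)..(1 / 2), Z t).re := by
    have := Complex.reCLM.intervalIntegral_comp_comm i2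
    simpa using this
  rw [e2, e3]
  set W := ∫ t in (0 : ℝ)..(1 / 2), Z t
  have e4 : 0 ≤ ‖2 * W + 1‖ ^ 2 := sq_nonneg _
  have e5 : ‖2 * W + 1‖ ^ 2 = ‖2 * W‖ ^ 2 + (4 * W.re + 1) := by
    rw [← Complex.normSq_eq_norm_sq, ← Complex.normSq_eq_norm_sq, Complex.normSq_add,
      Complex.normSq_one]
    simp only [map_one, mul_one, Complex.mul_re, Complex.re_ofNat, Complex.im_ofNat, zero_mul,
      sub_zero]
    ring
  rw [e5] at e4
  linarith

theorem measurable_dist (m : ℕ) (s : Fin ((m + 1) * m / 2) → Fin m) (j : Fin (m + 1)) :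
    Measurable (fun t : ℝ => (xx m s j t + Real.cos (Real.pi * t)) ^ 2) := by
  refine Measurable.pow_const ?_ 2
  exact (measurable_xx m s j).add (Real.measurable_cos.comp (measurable_const_mul _))

theorem abs_dist_le (m : ℕ) (s : Fin ((m + 1) * m / 2) → Fin m) (j : Fin (m + 1)) (t : ℝ) :
    |(xx m s j t + Real.cos (Real.pi * t)) ^ 2| ≤ 4 := by
  have h1 := abs_le.1 (abs_xx_le m s j t)
  have h2 := Real.cos_le_one (Real.pi * t)
  have h3 := Real.neg_one_le_cos (Real.pi * t)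
  rw [abs_of_nonneg (sq_nonneg _)]
  nlinarith

theorem VV_le_dist (m : ℕ) (s : Fin ((m + 1) * m / 2) → Fin m) (j : Fin (m + 1)) :
    VV m s j ≤ ((m : ℝ) + 1) * (2 *
      ∫ t in (0 : ℝ)..1, (xx m s j t + Real.cos (Real.pi * t)) ^ 2) := by
  unfold VV
  refine mul_le_mul_of_nonneg_left ?_ (by positivity)
  refine (var_le_dist (measurable_ZZ m s j) (norm_ZZ_le m s j)).trans ?_
  refine mul_le_mul_of_nonneg_left (le_of_eq ?_) (by norm_num)
  have i1 : ∀ a b, IntervalIntegrable (fun t : ℝ => (xx m s j t + Real.cos (Real.pi * t)) ^ 2)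
      volume a b := ii_of_bounded (measurable_dist m s j) (abs_dist_le m s j)
  have i2 : IntervalIntegrable
      (fun t : ℝ => (xx m s j (t + 1 / 2) + Real.cos (Real.pi * (t + 1 / 2))) ^ 2)
      volume 0 (1 / 2) := by
    refine ii_of_bounded ((measurable_dist m s j).comp (measurable_add_const _)) (C := 4)
      (fun t => abs_dist_le m s j _) _ _
  rw [intervalIntegral.integral_congr (fun t _ => norm_ZZ_add_one m s j t),
    intervalIntegral.integral_add (i1 _ _) i2]
  have e1 := intervalIntegral.integral_comp_add_right (a := 0) (b := 1 / 2)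
    (fun t : ℝ => (xx m s j t + Real.cos (Real.pi * t)) ^ 2) (1 / 2)
  rw [e1]
  have e2 := intervalIntegral.integral_add_adjacent_intervals (i1 0 (1 / 2)) (i1 (1 / 2) 1)
  rw [← e2]
  norm_num

theorem measurable_dev (m : ℕ) (s : Fin ((m + 1) * m / 2) → Fin m) (j : Fin (m + 1)) :
    Measurable (fun t : ℝ => ((XX m s j t : ℝ) - ff m t) ^ 2) := by
  refine Measurable.pow_const ?_ 2
  refine (measurable_XX m s j).sub ?_
  unfold ff
  refine Measurable.const_mul ?_ _
  exact measurable_const.sub (Real.measurable_cos.comp (measurable_const_mul _))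

theorem ff_mem (m : ℕ) (t : ℝ) : 0 ≤ ff m t ∧ ff m t ≤ m := by
  unfold ff
  have h2 := Real.cos_le_one (Real.pi * t)
  have h3 := Real.neg_one_le_cos (Real.pi * t)
  have h4 : (0 : ℝ) ≤ m := by positivity
  constructor <;> nlinarith

theorem abs_dev_le (m : ℕ) (s : Fin ((m + 1) * m / 2) → Fin m) (j : Fin (m + 1)) (t : ℝ) :
    |((XX m s j t : ℝ) - ff m t) ^ 2| ≤ (m : ℝ) ^ 2 := by
  have h1 := XX_le m s j t
  have h2 : (0 : ℝ) ≤ (XX m s j t : ℝ) := by positivity
  have h3 := ff_mem m t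
  rw [abs_of_nonneg (sq_nonneg _), sq_le_sq, abs_le, abs_of_nonneg (by positivity : (0:ℝ) ≤ m)]
  constructor <;> linarith

theorem ii_dev (m : ℕ) (s : Fin ((m + 1) * m / 2) → Fin m) (j : Fin (m + 1)) (a b : ℝ) :
    IntervalIntegrable (fun t : ℝ => ((XX m s j t : ℝ) - ff m t) ^ 2) volume a b :=
  ii_of_bounded (measurable_dev m s j) (abs_dev_le m s j) a b

theorem II_eq (m : ℕ) (s : Fin ((m + 1) * m / 2) → Fin m) (j : Fin (m + 1)) :
    II m s j = ∫ t in (0 : ℝ)..1, ((XX m s j t : ℝ) - ff m t) ^ 2 := rfl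

theorem II_nonneg (m : ℕ) (s : Fin ((m + 1) * m / 2) → Fin m) (j : Fin (m + 1)) :
    0 ≤ II m s j := by
  rw [II_eq]
  exact intervalIntegral.integral_nonneg (by norm_num) fun t _ => sq_nonneg _

theorem II_le_sq (m : ℕ) (s : Fin ((m + 1) * m / 2) → Fin m) (j : Fin (m + 1)) :
    II m s j ≤ (m : ℝ) ^ 2 := by
  rw [II_eq]
  have h := intervalIntegral.integral_mono_on (by norm_num : (0 : ℝ) ≤ 1) (ii_dev m s j 0 1)
    (intervalIntegrable_const (c := (m : ℝ) ^ 2)) (fun t _ =>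
      (le_abs_self _).trans (abs_dev_le m s j t))
  rw [intervalIntegral.integral_const] at h
  simpa using h

/-- The basic deterministic bound. -/
theorem VV_le (m : ℕ) (s : Fin ((m + 1) * m / 2) → Fin m) (j : Fin (m + 1)) :
    VV m s j ≤ (16 * II m s j + 4) / (m + 1) := by
  have hm : (0 : ℝ) < (m : ℝ) + 1 := by positivity
  refine (VV_le_dist m s j).trans ?_
  have h1 : ∀ t : ℝ, (xx m s j t + Real.cos (Real.pi * t)) ^ 2 ≤
      8 / ((m : ℝ) + 1) ^ 2 * ((XX m s j t : ℝ) - ff m t) ^ 2 + 2 / ((m : ℝ) + 1) ^ 2 := by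
    intro t
    have h2 : xx m s j t + Real.cos (Real.pi * t) =
        (2 * ((XX m s j t : ℝ) - ff m t) + Real.cos (Real.pi * t)) / (m + 1) := by
      rw [xx_eq]
      unfold ff
      field_simp
      ring
    rw [h2, div_pow, div_mul_eq_mul_div, ← add_div]
    refine div_le_div_of_nonneg_right ?_ (by positivity)
    have h4 := Real.cos_le_one (Real.pi * t)
    have h5 := Real.neg_one_le_cos (Real.pi * t)
    nlinarith [sq_nonneg (2 * ((XX m s j t : ℝ) - ff m t) - Real.cos (Real.pi * t))]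
  have h2 : ∫ t in (0 : ℝ)..1, (xx m s j t + Real.cos (Real.pi * t)) ^ 2 ≤
      8 / ((m : ℝ) + 1) ^ 2 * II m s j + 2 / ((m : ℝ) + 1) ^ 2 := by
    have h3 := intervalIntegral.integral_mono_on (by norm_num : (0 : ℝ) ≤ 1)
      (ii_of_bounded (measurable_dist m s j) (abs_dist_le m s j) 0 1)
      (((ii_dev m s j 0 1).const_mul (8 / ((m : ℝ) + 1) ^ 2)).add
        (intervalIntegrable_const (c := 2 / ((m : ℝ) + 1) ^ 2))) (fun t _ => h1 t)
    rw [intervalIntegral.integral_add ((ii_dev m s j 0 1).const_mul _) intervalIntegrable_const,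
      intervalIntegral.integral_const_mul, intervalIntegral.integral_const, ← II_eq] at h3
    simpa using h3
  calc ((m : ℝ) + 1) * (2 * ∫ t in (0 : ℝ)..1, (xx m s j t + Real.cos (Real.pi * t)) ^ 2)
      ≤ ((m : ℝ) + 1) * (2 * (8 / ((m : ℝ) + 1) ^ 2 * II m s j + 2 / ((m : ℝ) + 1) ^ 2)) := by
        refine mul_le_mul_of_nonneg_left ?_ hm.le
        linarith
    _ = (16 * II m s j + 4) / (m + 1) := by
        field_simp
        ring

end Pool.Agent.SortNet
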