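import Pool.Agent.Work.MP_aee03d_pr.Moments

/-!
# Symmetries of sorting networks (module SYM)
-/

namespace Pool.Agent.SortNet

open Equiv Finset

/-- A length preserving operation on words as a map of functions. -/
def lft {m N : ℕ} (op : List (Fin m) → List (Fin m)) (h : ∀ l, (op l).length = l.length)
    (s : Fin N → Fin m) : Fin N → Fin m :=
  fun j => (op (List.ofFn s))[j.val]'(by
    rw [h, List.length_ofFn]
    exact j.isLt)

theorem ofFn_lft {m N : ℕ} (op : List (Fin m) → List (Fin m))
    (h : ∀ l, (op l).length = l.length) (s : Fin N → Fin m) :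
    List.ofFn (lft op h s) = op (List.ofFn s) := by
  refine List.ext_getElem ?_ ?_
  · rw [List.length_ofFn, h, List.length_ofFn]
  · intro j h1 h2
    rw [List.getElem_ofFn]
    rfl

theorem lft_mem {m : ℕ} {op : List (Fin m) → List (Fin m)} {h : ∀ l, (op l).length = l.length}
    (hlp : ∀ l, lp l = w0 (m + 1) → lp (op l) = w0 (m + 1))
    {s : Fin ((m + 1) * m / 2) → Fin m} (hs : s ∈ Val m) : lft op h s ∈ Val m := by
  rw [mem_Val] at hs ⊢
  rw [ofFn_lft]
  exact hlp _ hs

theorem sum_lft {m : ℕ} {op : List (Fin m) → List (Fin m)} {h : ∀ l, (op l).length = l.length}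
    (hinj : Function.Injective op) (hlp : ∀ l, lp l = w0 (m + 1) → lp (op l) = w0 (m + 1))
    {M : Type*} [AddCommMonoid M] (F : (Fin ((m + 1) * m / 2) → Fin m) → M) :
    ∑ s ∈ Val m, F (lft op h s) = ∑ s ∈ Val m, F s := by
  classical
  have hi : Set.InjOn (lft op h) (Val m : Set (Fin ((m + 1) * m / 2) → Fin m)) := by
    intro s _ s' _ hss
    have h1 : op (List.ofFn s) = op (List.ofFn s') := by
      rw [← ofFn_lft op h, ← ofFn_lft op h, hss]
    exact List.ofFn_injective (hinj h1)
  have himg : (Val m).image (lft op h) = Val m := by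
    refine Finset.eq_of_subset_of_card_le ?_ ?_
    · intro s hs
      obtain ⟨s', hs', rfl⟩ := Finset.mem_image.1 hs
      exact lft_mem hlp hs'
    · rw [Finset.card_image_of_injOn hi]
  conv_rhs => rw [← himg]
  rw [Finset.sum_image hi]

theorem rev_rev_map {m : ℕ} (l : List (Fin m)) : (l.map Fin.rev).map Fin.rev = l := by
  rw [List.map_map]
  have h : (Fin.rev ∘ Fin.rev : Fin m → Fin m) = id := by
    funext x
    exact Fin.rev_rev x
  rw [h, List.map_id]

/-! ### The rotation -/

/-- The rotation by `k` steps. -/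
def rotL {m : ℕ} (k : ℕ) (l : List (Fin m)) : List (Fin m) :=
  l.drop k ++ (l.take k).map Fin.rev

theorem length_rotL {m : ℕ} (k : ℕ) (l : List (Fin m)) : (rotL k l).length = l.length := by
  unfold rotL
  rw [List.length_append, List.length_map, List.length_take, List.length_drop]
  omega

theorem rotL_injective {m : ℕ} (k : ℕ) : Function.Injective (rotL k : List (Fin m) → _) := by
  intro l l' h
  have hlen : l.length = l'.length := by
    rw [← length_rotL k l, ← length_rotL k l', h]
  unfold rotL at h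
  have h1 := List.append_inj h (by rw [List.length_drop, List.length_drop, hlen])
  have h2 := congrArg (List.map Fin.rev) h1.2
  rw [rev_rev_map, rev_rev_map] at h2
  rw [← List.take_append_drop k l, ← List.take_append_drop k l', h1.1, h2]

theorem take_mul_drop {m : ℕ} {l : List (Fin m)} (h : lp l = w0 (m + 1)) (k : ℕ) :
    lp (l.take k) * lp (l.drop k) = w0 (m + 1) := by
  rw [← lp_append, List.take_append_drop, h]

theorem lp_rotL {m : ℕ} (k : ℕ) {l : List (Fin m)} (h : lp l = w0 (m + 1)) :
    lp (rotL k l) = w0 (m + 1) := by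
  have h1 := take_mul_drop h k
  unfold rotL
  rw [lp_append, lp_map_rev]
  have h2 : lp (l.drop k) = (lp (l.take k))⁻¹ * w0 (m + 1) := by
    rw [← h1]
    group
  have h3 := w0_mul_self (m + 1)
  rw [h2]
  calc (lp (l.take k))⁻¹ * w0 (m + 1) * (w0 (m + 1) * lp (l.take k) * w0 (m + 1))
      = (lp (l.take k))⁻¹ * (w0 (m + 1) * w0 (m + 1)) * lp (l.take k) * w0 (m + 1) := by
        group
    _ = w0 (m + 1) := by
        rw [h3]
        group

/-! ### The reversal -/

/-- The reversal and complement. -/
def rcL {m : ℕ} (l : List (Fin m)) : List (Fin m) := (l.map Fin.rev).reverse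

theorem length_rcL {m : ℕ} (l : List (Fin m)) : (rcL l).length = l.length := by
  unfold rcL
  rw [List.length_reverse, List.length_map]

theorem rcL_injective {m : ℕ} : Function.Injective (rcL : List (Fin m) → _) := by
  intro l l' h
  unfold rcL at h
  have h1 := List.reverse_injective h
  have h2 := congrArg (List.map Fin.rev) h1
  rw [rev_rev_map, rev_rev_map] at h2
  exact h2

theorem lp_rcL {m : ℕ} {l : List (Fin m)} (h : lp l = w0 (m + 1)) :
    lp (rcL l) = w0 (m + 1) := by
  unfold rcL
  rw [lp_reverse, lp_map_rev, h, w0_mul_self, one_mul, w0_inv]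

theorem take_rcL {m : ℕ} {l : List (Fin m)} (h : lp l = w0 (m + 1)) (k : ℕ) :
    lp ((rcL l).take k) = lp (l.take (l.length - k)) * w0 (m + 1) := by
  have h1 := take_mul_drop h (l.length - k)
  unfold rcL
  rw [List.take_reverse, List.length_map, ← List.map_drop, lp_reverse, lp_map_rev]
  have h2 : lp (l.drop (l.length - k)) = (lp (l.take (l.length - k)))⁻¹ * w0 (m + 1) := by
    rw [← h1]
    group
  have h3 := w0_mul_self (m + 1)
  rw [h2, mul_inv_rev, mul_inv_rev, mul_inv_rev, w0_inv, inv_inv]
  calc w0 (m + 1) * (w0 (m + 1) * lp (l.take (l.length - k)) * w0 (m + 1))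
      = (w0 (m + 1) * w0 (m + 1)) * lp (l.take (l.length - k)) * w0 (m + 1) := by
        group
    _ = lp (l.take (l.length - k)) * w0 (m + 1) := by
        rw [h3, one_mul]

/-! ### The complement -/

/-- The complement. -/
def cL {m : ℕ} (l : List (Fin m)) : List (Fin m) := l.map Fin.rev

theorem length_cL {m : ℕ} (l : List (Fin m)) : (cL l).length = l.length := by
  unfold cL
  rw [List.length_map]

theorem cL_injective {m : ℕ} : Function.Injective (cL : List (Fin m) → _) := by
  intro l l' h
  unfold cL at h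
  have h2 := congrArg (List.map Fin.rev) h
  rw [rev_rev_map, rev_rev_map] at h2
  exact h2

theorem lp_cL {m : ℕ} {l : List (Fin m)} (h : lp l = w0 (m + 1)) :
    lp (cL l) = w0 (m + 1) := by
  unfold cL
  rw [lp_map_rev, h, w0_mul_self, one_mul]

/-- The rotated network. -/
def rot {m N : ℕ} (k : ℕ) : (Fin N → Fin m) → (Fin N → Fin m) := lft (rotL k) (length_rotL k)

/-- The reversed and complemented network. -/
def rcp {m N : ℕ} : (Fin N → Fin m) → (Fin N → Fin m) := lft rcL length_rcL

/-- The complemented network. -/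
def cp {m N : ℕ} : (Fin N → Fin m) → (Fin N → Fin m) := lft cL length_cL

variable {m : ℕ}

theorem rot_mem (k : ℕ) {s : Fin ((m + 1) * m / 2) → Fin m} (hs : s ∈ Val m) :
    rot k s ∈ Val m := lft_mem (fun _ h => lp_rotL k h) hs

theorem rc_mem {s : Fin ((m + 1) * m / 2) → Fin m} (hs : s ∈ Val m) : rcp s ∈ Val m :=
  lft_mem (fun _ h => lp_rcL h) hs

theorem cp_mem {s : Fin ((m + 1) * m / 2) → Fin m} (hs : s ∈ Val m) : cp s ∈ Val m :=
  lft_mem (fun _ h => lp_cL h) hs

theorem sum_rot (k : ℕ) {M : Type*} [AddCommMonoid M]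
    (F : (Fin ((m + 1) * m / 2) → Fin m) → M) :
    ∑ s ∈ Val m, F (rot k s) = ∑ s ∈ Val m, F s :=
  sum_lft (rotL_injective k) (fun _ h => lp_rotL k h) F

theorem sum_rc {M : Type*} [AddCommMonoid M] (F : (Fin ((m + 1) * m / 2) → Fin m) → M) :
    ∑ s ∈ Val m, F (rcp s) = ∑ s ∈ Val m, F s :=
  sum_lft rcL_injective (fun _ h => lp_rcL h) F

theorem sum_cp {M : Type*} [AddCommMonoid M] (F : (Fin ((m + 1) * m / 2) → Fin m) → M) :
    ∑ s ∈ Val m, F (cp s) = ∑ s ∈ Val m, F s :=
  sum_lft cL_injective (fun _ h => lp_cL h) F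

theorem PP_zero (s : Fin ((m + 1) * m / 2) → Fin m) (j : Fin (m + 1)) : PP m s 0 j = j := by
  have h := PP_val s 0 j
  rw [List.take_zero, lp_nil, inv_one, Perm.one_apply] at h
  ext
  exact_mod_cast h

/-- The reversal in terms of positions. -/
theorem PP_rc {s : Fin ((m + 1) * m / 2) → Fin m} (hs : s ∈ Val m) (k : ℕ) (j : Fin (m + 1)) :
    (PP m (rcp s) k j).val = m - (PP m s ((m + 1) * m / 2 - k) j).val := by
  have h1 := PP_val (rcp s) k j
  have h2 := PP_val s ((m + 1) * m / 2 - k) j
  rw [mem_Val] at hs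
  unfold rcp at h1
  rw [ofFn_lft, take_rcL hs, List.length_ofFn, mul_inv_rev, w0_inv, Perm.mul_apply, ← h2,
    w0_apply, if_pos (by have := (PP m s ((m + 1) * m / 2 - k) j).isLt; push_cast; omega)] at h1
  have h3 := (PP m s ((m + 1) * m / 2 - k) j).isLt
  have h4 : rcp s = lft rcL length_rcL s := rfl
  rw [h4]
  push_cast at h1
  omega

/-- The complement in terms of positions. -/
theorem PP_cp (s : Fin ((m + 1) * m / 2) → Fin m) (k : ℕ) (j : Fin (m + 1)) :
    (PP m (cp s) k j).val = m - (PP m s k (Fin.rev j)).val := by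
  have h1 := PP_val (cp s) k j
  have h2 := PP_val s k (Fin.rev j)
  unfold cp at h1
  have h5 : w0 (m + 1) (j.val : ℤ) = ((Fin.rev j).val : ℤ) := by
    have := j.isLt
    rw [w0_apply, if_pos (by push_cast; omega), Fin.val_rev]
    push_cast
    omega
  rw [ofFn_lft, cL, ← List.map_take, lp_map_rev, mul_inv_rev, mul_inv_rev, w0_inv,
    Perm.mul_apply, Perm.mul_apply, h5, ← h2, w0_apply,
    if_pos (by have := (PP m s k (Fin.rev j)).isLt; push_cast; omega)] at h1
  have h3 := (PP m s k (Fin.rev j)).isLt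
  have h4 : cp s = lft cL length_cL s := rfl
  rw [h4]
  push_cast at h1
  omega

/-- Inversions persist. -/
theorem persist {l : List (Fin m)} (h : lp l = w0 (m + 1)) (hl : l.length = (m + 1) * m / 2)
    {a b : ℤ} (hab : b < a) {k0 k : ℕ} (hk : k0 ≤ k) (hkN : k ≤ l.length)
    (h0 : (lp (l.take k0))⁻¹ a < (lp (l.take k0))⁻¹ b) :
    (lp (l.take k))⁻¹ a < (lp (l.take k))⁻¹ b := by
  induction k, hk using Nat.le_induction with
  | base => exact h0
  | succ k _ ih =>
    have ih' := ih (by omega)
    have hlt : k < l.length := by omega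
    have h3 := step_ascent h hl hlt
    have h4 : lp (l.take (k + 1)) = lp (l.take k) * sw ((l[k]).val : ℤ) := by
      rw [← List.take_concat_get' l k hlt, lp_append, lp_single]
    rw [h4, mul_inv_rev, sw_inv, Perm.mul_apply, Perm.mul_apply]
    have ca := sw_cases ((l[k]).val : ℤ) ((lp (l.take k))⁻¹ a)
    have cb := sw_cases ((l[k]).val : ℤ) ((lp (l.take k))⁻¹ b)
    have hne : ¬ ((lp (l.take k))⁻¹ a = ((l[k]).val : ℤ) ∧
        (lp (l.take k))⁻¹ b = ((l[k]).val : ℤ) + 1) := by
      rintro ⟨h5, h6⟩
      rw [← h5] at h3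
      rw [← h5] at h6
      rw [← h6, apply_inv, apply_inv] at h3
      omega
    omega

/-- The lower bound for the particle `j` by a particle of the hull. -/
theorem lower {s : Fin ((m + 1) * m / 2) → Fin m} (hs : s ∈ Val m) {k0 : ℕ} {j : Fin (m + 1)}
    (hj : (j.val : ℤ) ≤ lp ((List.ofFn s).take k0) 0) {k : ℕ} (hk : k ≤ (m + 1) * m / 2) :
    (PP m (rot k0 s) (k - k0) 0).val ≤ (PP m s k j).val := by
  rcases Nat.lt_or_ge k k0 with hlt | hge
  · have h1 : k - k0 = 0 := by omega
    rw [h1, PP_zero]
    exact Nat.zero_le _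
  · have hs' := mem_Val.1 hs
    have hlen : (List.ofFn s).length = (m + 1) * m / 2 := List.length_ofFn
    have h1 := PP_val (rot k0 s) (k - k0) 0
    have h2 := PP_val s k j
    have h3 : (List.ofFn s).take k = (List.ofFn s).take k0 ++
        ((List.ofFn s).drop k0).take (k - k0) := by
      rw [← List.take_add]
      congr 1
      omega
    have h4 : (List.ofFn (rot k0 s)).take (k - k0) = ((List.ofFn s).drop k0).take (k - k0) := by
      unfold rot
      rw [ofFn_lft, rotL, List.take_append_of_le_length]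
      rw [List.length_drop, hlen]
      omega
    have h5 : (lp ((List.ofFn (rot k0 s)).take (k - k0)))⁻¹ 0 =
        (lp ((List.ofFn s).take k))⁻¹ (lp ((List.ofFn s).take k0) 0) := by
      rw [h3, h4, lp_append, mul_inv_rev, Perm.mul_apply, inv_apply]
    rw [Fin.val_zero, Nat.cast_zero, h5] at h1
    rcases hj.lt_or_eq with hlt' | heq
    · have h6 := persist hs' hlen hlt' hge (by omega) (by
        rw [inv_apply]
        have hfx := fx_lp ((List.ofFn s).take k0)
        have h7 := (hfx.inv.mem (x := (j.val : ℤ)) (by omega)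
          (by have := j.isLt; omega)).1
        have h8 : (lp ((List.ofFn s).take k0))⁻¹ (j.val : ℤ) ≠ 0 := by
          intro h8
          have h9 := apply_inv (lp ((List.ofFn s).take k0)) (j.val : ℤ)
          rw [h8] at h9
          omega
        omega)
      omega
    · rw [← heq] at h1
      omega

/-- The upper bound for the particle `j` by a particle of the hull. -/
theorem upper {s : Fin ((m + 1) * m / 2) → Fin m} (hs : s ∈ Val m) {k0 : ℕ} {j : Fin (m + 1)}
    (hj : (j.val : ℤ) ≤ lp ((List.ofFn (rcp s)).take k0) 0) {k : ℕ}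
    (hk : k ≤ (m + 1) * m / 2) :
    (PP m s k j).val + (PP m (rot k0 (rcp s)) ((m + 1) * m / 2 - k - k0) 0).val ≤ m := by
  have h1 := lower (rc_mem hs) hj (k := (m + 1) * m / 2 - k) (by omega)
  rw [PP_rc hs] at h1
  have h2 : (m + 1) * m / 2 - ((m + 1) * m / 2 - k) = k := by omega
  rw [h2] at h1
  have h3 := (PP m s k j).isLt
  omega

open Classical in
/-- The number of networks where the label at the position `0` at the time `k0` is small. -/
theorem card_bad (k0 j : ℕ) (hk : k0 ≤ (m + 1) * m / 2) :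
    ((Val m).filter (fun s => lp ((List.ofFn s).take k0) 0 < (j : ℤ))).card =
      ((Val m).filter (fun s => k0 < Tm m s j)).card := by
  rw [Finset.card_filter, Finset.card_filter]
  have h1 := exchange_time (m := m) (t := k0) hk (fun x => if x 0 < (j : ℤ) then 1 else 0)
  rw [← Val_eq] at h1
  have h2 : ∀ s ∈ Val m, (if (lp ((List.ofFn s).take k0))⁻¹ 0 < (j : ℤ) then 1 else 0) =
      if k0 < Tm m s j then 1 else 0 := by
    intro s hs
    have h3 := PP_val s k0 0
    rw [Fin.val_zero, Nat.cast_zero] at h3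
    have h4 := lt_Tm_iff hs hk (p := j)
    rw [← h3]
    by_cases h5 : k0 < Tm m s j
    · rw [if_pos h5, if_pos (by exact_mod_cast h4.2 h5)]
    · rw [if_neg h5, if_neg (fun h => h5 (h4.1 (by exact_mod_cast h)))]
  rw [Finset.sum_congr rfl h2] at h1
  rw [h1]

open Classical in
theorem card_bad_rc (k0 j : ℕ) (hk : k0 ≤ (m + 1) * m / 2) :
    ((Val m).filter (fun s => lp ((List.ofFn (rcp s)).take k0) 0 < (j : ℤ))).card =
      ((Val m).filter (fun s => k0 < Tm m s j)).card := by
  rw [← card_bad k0 j hk, Finset.card_filter, Finset.card_filter]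
  exact sum_rc (fun s => if lp ((List.ofFn s).take k0) 0 < (j : ℤ) then 1 else 0)

end Pool.Agent.SortNet
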