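import Pool.Agent.Work.MP_aee03d_pr.Mean
import Pool.Agent.Work.MP_aee03d_pr.Sym

/-!
# The particles near the boundary (module LAYER)
-/

namespace Pool.Agent.SortNet

open Equiv Finset MeasureTheory

theorem abs_ff_sub (m : ℕ) (t u : ℝ) : |ff m t - ff m u| ≤ 2 * m * |t - u| := by
  unfold ff
  have h1 : (m : ℝ) / 2 * (1 - Real.cos (Real.pi * t)) - m / 2 * (1 - Real.cos (Real.pi * u)) =
      m / 2 * (Real.cos (Real.pi * u) - Real.cos (Real.pi * t)) := by ring
  have hm : (0 : ℝ) ≤ m := by positivity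
  rw [h1, abs_mul, abs_of_nonneg (by positivity : (0 : ℝ) ≤ (m : ℝ) / 2)]
  have h2 := Real.abs_cos_sub_cos_le (Real.pi * u) (Real.pi * t)
  have h3 : |Real.pi * u - Real.pi * t| = Real.pi * |t - u| := by
    rw [← mul_sub, abs_mul, abs_of_pos Real.pi_pos, abs_sub_comm]
  rw [h3] at h2
  have h4 : Real.pi < 4 := by linarith [Real.pi_lt_d2]
  have h5 := abs_nonneg (t - u)
  calc (m : ℝ) / 2 * |Real.cos (Real.pi * u) - Real.cos (Real.pi * t)|
      ≤ m / 2 * (4 * |t - u|) := by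
        refine mul_le_mul_of_nonneg_left (h2.trans ?_) (by positivity)
        exact mul_le_mul_of_nonneg_right h4.le h5
    _ = 2 * m * |t - u| := by ring

theorem ff_zero (m : ℕ) : ff m 0 = 0 := by
  unfold ff
  rw [mul_zero, Real.cos_zero, sub_self, mul_zero]

theorem ff_symm (m : ℕ) (t : ℝ) : ff m (1 - t) = m - ff m t := by
  unfold ff
  rw [show Real.pi * (1 - t) = Real.pi - Real.pi * t by ring, Real.cos_pi_sub]
  ring

theorem XX_neg (m : ℕ) (s : Fin ((m + 1) * m / 2) → Fin m) {t : ℝ} (ht : t ≤ 0) :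
    XX m s 0 t = 0 := by
  unfold XX
  have h1 : ⌊(((m + 1) * m / 2 : ℕ) : ℝ) * t⌋₊ = 0 :=
    Nat.floor_of_nonpos (mul_nonpos_of_nonneg_of_nonpos (by positivity) ht)
  rw [h1, PP_zero]
  rfl

/-- The integral over a shifted interval. -/
theorem shift_le (m : ℕ) (s : Fin ((m + 1) * m / 2) → Fin m) {θ : ℝ} (h0 : 0 ≤ θ) (h1 : θ ≤ 1) :
    ∫ u in (-θ)..(1 - θ), ((XX m s 0 u : ℝ) - ff m u) ^ 2 ≤
      II m s 0 + 4 * ((m : ℝ) * θ) ^ 2 := by
  have i := ii_dev m s 0
  rw [← intervalIntegral.integral_add_adjacent_intervals (i (-θ) 0) (i 0 (1 - θ))]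
  have e1 : ∫ u in (-θ)..0, ((XX m s 0 u : ℝ) - ff m u) ^ 2 ≤ 4 * ((m : ℝ) * θ) ^ 2 := by
    have h2 := intervalIntegral.integral_mono_on (by linarith : -θ ≤ 0) (i (-θ) 0)
      (intervalIntegrable_const (c := 4 * ((m : ℝ) * θ) ^ 2)) (fun u hu => by
        rw [XX_neg m s hu.2, Nat.cast_zero, zero_sub, neg_sq]
        have h3 := abs_ff_sub m u 0
        rw [ff_zero, sub_zero, sub_zero] at h3
        have h4 : |u| ≤ θ := by
          rw [abs_le]
          exact ⟨hu.1, by linarith [hu.2]⟩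
        have hm : (0 : ℝ) ≤ m := by positivity
        have h5 : |ff m u| ≤ 2 * (m * θ) := by nlinarith
        calc ff m u ^ 2 ≤ (2 * (m * θ)) ^ 2 := by
              rw [sq_le_sq, abs_of_nonneg (by positivity : (0 : ℝ) ≤ 2 * (m * θ))]
              exact h5
          _ = 4 * ((m : ℝ) * θ) ^ 2 := by ring)
    rw [intervalIntegral.integral_const, smul_eq_mul] at h2
    have h3 : (0 - -θ) * (4 * ((m : ℝ) * θ) ^ 2) ≤ 1 * (4 * ((m : ℝ) * θ) ^ 2) := by
      refine mul_le_mul_of_nonneg_right (by linarith) (by positivity)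
    linarith
  have e2 : ∫ u in (0 : ℝ)..(1 - θ), ((XX m s 0 u : ℝ) - ff m u) ^ 2 ≤ II m s 0 := by
    rw [II_eq]
    refine intervalIntegral.integral_mono_interval le_rfl (by linarith) (by linarith) ?_ (i 0 1)
    exact Filter.Eventually.of_forall fun u => sq_nonneg _
  linarith

/-- The comparison of the particle `j` with two particles of the hull. -/
theorem compare {m : ℕ} (hm : 1 ≤ m) {s : Fin ((m + 1) * m / 2) → Fin m} (hs : s ∈ Val m)
    {k0 : ℕ} (hk0 : k0 ≤ (m + 1) * m / 2) {j : Fin (m + 1)}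
    (hj1 : (j.val : ℤ) ≤ lp ((List.ofFn s).take k0) 0)
    (hj2 : (j.val : ℤ) ≤ lp ((List.ofFn (rcp s)).take k0) 0) :
    II m s j ≤ 2 * (II m (rot k0 s) 0 + II m (rot k0 (rcp s)) 0) +
      24 * ((m : ℝ) * (k0 / (((m + 1) * m / 2 : ℕ) : ℝ))) ^ 2 := by
  have hm' : (1 : ℝ) ≤ m := by exact_mod_cast hm
  have hN := NN_two m
  set N : ℝ := (((m + 1) * m / 2 : ℕ) : ℝ) with hNdef
  have hN1 : 1 ≤ N := by nlinarith
  have hk0' : (k0 : ℝ) ≤ N := by
    rw [hNdef]
    exact_mod_cast hk0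
  set θ : ℝ := k0 / N with hθ
  have hθ0 : 0 ≤ θ := by positivity
  have hθ1 : θ ≤ 1 := by
    rw [hθ, div_le_one (by linarith)]
    exact hk0'
  have hNθ : N * θ = k0 := by
    rw [hθ]
    field_simp
  have c1 : ∀ t : ℝ, t ∈ Set.Icc (0 : ℝ) 1 → XX m (rot k0 s) 0 (t - θ) ≤ XX m s j t := by
    intro t ht
    unfold XX
    rw [← hNdef, mul_sub, hNθ, Nat.floor_sub_natCast]
    refine lower hs hj1 ?_
    refine Nat.floor_le_of_le ?_
    rw [← hNdef]
    nlinarith [ht.2]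
  have c2 : ∀ t : ℝ, t ∈ Set.Icc (0 : ℝ) 1 →
      XX m s j t + XX m (rot k0 (rcp s)) 0 (1 - θ - t) ≤ m := by
    intro t ht
    have h0 : (0 : ℝ) ≤ N * t := by
      have := ht.1
      positivity
    have hfl : ⌊N * t⌋₊ ≤ (m + 1) * m / 2 := by
      refine Nat.floor_le_of_le ?_
      rw [← hNdef]
      nlinarith [ht.2]
    have h1 := upper hs hj2 hfl
    have h2 : ⌊N * (1 - θ - t)⌋₊ ≤ (m + 1) * m / 2 - ⌊N * t⌋₊ - k0 := by
      have e1 : N * (1 - θ - t) = (N - N * t) - k0 := by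
        rw [← hNθ]
        ring
      rw [e1, Nat.floor_sub_natCast]
      refine Nat.sub_le_sub_right ?_ _
      refine Nat.floor_le_of_le ?_
      rw [Nat.cast_sub hfl, ← hNdef]
      have := Nat.floor_le h0
      linarith
    have h3 := Fin.le_def.1 (PP_mono (rot_mem k0 (rc_mem hs)) h2)
    unfold XX
    rw [← hNdef]
    omega
  have key : ∀ t : ℝ, t ∈ Set.Icc (0 : ℝ) 1 → ((XX m s j t : ℝ) - ff m t) ^ 2 ≤
      2 * (((XX m (rot k0 s) 0 (t - θ) : ℝ) - ff m (t - θ)) ^ 2 +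
        ((XX m (rot k0 (rcp s)) 0 (1 - θ - t) : ℝ) - ff m (1 - θ - t)) ^ 2) +
      8 * ((m : ℝ) * θ) ^ 2 := by
    intro t ht
    have h1 : (XX m (rot k0 s) 0 (t - θ) : ℝ) ≤ (XX m s j t : ℝ) := by exact_mod_cast c1 t ht
    have h2 : (XX m s j t : ℝ) + (XX m (rot k0 (rcp s)) 0 (1 - θ - t) : ℝ) ≤ m := by
      exact_mod_cast c2 t ht
    have h3 := abs_le.1 (abs_ff_sub m t (t - θ))
    have h4 := abs_le.1 (abs_ff_sub m (1 - t) (1 - θ - t))
    have h5 : |t - (t - θ)| = θ := by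
      rw [sub_sub_cancel, abs_of_nonneg hθ0]
    have h6 : |1 - t - (1 - θ - t)| = θ := by
      have : 1 - t - (1 - θ - t) = θ := by ring
      rw [this, abs_of_nonneg hθ0]
    rw [h5] at h3
    rw [h6] at h4
    have h7 := ff_symm m t
    generalize (XX m (rot k0 s) 0 (t - θ) : ℝ) = a at *
    generalize (XX m (rot k0 (rcp s)) 0 (1 - θ - t) : ℝ) = b at *
    generalize (XX m s j t : ℝ) = x at *
    generalize ff m (t - θ) = fa at *
    generalize ff m (1 - θ - t) = fb at *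
    generalize ff m (1 - t) = f1 at *
    generalize ff m t = f at *
    have hmt : 0 ≤ (m : ℝ) * θ := by positivity
    rcases le_total 0 (x - f) with h8 | h8
    · have h9 : x - f ≤ (fb - b) + 2 * (m * θ) := by linarith [h4.2]
      have h10 : (x - f) ^ 2 ≤ ((fb - b) + 2 * (m * θ)) ^ 2 := by
        rw [sq_le_sq, abs_of_nonneg h8]
        exact h9.trans (le_abs_self _)
      nlinarith [sq_nonneg ((fb - b) - 2 * (m * θ)), sq_nonneg (a - fa)]
    · have h9 : f - x ≤ (fa - a) + 2 * (m * θ) := by linarith [h3.2]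
      have h10 : (x - f) ^ 2 ≤ ((fa - a) + 2 * (m * θ)) ^ 2 := by
        rw [← neg_sub, neg_sq, sq_le_sq, abs_of_nonneg (by linarith : 0 ≤ f - x)]
        exact h9.trans (le_abs_self _)
      nlinarith [sq_nonneg ((fa - a) - 2 * (m * θ)), sq_nonneg (b - fb)]
  have i1 : IntervalIntegrable (fun t : ℝ =>
      ((XX m (rot k0 s) 0 (t - θ) : ℝ) - ff m (t - θ)) ^ 2) volume 0 1 :=
    ii_of_bounded ((measurable_dev m (rot k0 s) 0).comp (measurable_sub_const θ))
      (fun t => abs_dev_le m (rot k0 s) 0 (t - θ)) 0 1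
  have i2 : IntervalIntegrable (fun t : ℝ =>
      ((XX m (rot k0 (rcp s)) 0 (1 - θ - t) : ℝ) - ff m (1 - θ - t)) ^ 2) volume 0 1 :=
    ii_of_bounded ((measurable_dev m (rot k0 (rcp s)) 0).comp (measurable_const_sub (1 - θ)))
      (fun t => abs_dev_le m (rot k0 (rcp s)) 0 (1 - θ - t)) 0 1
  have i3 : IntervalIntegrable (fun t : ℝ =>
      2 * (((XX m (rot k0 s) 0 (t - θ) : ℝ) - ff m (t - θ)) ^ 2 +
        ((XX m (rot k0 (rcp s)) 0 (1 - θ - t) : ℝ) - ff m (1 - θ - t)) ^ 2)) volume 0 1 :=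
    (i1.add i2).const_mul 2
  have h := intervalIntegral.integral_mono_on (by norm_num : (0 : ℝ) ≤ 1) (ii_dev m s j 0 1)
    (i3.add (intervalIntegrable_const (c := 8 * ((m : ℝ) * θ) ^ 2))) key
  rw [intervalIntegral.integral_add i3 intervalIntegrable_const,
    intervalIntegral.integral_const_mul, intervalIntegral.integral_add i1 i2,
    intervalIntegral.integral_const, ← II_eq] at h
  have j1 : ∫ t in (0 : ℝ)..1, ((XX m (rot k0 s) 0 (t - θ) : ℝ) - ff m (t - θ)) ^ 2 =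
      ∫ u in (-θ)..(1 - θ), ((XX m (rot k0 s) 0 u : ℝ) - ff m u) ^ 2 := by
    rw [intervalIntegral.integral_comp_sub_right
      (fun u : ℝ => ((XX m (rot k0 s) 0 u : ℝ) - ff m u) ^ 2) θ, zero_sub]
  have j2 : ∫ t in (0 : ℝ)..1,
      ((XX m (rot k0 (rcp s)) 0 (1 - θ - t) : ℝ) - ff m (1 - θ - t)) ^ 2 =
      ∫ u in (-θ)..(1 - θ), ((XX m (rot k0 (rcp s)) 0 u : ℝ) - ff m u) ^ 2 := by
    rw [intervalIntegral.integral_comp_sub_left
      (fun u : ℝ => ((XX m (rot k0 (rcp s)) 0 u : ℝ) - ff m u) ^ 2) (1 - θ), sub_zero]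
    congr 1
    ring
  have s1 := shift_le m (rot k0 s) hθ0 hθ1
  have s2 := shift_le m (rot k0 (rcp s)) hθ0 hθ1
  rw [j1, j2] at h
  have h9 : (1 - 0 : ℝ) • (8 * ((m : ℝ) * θ) ^ 2) = 8 * ((m : ℝ) * θ) ^ 2 := by
    rw [sub_zero, one_smul]
  rw [h9] at h
  linarith

theorem sum_compare {m : ℕ} (k0 : ℕ) :
    ∑ s ∈ Val m, (2 * (II m (rot k0 s) 0 + II m (rot k0 (rcp s)) 0)) ≤
      620 * m * (Val m).card := by
  have h1 := sum_rot k0 (fun s => II m s 0) (m := m)
  have h2 := sum_rc (fun s => II m (rot k0 s) 0) (m := m)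
  have h3 := sum_II_zero m
  rw [← Finset.mul_sum, Finset.sum_add_distrib, h2, h1]
  linarith

/-! ### The passage times -/

theorem arccos_le_sqrt {z : ℝ} (h0 : 0 ≤ z) (h1 : z ≤ 1) :
    Real.arccos (1 - 2 * z ^ 2) ≤ Real.pi * z := by
  have hpi := Real.pi_pos
  have h2 : Real.cos (Real.pi * z) ≤ 1 - 2 * z ^ 2 := by
    have h3 : Real.cos (Real.pi * z) = 1 - 2 * Real.sin (Real.pi * z / 2) ^ 2 := by
      have h5 := Real.cos_two_mul (Real.pi * z / 2)
      have h4 := Real.sin_sq_add_cos_sq (Real.pi * z / 2)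
      rw [show 2 * (Real.pi * z / 2) = Real.pi * z by ring] at h5
      linarith
    have h4 := Real.mul_le_sin (x := Real.pi * z / 2) (by positivity) (by nlinarith)
    have h5 : 2 / Real.pi * (Real.pi * z / 2) = z := by
      field_simp
    rw [h5] at h4
    rw [h3]
    nlinarith
  calc Real.arccos (1 - 2 * z ^ 2) ≤ Real.arccos (Real.cos (Real.pi * z)) :=
        Real.arccos_le_arccos h2
    _ = Real.pi * z := Real.arccos_cos (by positivity) (by nlinarith)

theorem tau_le_sqrt {m j : ℕ} (hm : 1 ≤ m) (hj : j ≤ m) :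
    (tau (m + 1) j : ℝ) ≤ 3 * Real.sqrt (j / m) := by
  have hm' : (1 : ℝ) ≤ m := by exact_mod_cast hm
  rcases Nat.eq_zero_or_pos j with rfl | hj1
  · have h2 : tau (m + 1) 0 = 0 := Finset.sum_range_zero _
    rw [h2, Rat.cast_zero]
    positivity
  · have hj1' : (1 : ℝ) ≤ j := by exact_mod_cast hj1
    have hjm : (j : ℝ) ≤ m := by exact_mod_cast hj
    have h1 := (abs_le.1 (tau_arcsine hj1 hj)).2
    have h2 : Real.arccos (1 - (2 * j - 1) / m) / Real.pi ≤ Real.sqrt (j / m) := by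
      set z := Real.sqrt (j / m) with hz
      have hz0 : 0 ≤ z := Real.sqrt_nonneg _
      have hz2 : z ^ 2 = j / m := Real.sq_sqrt (by positivity)
      have hz1 : z ≤ 1 := by
        rw [hz, Real.sqrt_le_one, div_le_one (by linarith)]
        exact hjm
      rw [div_le_iff₀ Real.pi_pos, mul_comm z]
      refine le_trans (Real.arccos_le_arccos ?_) (arccos_le_sqrt hz0 hz1)
      rw [hz2]
      have h3 : (2 * (j : ℝ) - 1) / m ≤ 2 * (j / m) := by
        rw [← mul_div_assoc]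
        refine div_le_div_of_nonneg_right (by linarith) (by linarith)
      linarith
    have h3 : 2 / Real.sqrt m ≤ 2 * Real.sqrt (j / m) := by
      rw [Real.sqrt_div (by linarith), ← mul_div_assoc]
      refine div_le_div_of_nonneg_right ?_ (Real.sqrt_nonneg _)
      have h4 : 1 ≤ Real.sqrt j := by
        rw [Real.one_le_sqrt]
        exact hj1'
      linarith
    linarith

open Classical in
/-- The Chebyshev inequality for the passage times. -/
theorem card_late {m j k0 : ℕ} (hm : 1 ≤ m) (hj : j ≤ m) {δ : ℝ} (hδ : 0 < δ)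
    (hk : ((((m + 1) * m / 2 : ℕ) : ℝ) + 1) * ((tau (m + 1) j : ℝ) + δ) ≤ (k0 : ℝ) + 1) :
    ((((Val m).filter (fun s => k0 < Tm m s j)).card : ℕ) : ℝ) ≤
      1 / (m * δ ^ 2) * (Val m).card := by
  have hm' : (1 : ℝ) ≤ m := by exact_mod_cast hm
  have hN := NN_two m
  have h3 := var_Tm_le (m := m) (p := j) (by omega)
  have h3r := (Rat.cast_le (K := ℝ)).2 h3
  push_cast at h3r
  set N : ℝ := (((m + 1) * m / 2 : ℕ) : ℝ) with hNdef
  have hN1 : 1 ≤ N := by nlinarith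
  set τ := (tau (m + 1) j : ℝ)
  have h4 : ∑ s ∈ (Val m).filter (fun s => k0 < Tm m s j), ((N + 1) * δ) ^ 2 ≤
      ∑ s ∈ Val m, ((Tm m s j : ℝ) - (N + 1) * τ) ^ 2 := by
    refine (Finset.sum_le_sum (fun s hs => ?_)).trans
      (Finset.sum_le_sum_of_subset_of_nonneg (Finset.filter_subset _ _)
        fun _ _ _ => sq_nonneg _)
    rw [Finset.mem_filter] at hs
    have h5 : (k0 : ℝ) + 1 ≤ (Tm m s j : ℝ) := by exact_mod_cast hs.2
    have h6 : (N + 1) * δ ≤ (Tm m s j : ℝ) - (N + 1) * τ := by nlinarith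
    exact pow_le_pow_left₀ (by positivity) h6 2
  rw [Finset.sum_const, nsmul_eq_mul] at h4
  have h5 := h4.trans h3r
  set c : ℝ := ((((Val m).filter (fun s => k0 < Tm m s j)).card : ℕ) : ℝ)
  set V : ℝ := ((Val m).card : ℝ)
  have hV : 0 ≤ V := by positivity
  have h6 : (N + 1) * (N + 2) / (2 * (m : ℝ) + 1) * V ≤ (N + 1) ^ 2 / m * V := by
    refine mul_le_mul_of_nonneg_right ?_ hV
    rw [div_le_div_iff₀ (by positivity) (by positivity)]
    nlinarith [mul_nonneg (by positivity : (0 : ℝ) ≤ N + 1) (by positivity : (0 : ℝ) ≤ (m : ℝ))]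
  have h7 : c * ((N + 1) * δ) ^ 2 ≤ (N + 1) ^ 2 / m * V := h5.trans h6
  have h8 : 0 < (N + 1) ^ 2 := by positivity
  have h9 : c * δ ^ 2 ≤ V / m := by
    have e1 : (N + 1) ^ 2 * (c * δ ^ 2) ≤ (N + 1) ^ 2 * (V / m) := by
      calc (N + 1) ^ 2 * (c * δ ^ 2) = c * ((N + 1) * δ) ^ 2 := by ring
        _ ≤ (N + 1) ^ 2 / m * V := h7
        _ = (N + 1) ^ 2 * (V / m) := by ring
    exact le_of_mul_le_mul_left e1 h8
  have h10 : 0 < δ ^ 2 := by positivity
  rw [div_mul_eq_mul_div, one_mul, le_div_iff₀ (by positivity)]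
  rw [le_div_iff₀ (by positivity)] at h9
  calc c * (m * δ ^ 2) = c * δ ^ 2 * m := by ring
    _ ≤ V := h9

end Pool.Agent.SortNet
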