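import Pool.Agent.Work.MP_aee03d_pr.Basic

/-!
# Marked reduced words and insertion of strands (module MARK)
-/

namespace Pool.Agent.SortNet

open Equiv

open Classical in
/-- The number of pairs (word of `v` as in `R`, prefix) such that after the prefix the label at
the position `0` is `c`. -/
noncomputable def mkA (c : ℤ) : ℕ → Perm ℤ → ℕ
  | 0, v => if v 0 = c then R 0 v else 0
  | k + 1, v => (if v 0 = c then R (k + 1) v else 0) + ∑ i ∈ desc v, mkA c k (v * sw i)

open Classical in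
/-- The same, where the prefix of length `t` has the weight `t + 1`. -/
noncomputable def mkC (c : ℤ) : ℕ → Perm ℤ → ℕ
  | 0, v => if v 0 = c then R 0 v else 0
  | k + 1, v => (if v 0 = c then (k + 2) * R (k + 1) v else 0) +
      ∑ i ∈ desc v, mkC c k (v * sw i)

theorem nonneg_of_fix {v : Perm ℤ} (hv : ∀ x, x < 0 → v x = x) {x : ℤ} (hx : 0 ≤ x) :
    0 ≤ v x := by
  by_contra hcon
  push Not at hcon
  have h1 := hv (v x) hcon
  have h2 := v.injective h1
  omega

theorem inv_fix {v : Perm ℤ} (hv : ∀ x, x < 0 → v x = x) {x : ℤ} (hx : x < 0) :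
    v⁻¹ x = x := by
  conv_lhs => rw [← hv x hx]
  exact inv_apply _ _

theorem inv_nonneg_of_fix {v : Perm ℤ} (hv : ∀ x, x < 0 → v x = x) {x : ℤ} (hx : 0 ≤ x) :
    0 ≤ v⁻¹ x := by
  by_contra hcon
  push Not at hcon
  have h1 := hv _ hcon
  rw [apply_inv] at h1
  omega

theorem desc_nonneg {v : Perm ℤ} (h : FS v) (hv : ∀ x, x < 0 → v x = x) {i : ℤ}
    (hi : i ∈ desc v) : 0 ≤ i := by
  rw [mem_desc h] at hi
  by_contra hcon
  push Not at hcon
  rw [hv i hcon] at hi
  rcases (show i + 1 < 0 ∨ i + 1 = 0 by omega) with h1 | h1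
  · rw [hv _ h1] at hi
    omega
  · have := nonneg_of_fix hv (x := i + 1) (by omega)
    omega

theorem fix_mul_sw {v : Perm ℤ} (hv : ∀ x, x < 0 → v x = x) {i : ℤ} (hi : 0 ≤ i) :
    ∀ x, x < 0 → (v * sw i) x = x := by
  intro x hx
  rw [Perm.mul_apply, sw_apply_of_ne (by omega) (by omega), hv x hx]

/-! ### A commuting letter -/

theorem comm_apply_of_nonneg {v : Perm ℤ} (hv : ∀ x, x < 0 → v x = x) {x : ℤ} (hx : 0 ≤ x) :
    (swap (-2) (-1) * v : Perm ℤ) x = v x := by
  have := nonneg_of_fix hv hx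
  rw [Perm.mul_apply, swap_apply_of_ne_of_ne (by omega) (by omega)]

theorem R_zero_comm {v : Perm ℤ} (hv : ∀ x, x < 0 → v x = x) :
    R 0 (swap (-2) (-1) * v) = 0 := by
  classical
  rw [R_zero, if_neg]
  intro h
  have h1 : (swap (-2) (-1) * v : Perm ℤ) (-2) = -2 := by
    rw [h]
    rfl
  rw [Perm.mul_apply, hv (-2) (by omega), swap_apply_left] at h1
  omega

theorem desc_comm {v : Perm ℤ} (h : FS v) (hv : ∀ x, x < 0 → v x = x) :
    desc (swap (-2) (-1) * v) = insert (-2) (desc v) := by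
  ext i
  rw [mem_desc ((FS.swap _ _).mul h), Finset.mem_insert, mem_desc h]
  have e1 : (swap (-2) (-1) * v : Perm ℤ) (-2) = -1 := by
    rw [Perm.mul_apply, hv (-2) (by omega), swap_apply_left]
  have e2 : (swap (-2) (-1) * v : Perm ℤ) (-1) = -2 := by
    rw [Perm.mul_apply, hv (-1) (by omega), swap_apply_right]
  have e3 : ∀ x, x < -2 → (swap (-2) (-1) * v : Perm ℤ) x = x := by
    intro x hx
    rw [Perm.mul_apply, hv x (by omega), swap_apply_of_ne_of_ne (by omega) (by omega)]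
  rcases (show i < -3 ∨ i = -3 ∨ i = -2 ∨ i = -1 ∨ 0 ≤ i by omega) with h1 | h1 | h1 | h1 | h1
  · rw [e3 i (by omega), e3 (i + 1) (by omega), hv i (by omega), hv (i + 1) (by omega)]
    omega
  · subst h1
    rw [show (-3 : ℤ) + 1 = -2 by norm_num, e1, e3 (-3) (by omega), hv (-2) (by omega),
      hv (-3) (by omega)]
    omega
  · subst h1
    rw [show (-2 : ℤ) + 1 = -1 by norm_num, e1, e2, hv (-2) (by omega),
      hv (-1) (by omega)]
    omega
  · subst h1
    have h2 := nonneg_of_fix hv (x := 0) le_rfl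
    rw [show (-1 : ℤ) + 1 = 0 by norm_num, e2, comm_apply_of_nonneg hv le_rfl,
      hv (-1) (by omega)]
    omega
  · rw [comm_apply_of_nonneg hv h1, comm_apply_of_nonneg hv (by omega)]
    omega

theorem comm_mul_sw {v : Perm ℤ} (hv : ∀ x, x < 0 → v x = x) :
    swap (-2) (-1) * v * sw (-2) = v := by
  have h1 : v * swap (-2) (-1) = swap (-2) (-1) * v := by
    rw [Equiv.mul_swap_eq_swap_mul, hv (-2) (by omega), hv (-1) (by omega)]
  show swap (-2) (-1) * v * swap (-2) (-1) = v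
  rw [mul_assoc, h1, ← mul_assoc, swap_mul_self, one_mul]

theorem notMem_desc {v : Perm ℤ} (h : FS v) (hv : ∀ x, x < 0 → v x = x) {i : ℤ} (hi : i < 0) :
    i ∉ desc v := fun h1 => by
  have := desc_nonneg h hv h1
  omega

/-- A commuting letter. -/
theorem R_commuting {v : Perm ℤ} (h : FS v) (hv : ∀ x, x < 0 → v x = x) (k : ℕ) :
    R (k + 1) (swap (-2) (-1) * v) = (k + 1) * R k v := by
  induction k generalizing v with
  | zero =>
    rw [R_succ, desc_comm h hv, Finset.sum_insert (notMem_desc h hv (by omega)), comm_mul_sw hv,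
      Finset.sum_eq_zero]
    · ring
    · intro i hi
      rw [mul_assoc]
      exact R_zero_comm (fix_mul_sw hv (desc_nonneg h hv hi))
  | succ k ih =>
    rw [R_succ, desc_comm h hv, Finset.sum_insert (notMem_desc h hv (by omega)), comm_mul_sw hv]
    have e1 : ∑ i ∈ desc v, R (k + 1) (swap (-2) (-1) * v * sw i) =
        ∑ i ∈ desc v, (k + 1) * R k (v * sw i) := by
      refine Finset.sum_congr rfl fun i hi => ?_
      rw [mul_assoc]
      exact ih (h.mul (FS.sw i)) (fix_mul_sw hv (desc_nonneg h hv hi))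
    rw [e1, ← Finset.mul_sum, ← R_succ]
    ring

/-! ### Inserted strands -/

/-- No marks if a smaller label is to the left of `c`. -/
theorem mk_zero {c x : ℤ} (hx0 : 0 ≤ x) (hxc : x < c) (k : ℕ) {v : Perm ℤ} (h : FS v)
    (hv : ∀ x, x < 0 → v x = x) (hlt : v⁻¹ x < v⁻¹ c) : mkA c k v = 0 ∧ mkC c k v = 0 := by
  induction k generalizing v with
  | zero =>
    have h1 := inv_nonneg_of_fix hv hx0
    have h2 : v 0 ≠ c := by
      rintro rfl
      rw [inv_apply] at hlt
      omega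
    unfold mkA mkC
    rw [if_neg h2]
    exact ⟨rfl, rfl⟩
  | succ k ih =>
    have h1 := inv_nonneg_of_fix hv hx0
    have h2 : v 0 ≠ c := by
      rintro rfl
      rw [inv_apply] at hlt
      omega
    have h3 : ∀ i ∈ desc v, mkA c k (v * sw i) = 0 ∧ mkC c k (v * sw i) = 0 := by
      intro i hi
      refine ih (h.mul (FS.sw i)) (fix_mul_sw hv (desc_nonneg h hv hi)) ?_
      have e1 : ∀ y, (v * sw i)⁻¹ y = sw i (v⁻¹ y) := by
        intro y
        rw [mul_inv_rev, sw_inv]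
        rfl
      rw [e1, e1]
      rw [mem_desc h] at hi
      have h4 : ¬ (v⁻¹ x = i ∧ v⁻¹ c = i + 1) := by
        rintro ⟨h5, h6⟩
        rw [← h6, ← h5, apply_inv, apply_inv] at hi
        omega
      unfold sw
      rw [swap_apply_def, swap_apply_def]
      split_ifs <;> omega
    unfold mkA mkC
    rw [if_neg h2, if_neg h2, Finset.sum_eq_zero fun i hi => (h3 i hi).1,
      Finset.sum_eq_zero fun i hi => (h3 i hi).2]
    exact ⟨rfl, rfl⟩

/-- The class of permutations to which strands are inserted at the label `c`. -/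
structure Cl (c : ℤ) (v : Perm ℤ) : Prop where
  fs : FS v
  fix : ∀ x, x < 0 → v x = x
  left : ∀ x, 0 ≤ x → x < c → v⁻¹ c < v⁻¹ x

namespace Cl

variable {c : ℤ} {v : Perm ℤ}

theorem mul_sw (h : Cl c v) {i : ℤ} (hi : i ∈ desc v) (hiq : i ≠ v⁻¹ c) : Cl c (v * sw i) := by
  refine ⟨h.fs.mul (FS.sw i), fix_mul_sw h.fix (desc_nonneg h.fs h.fix hi), ?_⟩
  intro x hx0 hxc
  have e1 : ∀ y, (v * sw i)⁻¹ y = sw i (v⁻¹ y) := by
    intro y
    rw [mul_inv_rev, sw_inv]
    rfl
  rw [e1, e1]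
  have h1 := h.left x hx0 hxc
  unfold sw
  rw [swap_apply_def, swap_apply_def]
  split_ifs <;> omega

theorem pos (h : Cl c v) (hc : 0 ≤ c) : 0 ≤ v⁻¹ c := inv_nonneg_of_fix h.fix hc

/-- The labels to the left of `c` are larger. -/
theorem lt_of_lt (h : Cl c v) {x : ℤ} (hx0 : 0 ≤ x) (hx : x < v⁻¹ c) : c < v x := by
  by_contra hcon
  push Not at hcon
  have h1 := nonneg_of_fix h.fix hx0
  rcases hcon.lt_or_eq with h2 | h2
  · have h3 := h.left (v x) h1 h2
    rw [inv_apply] at h3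
    omega
  · rw [← h2, inv_apply] at hx
    omega

theorem zero_iff (_h : Cl c v) : v 0 = c ↔ v⁻¹ c = 0 := by
  constructor
  · intro h1
    rw [← h1, inv_apply]
  · intro h1
    rw [← h1, apply_inv]

end Cl

theorem ins_neg_one {c : ℤ} {v : Perm ℤ} (h : Cl c v) : (swap (-1) c * v) (-1) = c := by
  rw [Perm.mul_apply, h.fix (-1) (by omega), swap_apply_left]

theorem ins_pos {c : ℤ} (v : Perm ℤ) : (swap (-1) c * v) (v⁻¹ c) = -1 := by
  rw [Perm.mul_apply, apply_inv, swap_apply_right]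

theorem ins_of_nonneg {c : ℤ} {v : Perm ℤ} (h : Cl c v) {x : ℤ} (hx : 0 ≤ x)
    (hxq : x ≠ v⁻¹ c) : (swap (-1) c * v) x = v x := by
  have h1 := nonneg_of_fix h.fix hx
  have h2 : v x ≠ c := by
    intro h2
    apply hxq
    rw [← h2, inv_apply]
  rw [Perm.mul_apply, swap_apply_of_ne_of_ne (by omega) h2]

theorem ins_of_neg {c : ℤ} (hc : 0 ≤ c) {v : Perm ℤ} (h : Cl c v) {x : ℤ} (hx : x < -1) :
    (swap (-1) c * v) x = x := by
  rw [Perm.mul_apply, h.fix x (by omega), swap_apply_of_ne_of_ne (by omega) (by omega)]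

theorem mem_desc_ins {c : ℤ} (hc : 0 ≤ c) {v : Perm ℤ} (h : Cl c v) (i : ℤ) :
    i ∈ desc (swap (-1) c * v) ↔ (i = -1 ∧ v 0 = c) ∨ (i ∈ desc v ∧ i ≠ v⁻¹ c) := by
  rw [mem_desc ((FS.swap _ _).mul h.fs), h.zero_iff]
  have hq := h.pos hc
  rcases (show i < -2 ∨ i = -2 ∨ i = -1 ∨ 0 ≤ i by omega) with h1 | h1 | h1 | h1
  · rw [ins_of_neg hc h (x := i) (by omega), ins_of_neg hc h (x := i + 1) (by omega)]
    have := notMem_desc h.fs h.fix (i := i) (by omega)
    constructor
    · intro h2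
      omega
    · rintro (⟨h2, -⟩ | ⟨h2, -⟩)
      · omega
      · exact absurd h2 this
  · subst h1
    rw [show (-2 : ℤ) + 1 = -1 by norm_num, ins_neg_one h,
      ins_of_neg hc h (x := -2) (by omega)]
    have := notMem_desc h.fs h.fix (i := -2) (by omega)
    constructor
    · intro h2
      omega
    · rintro (⟨h2, -⟩ | ⟨h2, -⟩)
      · omega
      · exact absurd h2 this
  · subst h1
    rw [show (-1 : ℤ) + 1 = 0 by norm_num, ins_neg_one h]
    have h3 := notMem_desc h.fs h.fix (i := -1) (by omega)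
    by_cases h4 : v⁻¹ c = 0
    · have h5 := ins_pos (c := c) v
      rw [h4] at h5
      rw [h5, h4]
      constructor
      · intro _
        exact Or.inl ⟨rfl, rfl⟩
      · intro _
        omega
    · rw [ins_of_nonneg h le_rfl (Ne.symm h4)]
      have h5 := h.lt_of_lt le_rfl (by omega)
      constructor
      · intro h6
        omega
      · rintro (⟨-, h2⟩ | ⟨h2, -⟩)
        · exact absurd h2 h4
        · exact absurd h2 h3
  · rw [mem_desc h.fs]
    by_cases h2 : i = v⁻¹ c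
    · have h3 : (swap (-1) c * v) i = -1 := by rw [h2, ins_pos]
      rw [h3, ins_of_nonneg h (x := i + 1) (by omega) (by omega)]
      have h4 := nonneg_of_fix h.fix (x := i + 1) (by omega)
      constructor
      · intro h5
        omega
      · rintro (⟨h5, -⟩ | ⟨-, h5⟩)
        · omega
        · exact absurd h2 h5
    · rw [ins_of_nonneg h h1 h2]
      by_cases h3 : i + 1 = v⁻¹ c
      · have h4 : (swap (-1) c * v) (i + 1) = -1 := by rw [h3, ins_pos]
        have h5 : v (i + 1) = c := by rw [h3, apply_inv]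
        have h6 := nonneg_of_fix h.fix h1
        have h7 := h.lt_of_lt h1 (by omega)
        rw [h4, h5]
        constructor
        · intro _
          exact Or.inr ⟨h7, h2⟩
        · intro _
          omega
      · rw [ins_of_nonneg h (x := i + 1) (by omega) h3]
        constructor
        · intro h4
          exact Or.inr ⟨h4, h2⟩
        · rintro (⟨h5, -⟩ | ⟨h5, -⟩)
          · omega
          · exact h5

theorem ins_mul_sw {c : ℤ} {v : Perm ℤ} (h : Cl c v) (h0 : v 0 = c) :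
    swap (-1) c * v * sw (-1) = v := by
  have h1 : v * swap (-1) 0 = swap (-1) c * v := by
    rw [Equiv.mul_swap_eq_swap_mul, h.fix (-1) (by omega), h0]
  show swap (-1) c * v * swap (-1) 0 = v
  rw [mul_assoc, h1, ← mul_assoc, swap_mul_self, one_mul]

/-- A sum over the descents after insertion. -/
theorem sum_desc_ins {c : ℤ} {v : Perm ℤ} (h : Cl c v) (f : ℤ → ℕ) {u : Perm ℤ}
    (hu : ∀ i, i ∈ desc u ↔ (i = -1 ∧ v 0 = c) ∨ (i ∈ desc v ∧ i ≠ v⁻¹ c)) :
    ∑ i ∈ desc u, f i = (if v 0 = c then f (-1) else 0) +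
      ∑ i ∈ (desc v).erase (v⁻¹ c), f i := by
  by_cases h0 : v 0 = c
  · have e1 : desc u = insert (-1) ((desc v).erase (v⁻¹ c)) := by
      ext i
      rw [hu, Finset.mem_insert, Finset.mem_erase]
      constructor
      · rintro (⟨h1, -⟩ | ⟨h1, h2⟩)
        · exact Or.inl h1
        · exact Or.inr ⟨h2, h1⟩
      · rintro (h1 | ⟨h1, h2⟩)
        · exact Or.inl ⟨h1, h0⟩
        · exact Or.inr ⟨h2, h1⟩
    rw [e1, Finset.sum_insert, if_pos h0]
    intro h1
    exact notMem_desc h.fs h.fix (by omega) (Finset.mem_of_mem_erase h1)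
  · have e1 : desc u = (desc v).erase (v⁻¹ c) := by
      ext i
      rw [hu, Finset.mem_erase]
      constructor
      · rintro (⟨-, h1⟩ | ⟨h1, h2⟩)
        · exact absurd h1 h0
        · exact ⟨h2, h1⟩
      · rintro ⟨h1, h2⟩
        exact Or.inr ⟨h2, h1⟩
    rw [e1, if_neg h0, zero_add]

/-- The exceptional descent does not contribute. -/
theorem mk_zero_descent {c : ℤ} (hc : 0 ≤ c) {v : Perm ℤ} (h : Cl c v)
    (hq : v⁻¹ c ∈ desc v) (k : ℕ) :
    mkA c k (v * sw (v⁻¹ c)) = 0 ∧ mkC c k (v * sw (v⁻¹ c)) = 0 := by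
  have hpos := h.pos hc
  have h1 := (mem_desc h.fs _).1 hq
  rw [apply_inv] at h1
  refine mk_zero (x := v (v⁻¹ c + 1)) (nonneg_of_fix h.fix (by omega)) h1 k
    (h.fs.mul (FS.sw _)) (fix_mul_sw h.fix hpos) ?_
  have e1 : ∀ y, (v * sw (v⁻¹ c))⁻¹ y = sw (v⁻¹ c) (v⁻¹ y) := by
    intro y
    rw [mul_inv_rev, sw_inv]
    rfl
  rw [e1, e1, inv_apply, sw_apply_left, sw_apply_right]
  omega

theorem sum_erase_eq {c : ℤ} (v : Perm ℤ) (f : ℤ → ℕ)
    (hf : v⁻¹ c ∈ desc v → f (v⁻¹ c) = 0) :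
    ∑ i ∈ (desc v).erase (v⁻¹ c), f i = ∑ i ∈ desc v, f i := by
  by_cases h : v⁻¹ c ∈ desc v
  · rw [← Finset.add_sum_erase _ _ h, hf h, zero_add]
  · rw [Finset.erase_eq_of_notMem h]

/-- One strand inserted. -/
theorem R_insert {v : Perm ℤ} (h : FS v) (hv : ∀ x, x < 0 → v x = x) {c : ℤ} (hc : 0 ≤ c)
    (hleft : ∀ x, 0 ≤ x → x < c → v⁻¹ c < v⁻¹ x) (k : ℕ) :
    R (k + 1) (swap (-1) c * v) = mkA c k v := by
  have hcl : Cl c v := ⟨h, hv, hleft⟩
  clear h hv hleft
  induction k generalizing v with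
  | zero =>
    rw [R_succ, sum_desc_ins hcl _ (mem_desc_ins hc hcl), Finset.sum_eq_zero, add_zero]
    · unfold mkA
      by_cases h0 : v 0 = c
      · rw [if_pos h0, if_pos h0, ins_mul_sw hcl h0]
      · rw [if_neg h0, if_neg h0]
    · intro i hi
      classical
      have hi' := Finset.mem_erase.1 hi
      have hcl' := hcl.mul_sw hi'.2 hi'.1
      rw [R_zero, if_neg]
      intro h1
      have h2 := ins_neg_one hcl'
      rw [← mul_assoc, h1] at h2
      have h3 : (1 : Perm ℤ) (-1) = -1 := rfl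
      omega
  | succ k ih =>
    rw [R_succ, sum_desc_ins hcl _ (mem_desc_ins hc hcl)]
    have e1 : ∑ i ∈ (desc v).erase (v⁻¹ c), R (k + 1) (swap (-1) c * v * sw i) =
        ∑ i ∈ (desc v).erase (v⁻¹ c), mkA c k (v * sw i) := by
      refine Finset.sum_congr rfl fun i hi => ?_
      have hi' := Finset.mem_erase.1 hi
      rw [mul_assoc]
      exact ih (hcl.mul_sw hi'.2 hi'.1)
    rw [e1, sum_erase_eq v (fun i => mkA c k (v * sw i))
      fun hq => (mk_zero_descent hc hcl hq k).1]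
    conv_rhs => unfold mkA
    by_cases h0 : v 0 = c
    · rw [if_pos h0, if_pos h0, ins_mul_sw hcl h0]
    · rw [if_neg h0, if_neg h0]

theorem two_of_nonneg {c : ℤ} {v : Perm ℤ} (h : Cl c v) {x : ℤ} (hx : 0 ≤ x)
    (hxq : x ≠ v⁻¹ c) : (swap (-2) (-1) * (swap (-1) c * v) : Perm ℤ) x = v x := by
  have h1 := nonneg_of_fix h.fix hx
  rw [Perm.mul_apply, ins_of_nonneg h hx hxq, swap_apply_of_ne_of_ne (by omega) (by omega)]

theorem mem_desc_two {c : ℤ} (hc : 0 ≤ c) {v : Perm ℤ} (h : Cl c v) (i : ℤ) :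
    i ∈ desc (swap (-2) (-1) * (swap (-1) c * v)) ↔
      (i = -1 ∧ v 0 = c) ∨ (i ∈ desc v ∧ i ≠ v⁻¹ c) := by
  rw [← mem_desc_ins hc h, mem_desc ((FS.swap _ _).mul ((FS.swap _ _).mul h.fs)),
    mem_desc ((FS.swap _ _).mul h.fs)]
  have hq := h.pos hc
  generalize hu : swap (-1) c * v = u
  have u1 : u (-1) = c := by
    rw [← hu]
    exact ins_neg_one h
  have u2 : u (v⁻¹ c) = -1 := by
    rw [← hu]
    exact ins_pos v
  have u3 : ∀ x, 0 ≤ x → x ≠ v⁻¹ c → u x = v x ∧ 0 ≤ v x := by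
    intro x hx hxq
    rw [← hu]
    exact ⟨ins_of_nonneg h hx hxq, nonneg_of_fix h.fix hx⟩
  have u4 : ∀ x, x < -1 → u x = x := by
    intro x hx
    rw [← hu]
    exact ins_of_neg hc h hx
  have key : ∀ x y, u x ≠ u y → ¬ (u x = -2 ∧ u y = -1) → ¬ (u x = -1 ∧ u y = -2) →
      (swap (-2) (-1) (u x) < swap (-2) (-1) (u y) ↔ u x < u y) := by
    intro x y h1 h2 h3
    rw [swap_apply_def, swap_apply_def]
    split_ifs <;> omega
  have hne : u (i + 1) ≠ u i := fun h1 => by
    have := u.injective h1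
    omega
  refine key (i + 1) i hne ?_ ?_
  · rintro ⟨h1, h2⟩
    have e1 : i + 1 = -2 := u.injective (by rw [h1, u4 (-2) (by omega)])
    have e2 : i = v⁻¹ c := u.injective (by rw [h2, u2])
    omega
  · rintro ⟨h1, h2⟩
    have e1 : i = -2 := u.injective (by rw [h2, u4 (-2) (by omega)])
    have e2 : i + 1 = v⁻¹ c := u.injective (by rw [h1, u2])
    omega

theorem two_neg_two {c : ℤ} (hc : 0 ≤ c) {v : Perm ℤ} (h : Cl c v) :
    (swap (-2) (-1) * (swap (-1) c * v) : Perm ℤ) (-2) = -1 := by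
  rw [Perm.mul_apply, ins_of_neg hc h (by omega), swap_apply_left]

theorem R_one_two {c : ℤ} (hc : 0 ≤ c) {v : Perm ℤ} (h : Cl c v) :
    R 1 (swap (-2) (-1) * (swap (-1) c * v)) = 0 := by
  rw [R_succ, sum_desc_ins h _ (mem_desc_two hc h), Finset.sum_eq_zero, add_zero]
  · by_cases h0 : v 0 = c
    · rw [if_pos h0, mul_assoc, ins_mul_sw h h0]
      exact R_zero_comm h.fix
    · rw [if_neg h0]
  · intro i hi
    classical
    have hi' := Finset.mem_erase.1 hi
    have hcl' := h.mul_sw hi'.2 hi'.1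
    rw [R_zero, if_neg]
    intro h1
    have h2 := two_neg_two hc hcl'
    rw [← mul_assoc (swap (-1) c), ← mul_assoc, h1] at h2
    have h3 : (1 : Perm ℤ) (-2) = -2 := rfl
    omega

/-- Two strands inserted. -/
theorem R_insert_two {v : Perm ℤ} (h : FS v) (hv : ∀ x, x < 0 → v x = x) {c : ℤ} (hc : 0 ≤ c)
    (hleft : ∀ x, 0 ≤ x → x < c → v⁻¹ c < v⁻¹ x) (k : ℕ) :
    R (k + 2) (swap (-2) (-1) * (swap (-1) c * v)) = mkC c k v := by
  have hcl : Cl c v := ⟨h, hv, hleft⟩
  clear h hv hleft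
  induction k generalizing v with
  | zero =>
    rw [R_succ, sum_desc_ins hcl _ (mem_desc_two hc hcl), Finset.sum_eq_zero, add_zero]
    · unfold mkC
      by_cases h0 : v 0 = c
      · rw [if_pos h0, if_pos h0, mul_assoc, ins_mul_sw hcl h0, R_commuting hcl.fs hcl.fix]
        ring
      · rw [if_neg h0, if_neg h0]
    · intro i hi
      have hi' := Finset.mem_erase.1 hi
      have hcl' := hcl.mul_sw hi'.2 hi'.1
      have h1 := R_one_two hc hcl'
      rwa [← mul_assoc (swap (-1) c), ← mul_assoc] at h1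
  | succ k ih =>
    rw [R_succ, sum_desc_ins hcl _ (mem_desc_two hc hcl)]
    have e1 : ∑ i ∈ (desc v).erase (v⁻¹ c),
        R (k + 2) (swap (-2) (-1) * (swap (-1) c * v) * sw i) =
        ∑ i ∈ (desc v).erase (v⁻¹ c), mkC c k (v * sw i) := by
      refine Finset.sum_congr rfl fun i hi => ?_
      have hi' := Finset.mem_erase.1 hi
      rw [mul_assoc, mul_assoc]
      exact ih (hcl.mul_sw hi'.2 hi'.1)
    rw [e1, sum_erase_eq v (fun i => mkC c k (v * sw i))
      fun hq => (mk_zero_descent hc hcl hq k).2]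
    conv_rhs => unfold mkC
    by_cases h0 : v 0 = c
    · rw [if_pos h0, if_pos h0, mul_assoc, ins_mul_sw hcl h0, R_commuting hcl.fs hcl.fix]
    · rw [if_neg h0, if_neg h0]

end Pool.Agent.SortNet
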