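import Mathlib

/-!
# A deterministic estimate for increasing step functions (module PATH)
-/

namespace Pool.Agent.SortNet

open Finset MeasureTheory

namespace PathE

/-- distinct naturals -/
theorem sum_ge (s : Finset ℕ) : (s.card : ℝ) * ((s.card : ℝ) - 1) ≤ 2 * ∑ x ∈ s, (x : ℝ) := by
  induction s using Finset.strongInduction with
  | H s ih =>
    rcases s.eq_empty_or_nonempty with rfl | hne
    · simp
    · set a := s.max' hne with ha
      have ha_mem : a ∈ s := s.max'_mem hne
      have h1 := ih (s.erase a) (erase_ssubset ha_mem)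
      have h2 : (s.erase a).card = s.card - 1 := card_erase_of_mem ha_mem
      have hc : 1 ≤ s.card := hne.card_pos
      have h3 : s.card ≤ a + 1 := by
        have : s ⊆ range (a + 1) := by
          intro x hx
          rw [mem_range]
          have := s.le_max' x hx
          omega
        simpa using card_le_card this
      have h4 : ∑ x ∈ s, (x : ℝ) = a + ∑ x ∈ s.erase a, (x : ℝ) := by
        rw [← add_sum_erase s _ ha_mem]
      rw [h2, Nat.cast_sub hc] at h1
      rw [h4]
      have h5 : (s.card : ℝ) ≤ a + 1 := by exact_mod_cast h3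
      push_cast at h1
      nlinarith

/-- distinct values of an injective function -/
theorem sum_ge' (s : Finset ℕ) (h : ℕ → ℕ) (hinj : Set.InjOn h s) :
    (s.card : ℝ) * ((s.card : ℝ) - 1) ≤ 2 * ∑ x ∈ s, (h x : ℝ) := by
  classical
  have h1 := sum_ge (s.image h)
  rw [card_image_of_injOn hinj, sum_image (fun x hx y hy hxy => hinj hx hy hxy)] at h1
  exact h1

/-- the sine curve -/
noncomputable def f (m : ℕ) (t : ℝ) : ℝ := m / 2 * (1 - Real.cos (Real.pi * t))

theorem f_lip (m : ℕ) (x y : ℝ) : f m x - f m y ≤ Real.pi * m / 2 * |x - y| := by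
  unfold f
  have h1 : |Real.cos (Real.pi * y) - Real.cos (Real.pi * x)| ≤ |Real.pi * y - Real.pi * x| := by
    have := Real.lipschitzWith_cos.dist_le_mul (Real.pi * y) (Real.pi * x)
    simpa [Real.dist_eq] using this
  have h2 : |Real.pi * y - Real.pi * x| = Real.pi * |x - y| := by
    rw [← mul_sub, abs_mul, abs_of_pos Real.pi_pos, abs_sub_comm]
  rw [h2] at h1
  have h3 := le_abs_self (Real.cos (Real.pi * y) - Real.cos (Real.pi * x))
  have h4 : (0 : ℝ) ≤ m / 2 := by positivity
  have h5 := mul_le_mul_of_nonneg_left (h3.trans h1) h4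
  linarith

/-- the jump times of the sine curve -/
noncomputable def tt (m p : ℕ) : ℝ := Real.arccos (1 - (2 * ((p : ℝ) + 1) - 1) / m) / Real.pi

theorem f_tt {m p : ℕ} (hp : p < m) : f m (tt m p) = p + 1 / 2 := by
  unfold f tt
  have hm : (0 : ℝ) < m := by exact_mod_cast (by omega : 0 < m)
  have hp' : (p : ℝ) + 1 ≤ m := by exact_mod_cast hp
  rw [mul_div_cancel₀ _ Real.pi_ne_zero, Real.cos_arccos]
  · field_simp
    ring
  · have : (2 * ((p : ℝ) + 1) - 1) / m ≤ 2 := by
      rw [div_le_iff₀ hm]
      linarith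
    linarith
  · have : 0 ≤ (2 * ((p : ℝ) + 1) - 1) / m := by
      apply div_nonneg _ hm.le
      have : (0 : ℝ) ≤ p := Nat.cast_nonneg p
      linarith
    linarith

theorem tt_mem (m p : ℕ) : tt m p ∈ Set.Icc (0 : ℝ) 1 := by
  unfold tt
  refine ⟨div_nonneg (Real.arccos_nonneg _) Real.pi_pos.le, ?_⟩
  rw [div_le_one Real.pi_pos]
  exact Real.arccos_le_pi _

theorem f_strict {m : ℕ} (hm : 1 ≤ m) {x y : ℝ} (hx : x ∈ Set.Icc (0 : ℝ) 1)
    (hy : y ∈ Set.Icc (0 : ℝ) 1) (hxy : x < y) : f m x < f m y := by
  unfold f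
  have hm' : (0 : ℝ) < m / 2 := by
    have : (1 : ℝ) ≤ m := by exact_mod_cast hm
    linarith
  have hpi := Real.pi_pos
  have h1 : Real.cos (Real.pi * y) < Real.cos (Real.pi * x) := by
    apply Real.strictAntiOn_cos
    · exact ⟨by have := hx.1; positivity, by nlinarith [hx.2]⟩
    · exact ⟨by have := hy.1; positivity, by nlinarith [hy.2]⟩
    · exact mul_lt_mul_of_pos_left hxy hpi
  have h2 := mul_lt_mul_of_pos_left h1 hm'
  linarith

theorem tt_le_iff {m p : ℕ} (hp : p < m) {t : ℝ} (ht : t ∈ Set.Icc (0 : ℝ) 1) :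
    tt m p ≤ t ↔ (p : ℝ) + 1 / 2 ≤ f m t := by
  rw [← f_tt hp]
  constructor
  · intro h
    rcases h.lt_or_eq with h | h
    · exact (f_strict (by omega) (tt_mem m p) ht h).le
    · rw [h]
  · intro h
    by_contra hcon
    push Not at hcon
    exact absurd h (not_le.2 (f_strict (by omega) ht (tt_mem m p) hcon))

/-- the weight -/
noncomputable def g (T : ℕ → ℝ) (m p : ℕ) (t : ℝ) : ℝ :=
  (Set.Ico (min (T p) (tt m p)) (max (T p) (tt m p))).indicator (fun t => |tt m p - t|) t

theorem g_nonneg (T : ℕ → ℝ) (m p : ℕ) (t : ℝ) : 0 ≤ g T m p t :=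
  Set.indicator_nonneg (fun _ _ => abs_nonneg _) _

theorem integral_abs_left {a b : ℝ} (hab : a ≤ b) : ∫ t in a..b, |a - t| = (b - a) ^ 2 / 2 := by
  have h1 : ∫ t in a..b, |a - t| = ∫ t in a..b, (t - a) := by
    apply intervalIntegral.integral_congr
    intro t ht
    rw [Set.uIcc_of_le hab] at ht
    simp only
    rw [abs_sub_comm, abs_of_nonneg (by linarith [ht.1])]
  rw [h1, intervalIntegral.integral_sub intervalIntegral.intervalIntegrable_id
    intervalIntegrable_const, integral_id, intervalIntegral.integral_const, smul_eq_mul]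
  ring

theorem integral_abs_right {a b : ℝ} (hab : a ≤ b) : ∫ t in a..b, |b - t| = (b - a) ^ 2 / 2 := by
  have h1 : ∫ t in a..b, |b - t| = ∫ t in a..b, (b - t) := by
    apply intervalIntegral.integral_congr
    intro t ht
    rw [Set.uIcc_of_le hab] at ht
    simp only
    rw [abs_of_nonneg (by linarith [ht.2])]
  rw [h1, intervalIntegral.integral_sub intervalIntegrable_const
    intervalIntegral.intervalIntegrable_id, integral_id, intervalIntegral.integral_const,
    smul_eq_mul]
  ring

theorem g_integrable (T : ℕ → ℝ) (m p : ℕ) : Integrable (g T m p) := by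
  unfold g
  rw [integrable_indicator_iff measurableSet_Ico]
  have : Continuous (fun t : ℝ => |tt m p - t|) := by fun_prop
  exact (this.integrableOn_Icc).mono_set Set.Ico_subset_Icc_self

theorem g_integral (T : ℕ → ℝ) (m p : ℕ) :
    ∫ t in (0 : ℝ)..1, g T m p t ≤ (T p - tt m p) ^ 2 / 2 := by
  have h1 : ∫ t in (0 : ℝ)..1, g T m p t ≤ ∫ t, g T m p t := by
    rw [intervalIntegral.integral_of_le zero_le_one]
    exact setIntegral_le_integral (g_integrable T m p)
      (Filter.Eventually.of_forall fun t => g_nonneg T m p t)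
  refine h1.trans (le_of_eq ?_)
  unfold g
  rw [integral_indicator measurableSet_Ico, integral_Ico_eq_integral_Ioo,
    ← integral_Ioc_eq_integral_Ioo, ← intervalIntegral.integral_of_le min_le_max]
  rcases le_total (T p) (tt m p) with h | h
  · rw [min_eq_left h, max_eq_right h, integral_abs_right h]
    ring
  · rw [min_eq_right h, max_eq_left h, integral_abs_left h]

/-- the pointwise estimate -/
theorem pointwise {m : ℕ} (hm : 1 ≤ m) (T : ℕ → ℝ) {t : ℝ} (ht : t ∈ Set.Icc (0 : ℝ) 1) :
    ((((range m).filter (fun p => T p ≤ t)).card : ℝ) - f m t) ^ 2 ≤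
      4 * Real.pi * m * ∑ p ∈ range m, g T m p t + 5 / 2 := by
  classical
  have hpi := Real.pi_pos
  have hmR : (1 : ℝ) ≤ m := by exact_mod_cast hm
  have hpm : 0 < Real.pi * m := by positivity
  set A := (range m).filter (fun p => T p ≤ t) with hA
  have hf0 : 0 ≤ f m t := by
    unfold f
    have := Real.cos_le_one (Real.pi * t)
    have h2 : (0 : ℝ) ≤ m / 2 := by positivity
    exact mul_nonneg h2 (by linarith)
  have hfm : f m t ≤ m := by
    unfold f
    have := Real.neg_one_le_cos (Real.pi * t)
    nlinarith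
  set k := ⌊f m t + 1 / 2⌋₊ with hk
  have hk1 : (k : ℝ) ≤ f m t + 1 / 2 := Nat.floor_le (by linarith)
  have hk2 : f m t + 1 / 2 < k + 1 := Nat.lt_floor_add_one _
  have hkm : k ≤ m := by
    have h1 : (k : ℝ) < m + 1 := by linarith
    have h2 : k < m + 1 := by exact_mod_cast h1
    omega
  have hB : ∀ p, p < m → (tt m p ≤ t ↔ p < k) := by
    intro p hp
    rw [tt_le_iff hp ht]
    constructor
    · intro h
      have h1 : ((p + 1 : ℕ) : ℝ) ≤ f m t + 1 / 2 := by
        push_cast
        linarith
      have := (Nat.le_floor_iff (by linarith)).2 h1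
      omega
    · intro h
      have h1 : ((p + 1 : ℕ) : ℝ) ≤ k := by exact_mod_cast h
      push_cast at h1
      linarith
  -- a lower bound for the sum of the weights
  have key : ∀ (s : Finset ℕ) (h : ℕ → ℕ), s ⊆ range m → Set.InjOn h s →
      (∀ p ∈ s, 2 / (Real.pi * m) * (h p : ℝ) ≤ g T m p t) →
      (s.card : ℝ) * ((s.card : ℝ) - 1) ≤ Real.pi * m * ∑ p ∈ range m, g T m p t := by
    intro s h hs hinj hle
    have h1 := sum_ge' s h hinj
    have h2 : ∑ p ∈ s, 2 / (Real.pi * m) * (h p : ℝ) ≤ ∑ p ∈ range m, g T m p t :=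
      (sum_le_sum hle).trans (sum_le_sum_of_subset_of_nonneg hs fun p _ _ => g_nonneg T m p t)
    rw [← mul_sum] at h2
    have h3 : Real.pi * m * (2 / (Real.pi * m) * ∑ p ∈ s, (h p : ℝ)) = 2 * ∑ p ∈ s, (h p : ℝ) := by
      field_simp
    have h4 := mul_le_mul_of_nonneg_left h2 hpm.le
    rw [h3] at h4
    exact h1.trans h4
  have hG0 : 0 ≤ ∑ p ∈ range m, g T m p t := sum_nonneg fun p _ => g_nonneg T m p t
  have hlip : ∀ x y : ℝ, 2 / (Real.pi * m) * (f m x - f m y) ≤ |x - y| := by
    intro x y
    have h1 := f_lip m x y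
    rw [div_mul_eq_mul_div, div_le_iff₀ hpm]
    linarith
  obtain ⟨d, hd, hdle⟩ : ∃ d : ℕ, |(A.card : ℝ) - k| ≤ d ∧
      (d : ℝ) * ((d : ℝ) - 1) ≤ Real.pi * m * ∑ p ∈ range m, g T m p t := by
    rcases le_total k A.card with hle | hle
    · refine ⟨(A \ range k).card, ?_, ?_⟩
      · have h1 : A.card - k ≤ (A \ range k).card := by
          have := le_card_sdiff (range k) A
          rwa [card_range] at this
        have h2 : (A.card : ℝ) ≤ (A \ range k).card + k := by exact_mod_cast (by omega)
        have h3 : (k : ℝ) ≤ A.card := by exact_mod_cast hle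
        rw [abs_of_nonneg (by linarith)]
        linarith
      · apply key _ (fun p => p - k)
        · exact sdiff_subset.trans (filter_subset _ _)
        · intro x hx y hy hxy
          have hx' : x ∉ range k := (mem_sdiff.1 hx).2
          have hy' : y ∉ range k := (mem_sdiff.1 hy).2
          rw [mem_range] at hx' hy'
          simp only at hxy
          omega
        · intro p hp
          obtain ⟨hpA, hpk⟩ := mem_sdiff.1 hp
          obtain ⟨hpm', hTp⟩ := mem_filter.1 hpA
          rw [mem_range] at hpm' hpk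
          have h1 : t < tt m p := by
            by_contra hcon
            push Not at hcon
            exact hpk ((hB p hpm').1 hcon)
          have h2 : g T m p t = |tt m p - t| := by
            unfold g
            rw [Set.indicator_of_mem]
            exact ⟨(min_le_left _ _).trans hTp, lt_of_lt_of_le h1 (le_max_right _ _)⟩
          rw [h2]
          refine le_trans ?_ (hlip _ _)
          rw [f_tt hpm']
          apply mul_le_mul_of_nonneg_left _ (by positivity)
          rw [Nat.cast_sub (by omega)]
          linarith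
    · refine ⟨(range k \ A).card, ?_, ?_⟩
      · have h1 : k - A.card ≤ (range k \ A).card := by
          have := le_card_sdiff A (range k)
          rwa [card_range] at this
        have h2 : (k : ℝ) ≤ (range k \ A).card + A.card := by exact_mod_cast (by omega)
        have h3 : (A.card : ℝ) ≤ k := by exact_mod_cast hle
        rw [abs_of_nonpos (by linarith)]
        linarith
      · apply key _ (fun p => k - 1 - p)
        · intro p hp
          have := mem_range.1 (mem_sdiff.1 hp).1
          rw [mem_range]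
          omega
        · intro x hx y hy hxy
          have hx' := mem_range.1 (mem_sdiff.1 hx).1
          have hy' := mem_range.1 (mem_sdiff.1 hy).1
          simp only at hxy
          omega
        · intro p hp
          obtain ⟨hpk, hpA⟩ := mem_sdiff.1 hp
          rw [mem_range] at hpk
          have hpm' : p < m := by omega
          have hTp : t < T p := by
            by_contra hcon
            push Not at hcon
            exact hpA (mem_filter.2 ⟨mem_range.2 hpm', hcon⟩)
          have h1 : tt m p ≤ t := (hB p hpm').2 hpk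
          have h2 : g T m p t = |tt m p - t| := by
            unfold g
            rw [Set.indicator_of_mem]
            exact ⟨(min_le_right _ _).trans h1, lt_of_lt_of_le hTp (le_max_left _ _)⟩
          rw [h2, abs_sub_comm]
          refine le_trans ?_ (hlip _ _)
          rw [f_tt hpm']
          apply mul_le_mul_of_nonneg_left _ (by positivity)
          rw [Nat.cast_sub (by omega), Nat.cast_sub (by omega)]
          push_cast
          linarith
  have h1 : ((A.card : ℝ) - k) ^ 2 ≤ (d : ℝ) ^ 2 := by
    rw [← sq_abs]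
    exact pow_le_pow_left₀ (abs_nonneg _) hd 2
  have h2 : ((A.card : ℝ) - f m t) ^ 2 ≤ 2 * ((A.card : ℝ) - k) ^ 2 + 1 / 2 := by
    have h3 : ((k : ℝ) - f m t) ^ 2 ≤ (1 / 2) ^ 2 := by
      apply sq_le_sq'
      · linarith
      · linarith
    nlinarith [sq_nonneg (((A.card : ℝ) - k) - ((k : ℝ) - f m t))]
  nlinarith [sq_nonneg ((d : ℝ) - 1)]

end PathE

open PathE in
/-- The square distance of a step function with the jump times `T 1, ..., T m` from the sine
curve. -/
theorem path_estimate {m : ℕ} (hm : 1 ≤ m) (X : ℝ → ℕ) (T : ℕ → ℝ)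
    (hT : ∀ p, p < m → T p ∈ Set.Icc (0 : ℝ) 1)
    (hX : ∀ t, t ∈ Set.Ico (0 : ℝ) 1 → X t = ((range m).filter (fun p => T p ≤ t)).card) :
    ∫ t in (0 : ℝ)..1, ((X t : ℝ) - m / 2 * (1 - Real.cos (Real.pi * t))) ^ 2 ≤
      2 * Real.pi * m * ∑ p ∈ range m,
        (T p - Real.arccos (1 - (2 * ((p : ℝ) + 1) - 1) / m) / Real.pi) ^ 2 + 3 := by
  have hpi := Real.pi_pos
  have hS : 0 ≤ ∑ p ∈ range m,
      (T p - Real.arccos (1 - (2 * ((p : ℝ) + 1) - 1) / m) / Real.pi) ^ 2 :=
    sum_nonneg fun _ _ => sq_nonneg _
  by_cases hi : IntervalIntegrable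
      (fun t : ℝ => ((X t : ℝ) - m / 2 * (1 - Real.cos (Real.pi * t))) ^ 2) volume 0 1
  · have hg : ∀ p, IntervalIntegrable (g T m p) volume 0 1 := fun p =>
      (g_integrable T m p).intervalIntegrable
    have hsum : IntervalIntegrable (fun t => ∑ p ∈ range m, g T m p t) volume 0 1 := by
      have := IntervalIntegrable.sum (range m) (f := fun p => g T m p) (fun p _ => hg p)
      refine this.congr fun t _ => ?_
      simp
    have hr : IntervalIntegrable
        (fun t : ℝ => 4 * Real.pi * m * ∑ p ∈ range m, g T m p t + 5 / 2) volume 0 1 :=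
      (hsum.const_mul _).add intervalIntegrable_const
    have h1 := intervalIntegral.integral_mono_on_of_le_Ioo zero_le_one hi hr (by
      intro t ht
      have h2 := pointwise hm T (t := t) ⟨ht.1.le, ht.2.le⟩
      rw [← hX t ⟨ht.1.le, ht.2⟩] at h2
      exact h2)
    refine h1.trans ?_
    rw [intervalIntegral.integral_add (hsum.const_mul _) intervalIntegrable_const,
      intervalIntegral.integral_const_mul, intervalIntegral.integral_finsetSum (fun p _ => hg p),
      intervalIntegral.integral_const]
    have h3 : ∑ p ∈ range m, ∫ t in (0 : ℝ)..1, g T m p t ≤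
        ∑ p ∈ range m, (T p - tt m p) ^ 2 / 2 := sum_le_sum fun p _ => g_integral T m p
    rw [← sum_div] at h3
    have h4 : ∑ p ∈ range m, (T p - tt m p) ^ 2 = ∑ p ∈ range m,
      (T p - Real.arccos (1 - (2 * ((p : ℝ) + 1) - 1) / m) / Real.pi) ^ 2 := rfl
    rw [h4] at h3
    have h5 : (0 : ℝ) ≤ 4 * Real.pi * m := by positivity
    have h6 := mul_le_mul_of_nonneg_left h3 h5
    simp only [smul_eq_mul]
    linarith
  · rw [intervalIntegral.integral_undef hi]
    positivity

end Pool.Agent.SortNet
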