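import Pool.Agent.Work.MP_aee03d_pr.Integ
import Pool.Agent.Work.MP_aee03d_pr.Path

/-!
# The mean square distance of the extreme particle from the sine curve (module MEAN)
-/

namespace Pool.Agent.SortNet

open Equiv Finset MeasureTheory

theorem NN_two (m : ℕ) : 2 * (((m + 1) * m / 2 : ℕ) : ℝ) = ((m : ℝ) + 1) * m := by
  have h1 : 2 * ((m + 1) * m / 2) = (m + 1) * m := by
    refine Nat.two_mul_div_two_of_even ?_
    rw [mul_comm]
    exact Nat.even_mul_succ_self m
  exact_mod_cast h1

theorem PP_last {m : ℕ} {s : Fin ((m + 1) * m / 2) → Fin m} (hs : s ∈ Val m) (j : Fin (m + 1)) :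
    (PP m s ((m + 1) * m / 2) j).val = m - j.val := by
  classical
  unfold Val at hs
  rw [Finset.mem_filter] at hs
  rw [hs.2 j, Fin.val_rev]
  omega

theorem II_zero_le {m : ℕ} (hm : 1 ≤ m) {s : Fin ((m + 1) * m / 2) → Fin m} (hs : s ∈ Val m) :
    II m s 0 ≤ 2 * Real.pi * m * ∑ p ∈ range m,
      ((Tm m s (p + 1) : ℝ) / (((m + 1) * m / 2 : ℕ) : ℝ) -
        Real.arccos (1 - (2 * ((p : ℝ) + 1) - 1) / m) / Real.pi) ^ 2 + 3 := by
  have hm' : (1 : ℝ) ≤ m := by exact_mod_cast hm
  have hN := NN_two m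
  have hN1 : (1 : ℝ) ≤ (((m + 1) * m / 2 : ℕ) : ℝ) := by nlinarith
  refine path_estimate hm (XX m s 0)
    (fun p => (Tm m s (p + 1) : ℝ) / (((m + 1) * m / 2 : ℕ) : ℝ)) ?_ ?_
  · intro p hp
    have h1 : Tm m s (p + 1) ≤ (m + 1) * m / 2 := by
      by_contra hcon
      have h2 := (lt_Tm_iff hs (k := (m + 1) * m / 2) (p := p + 1) le_rfl).2 (by omega)
      rw [PP_last hs] at h2
      have h3 : (0 : Fin (m + 1)).val = 0 := rfl
      omega
    have h2 : (Tm m s (p + 1) : ℝ) ≤ (((m + 1) * m / 2 : ℕ) : ℝ) := by exact_mod_cast h1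
    refine ⟨by positivity, ?_⟩
    rw [div_le_one (by linarith)]
    exact h2
  · intro t ht
    have h0 : (0 : ℝ) ≤ (((m + 1) * m / 2 : ℕ) : ℝ) * t := by
      have := ht.1
      positivity
    have h1 : ⌊(((m + 1) * m / 2 : ℕ) : ℝ) * t⌋₊ ≤ (m + 1) * m / 2 := by
      refine Nat.floor_le_of_le ?_
      nlinarith [ht.2]
    have h2 : (range m).filter (fun p =>
        (Tm m s (p + 1) : ℝ) / (((m + 1) * m / 2 : ℕ) : ℝ) ≤ t) = range (XX m s 0 t) := by
      ext p
      rw [Finset.mem_filter, Finset.mem_range, Finset.mem_range,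
        div_le_iff₀ (by linarith), mul_comm t, ← Nat.le_floor_iff h0]
      have h3 := lt_Tm_iff hs h1 (p := p + 1)
      have h4 : XX m s 0 t ≤ m := by exact_mod_cast XX_le m s 0 t
      unfold XX at h4 ⊢
      omega
    rw [h2, Finset.card_range]

/-- The mean square distance of the extreme particle from the sine curve. -/
theorem sum_II_zero (m : ℕ) : ∑ s ∈ Val m, II m s 0 ≤ 155 * m * (Val m).card := by
  rcases Nat.eq_zero_or_pos m with rfl | hm
  · have h1 : ∀ s, II 0 s 0 ≤ 0 := by
      intro s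
      have := II_le_sq 0 s 0
      simpa using this
    calc ∑ s ∈ Val 0, II 0 s 0 ≤ ∑ s ∈ Val 0, (0 : ℝ) := Finset.sum_le_sum fun s _ => h1 s
      _ = 155 * ((0 : ℕ) : ℝ) * (Val 0).card := by
        rw [Finset.sum_const_zero]
        simp
  · have hm' : (1 : ℝ) ≤ m := by exact_mod_cast hm
    have hN := NN_two m
    set N : ℝ := (((m + 1) * m / 2 : ℕ) : ℝ) with hNdef
    have hN1 : (m : ℝ) ≤ N := by nlinarith
    have hN2 : 1 ≤ N := by linarith
    have hV : (0 : ℝ) ≤ (Val m).card := by positivity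
    have key : ∀ p, p < m → ∑ s ∈ Val m, ((Tm m s (p + 1) : ℝ) / N -
        Real.arccos (1 - (2 * ((p : ℝ) + 1) - 1) / m) / Real.pi) ^ 2 ≤
        24 / m * (Val m).card := by
      intro p hp
      set a := Real.arccos (1 - (2 * ((p : ℝ) + 1) - 1) / m) / Real.pi
      have h1 := tau_arcsine (m := m) (p := p + 1) (by omega) (by omega)
      have h2 : Real.arccos (1 - (2 * (((p + 1 : ℕ)) : ℝ) - 1) / m) / Real.pi = a := by
        push_cast
        rfl
      rw [h2] at h1
      have h3 := var_Tm_le (m := m) (p := p + 1) (by omega)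
      have h3' : ∑ s ∈ Val m, ((Tm m s (p + 1) : ℝ) - (N + 1) * (tau (m + 1) (p + 1) : ℝ)) ^ 2 ≤
          (N + 1) * (N + 2) / (2 * (m : ℝ) + 1) * (Val m).card := by
        have h3r := (Rat.cast_le (K := ℝ)).2 h3
        push_cast at h3r
        exact h3r
      have h4 : (0 : ℝ) ≤ (tau (m + 1) (p + 1) : ℝ) := by exact_mod_cast tau_nonneg _ _
      have h5 : (tau (m + 1) (p + 1) : ℝ) ≤ 1 := by
        exact_mod_cast tau_le_one (n := m + 1) (by omega) (by omega)
      set τ := (tau (m + 1) (p + 1) : ℝ)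
      have h6 : |(N + 1) * τ / N - a| ≤ 3 / Real.sqrt m := by
        have e1 : (N + 1) * τ / N - a = (τ - a) + τ / N := by
          field_simp
          ring
        rw [e1]
        refine (abs_add_le _ _).trans ?_
        have e2 : |τ / N| ≤ 1 / Real.sqrt m := by
          rw [abs_of_nonneg (by positivity)]
          refine div_le_div₀ (by norm_num) h5 (by positivity) ?_
          rw [Real.sqrt_le_left (by linarith)]
          nlinarith
        calc |τ - a| + |τ / N| ≤ 2 / Real.sqrt m + 1 / Real.sqrt m := add_le_add h1 e2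
          _ = 3 / Real.sqrt m := by ring
      have h7 : ((N + 1) * τ / N - a) ^ 2 ≤ 9 / m := by
        have e1 : ((N + 1) * τ / N - a) ^ 2 ≤ (3 / Real.sqrt m) ^ 2 := by
          rw [sq_le_sq, abs_of_nonneg (by positivity : (0 : ℝ) ≤ 3 / Real.sqrt m)]
          exact h6
        rw [div_pow, Real.sq_sqrt (by linarith)] at e1
        norm_num at e1 ⊢
        exact e1
      calc ∑ s ∈ Val m, ((Tm m s (p + 1) : ℝ) / N - a) ^ 2
          ≤ ∑ s ∈ Val m, (2 / N ^ 2 * ((Tm m s (p + 1) : ℝ) - (N + 1) * τ) ^ 2 + 18 / m) := by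
            refine Finset.sum_le_sum fun s _ => ?_
            have e1 : (Tm m s (p + 1) : ℝ) / N - a =
                ((Tm m s (p + 1) : ℝ) - (N + 1) * τ) / N + ((N + 1) * τ / N - a) := by
              ring
            rw [e1]
            have e2 : ∀ x y : ℝ, (x + y) ^ 2 ≤ 2 * x ^ 2 + 2 * y ^ 2 := by
              intro x y
              nlinarith [sq_nonneg (x - y)]
            refine (e2 _ _).trans ?_
            rw [div_pow]
            have e3 : 2 * (((Tm m s (p + 1) : ℝ) - (N + 1) * τ) ^ 2 / N ^ 2) =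
                2 / N ^ 2 * ((Tm m s (p + 1) : ℝ) - (N + 1) * τ) ^ 2 := by ring
            have e4 : (18 : ℝ) / m = 2 * (9 / m) := by ring
            rw [e3, e4]
            linarith
        _ = 2 / N ^ 2 * ∑ s ∈ Val m, ((Tm m s (p + 1) : ℝ) - (N + 1) * τ) ^ 2 +
            (Val m).card * (18 / m) := by
            rw [Finset.sum_add_distrib, ← Finset.mul_sum, Finset.sum_const, nsmul_eq_mul]
        _ ≤ 2 / N ^ 2 * ((N + 1) * (N + 2) / (2 * (m : ℝ) + 1) * (Val m).card) +
            (Val m).card * (18 / m) := by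
            have : (0 : ℝ) ≤ 2 / N ^ 2 := by positivity
            gcongr
        _ = (2 / N ^ 2 * ((N + 1) * (N + 2) / (2 * (m : ℝ) + 1)) + 18 / m) *
            (Val m).card := by ring
        _ ≤ 24 / m * (Val m).card := by
            refine mul_le_mul_of_nonneg_right ?_ hV
            have e1 : 2 / N ^ 2 * ((N + 1) * (N + 2) / (2 * (m : ℝ) + 1)) ≤ 6 / m := by
              rw [div_mul_div_comm, div_le_div_iff₀ (by positivity) (by positivity)]
              have e2 : (N + 1) * (N + 2) ≤ 6 * N ^ 2 := by nlinarith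
              have e3 : 2 * ((N + 1) * (N + 2)) * (m : ℝ) ≤ 12 * N ^ 2 * m := by
                have : (0 : ℝ) ≤ (m : ℝ) := by linarith
                nlinarith
              have e4 : 12 * N ^ 2 * (m : ℝ) ≤ 6 * (N ^ 2 * (2 * (m : ℝ) + 1)) := by nlinarith
              linarith
            have e5 : (24 : ℝ) / m = 6 / m + 18 / m := by ring
            rw [e5]
            linarith
    have h1 : ∑ s ∈ Val m, II m s 0 ≤ ∑ s ∈ Val m, (2 * Real.pi * m * ∑ p ∈ range m,
        ((Tm m s (p + 1) : ℝ) / N -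
          Real.arccos (1 - (2 * ((p : ℝ) + 1) - 1) / m) / Real.pi) ^ 2 + 3) :=
      Finset.sum_le_sum fun s hs => II_zero_le hm hs
    refine h1.trans ?_
    rw [Finset.sum_add_distrib, ← Finset.mul_sum, Finset.sum_comm, Finset.sum_const,
      nsmul_eq_mul]
    have h2 : ∑ p ∈ range m, ∑ s ∈ Val m, ((Tm m s (p + 1) : ℝ) / N -
        Real.arccos (1 - (2 * ((p : ℝ) + 1) - 1) / m) / Real.pi) ^ 2 ≤ 24 * (Val m).card := by
      calc _ ≤ ∑ p ∈ range m, 24 / m * ((Val m).card : ℝ) :=
            Finset.sum_le_sum fun p hp => key p (Finset.mem_range.1 hp)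
        _ = 24 * (Val m).card := by
            rw [Finset.sum_const, Finset.card_range, nsmul_eq_mul]
            field_simp
    have hpi : Real.pi < 3.15 := Real.pi_lt_d2
    have hpi0 := Real.pi_pos
    calc 2 * Real.pi * m * (∑ p ∈ range m, ∑ s ∈ Val m, ((Tm m s (p + 1) : ℝ) / N -
          Real.arccos (1 - (2 * ((p : ℝ) + 1) - 1) / m) / Real.pi) ^ 2) + (Val m).card * 3
        ≤ 2 * Real.pi * m * (24 * (Val m).card) + (Val m).card * 3 := by
          gcongr
      _ ≤ 155 * m * (Val m).card := by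
          have e1 : 2 * Real.pi * m * 24 + 3 ≤ 155 * m := by nlinarith
          nlinarith

end Pool.Agent.SortNet
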