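import Pool.Agent.Work.MP_aee03d_pr.Words
import Pool.Agent.Work.MP_aee03d_pr.Beta

/-!
# The first two moments of the passage times of the extreme particle (module MOMENTS)
-/

namespace Pool.Agent.SortNet

open Equiv Finset

theorem w0_neg (n : ℕ) : ∀ x, x < 0 → w0 n x = x := by
  intro x hx
  rw [w0_apply, if_neg (by omega)]

theorem w0_left {n : ℕ} {c : ℤ} (h0 : 0 ≤ c) (hc : c < n) :
    ∀ x, 0 ≤ x → x < c → (w0 n)⁻¹ c < (w0 n)⁻¹ x := by
  intro x hx hxc
  rw [w0_inv, w0_apply, w0_apply, if_pos (by omega), if_pos (by omega)]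
  omega

theorem mkA_w0 {m c : ℕ} (hc : c ≤ m) : (mkA c ((m + 1) * m / 2) (w0 (m + 1)) : ℚ) =
    (((m + 1) * m / 2 : ℕ) + 1) * mm (m + 1) c * (Val m).card := by
  have hc' : (c : ℤ) < ((m + 1 : ℕ) : ℤ) := by push_cast; omega
  rw [← R_insert (w0_fs (m + 1)) (w0_neg (m + 1)) (by omega : (0 : ℤ) ≤ c)
    (w0_left (by omega) hc'), card_Val]
  exact R_u1 (n := m + 1) (c := c) (by omega)

theorem mkC_w0_zero (m : ℕ) : (mkC 0 ((m + 1) * m / 2) (w0 (m + 1)) : ℚ) =
    (((m + 1) * m / 2 : ℕ) + 1) * (((m + 1) * m / 2 : ℕ) + 2) / (2 * (2 * m + 1)) *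
      (Val m).card := by
  have hc' : (0 : ℤ) < ((m + 1 : ℕ) : ℤ) := by push_cast; omega
  rw [← R_insert_two (w0_fs (m + 1)) (w0_neg (m + 1)) (le_refl (0 : ℤ))
    (w0_left le_rfl hc'), card_Val]
  have h1 := R_z1_zero (n := m + 1) (by omega) ((m + 1) * m / 2 + 2)
  unfold z1 at h1
  rw [h1]
  have h2 := R_ud (n := m + 1) (by omega)
  have h3 : (m + 1) * (m + 1 - 1) / 2 = (m + 1) * m / 2 := rfl
  rw [h3] at h2
  rw [h2]
  push_cast
  have h4 : (2 * ((m : ℚ) + 1) - 1) = 2 * m + 1 := by ring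
  rw [h4]

theorem mkC_w0_pos {m c : ℕ} (h1 : 1 ≤ c) (hc : c ≤ m) :
    (mkC c ((m + 1) * m / 2) (w0 (m + 1)) : ℚ) =
    (((m + 1) * m / 2 : ℕ) + 1) * (((m + 1) * m / 2 : ℕ) + 2) * (Val m).card *
      ∑ c' ∈ range c, mm (m + 1) c * mm (m + 1) c' * (1 - 1 / (1 - 4 * ((c : ℚ) - c') ^ 2)) := by
  have hc' : (c : ℤ) < ((m + 1 : ℕ) : ℤ) := by push_cast; omega
  rw [← R_insert_two (w0_fs (m + 1)) (w0_neg (m + 1)) (by omega : (0 : ℤ) ≤ c)
    (w0_left (by omega) hc'), card_Val]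
  have h2 := R_z1 (n := m + 1) h1 (by omega) ((m + 1) * m / 2 + 2)
  unfold z1 at h2
  rw [h2]
  push_cast
  rw [Finset.mul_sum]
  refine Finset.sum_congr rfl fun c' hc'' => ?_
  rw [Finset.mem_range] at hc''
  have h3 := R_u2 (n := m + 1) hc'' (by omega)
  have h4 : (m + 1) * (m + 1 - 1) / 2 = (m + 1) * m / 2 := rfl
  rw [h4] at h3
  rw [h3]
  have h5 : (1 : ℚ) ≤ (c : ℚ) - c' := by
    have : (c' : ℚ) + 1 ≤ c := by exact_mod_cast hc''
    linarith
  have h6 : (4 * ((c : ℚ) - c') ^ 2 - 1) ≠ 0 := by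
    have : 0 < 4 * ((c : ℚ) - c') ^ 2 - 1 := by nlinarith
    exact this.ne'
  have h7 : 4 * ((c : ℚ) - c') ^ 2 / (4 * ((c : ℚ) - c') ^ 2 - 1) =
      1 - 1 / (1 - 4 * ((c : ℚ) - c') ^ 2) := by
    have h8 : (1 - 4 * ((c : ℚ) - c') ^ 2) ≠ 0 := by
      have : (1 - 4 * ((c : ℚ) - c') ^ 2) = -(4 * ((c : ℚ) - c') ^ 2 - 1) := by ring
      rw [this]
      exact neg_ne_zero.2 h6
    field_simp
    ring
  rw [h7]
  ring

/-- The number of the times `k ≤ N` at which the particle `0` is to the left of `p`. -/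
def Tm (m : ℕ) (s : Fin ((m + 1) * m / 2) → Fin m) (p : ℕ) : ℕ :=
  ((range ((m + 1) * m / 2 + 1)).filter (fun k => (PP m s k 0).val < p)).card

theorem lt_Tm_iff {m : ℕ} {s : Fin ((m + 1) * m / 2) → Fin m} (hs : s ∈ Val m) {k p : ℕ}
    (hk : k ≤ (m + 1) * m / 2) : (PP m s k 0).val < p ↔ k < Tm m s p := by
  constructor
  · intro h
    have h1 : range (k + 1) ⊆ (range ((m + 1) * m / 2 + 1)).filter
        (fun k => (PP m s k 0).val < p) := by
      intro j hj
      rw [Finset.mem_range] at hj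
      rw [Finset.mem_filter, Finset.mem_range]
      refine ⟨by omega, ?_⟩
      have := Fin.le_def.1 (PP_mono hs (show j ≤ k by omega))
      omega
    have h2 := Finset.card_le_card h1
    rw [Finset.card_range] at h2
    unfold Tm
    omega
  · intro h
    by_contra hcon
    have h1 : (range ((m + 1) * m / 2 + 1)).filter
        (fun k => (PP m s k 0).val < p) ⊆ range k := by
      intro j hj
      rw [Finset.mem_filter, Finset.mem_range] at hj
      rw [Finset.mem_range]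
      by_contra hj'
      have := Fin.le_def.1 (PP_mono hs (show k ≤ j by omega))
      omega
    have h2 := Finset.card_le_card h1
    rw [Finset.card_range] at h2
    unfold Tm at h
    omega

theorem Tm_le {m : ℕ} (s : Fin ((m + 1) * m / 2) → Fin m) (p : ℕ) :
    Tm m s p ≤ (m + 1) * m / 2 + 1 := by
  unfold Tm
  have h := Finset.card_filter_le (range ((m + 1) * m / 2 + 1))
    (fun k => (PP m s k 0).val < p)
  rw [Finset.card_range] at h
  exact h

theorem filter_eq_range {m : ℕ} {s : Fin ((m + 1) * m / 2) → Fin m} (hs : s ∈ Val m) (p : ℕ) :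
    (range ((m + 1) * m / 2 + 1)).filter (fun k => (PP m s k 0).val < p) =
      range (Tm m s p) := by
  ext k
  rw [Finset.mem_filter, Finset.mem_range, Finset.mem_range]
  constructor
  · rintro ⟨h1, h2⟩
    exact (lt_Tm_iff hs (by omega)).1 h2
  · intro h
    have h1 := Tm_le s p
    exact ⟨by omega, (lt_Tm_iff hs (by omega)).2 h⟩

theorem sum_Tm {m p : ℕ} (hp : p ≤ m + 1) : ∑ s ∈ Val m, (Tm m s p : ℚ) =
    (((m + 1) * m / 2 : ℕ) + 1) * tau (m + 1) p * (Val m).card := by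
  have h1 : ∀ s, Tm m s p = ∑ c ∈ range p, ((range ((m + 1) * m / 2 + 1)).filter
      (fun k => (PP m s k 0).val = c)).card := by
    intro s
    unfold Tm
    rw [Finset.card_eq_sum_card_fiberwise (f := fun k => (PP m s k 0).val) (t := range p)]
    · refine Finset.sum_congr rfl fun c hc => ?_
      rw [Finset.mem_range] at hc
      rw [Finset.filter_filter]
      congr 1
      ext k
      rw [Finset.mem_filter, Finset.mem_filter]
      constructor
      · rintro ⟨h1, h2, h3⟩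
        exact ⟨h1, h3⟩
      · rintro ⟨h1, h3⟩
        exact ⟨h1, by omega, h3⟩
    · intro k hk
      rw [Finset.mem_coe, Finset.mem_filter] at hk
      rw [Finset.mem_coe, Finset.mem_range]
      exact hk.2
  have h2 : ∑ s ∈ Val m, Tm m s p = ∑ c ∈ range p, mkA c ((m + 1) * m / 2) (w0 (m + 1)) := by
    rw [Finset.sum_congr rfl fun s _ => h1 s, Finset.sum_comm]
    exact Finset.sum_congr rfl fun c _ => sum_A m c
  have h3 : ∑ s ∈ Val m, (Tm m s p : ℚ) =
      ∑ c ∈ range p, (mkA c ((m + 1) * m / 2) (w0 (m + 1)) : ℚ) := by exact_mod_cast h2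
  rw [h3]
  unfold tau
  rw [Finset.mul_sum, Finset.sum_mul]
  refine Finset.sum_congr rfl fun c hc => ?_
  rw [Finset.mem_range] at hc
  exact mkA_w0 (by omega)

/-- The quadratic form of the second moment. -/
noncomputable def Kp (n p : ℕ) : ℚ :=
  ∑ c ∈ range p, ∑ c' ∈ range p, mm n c * mm n c' / (1 - 4 * ((c : ℚ) - c') ^ 2)

theorem Kp_nonneg (n p : ℕ) : 0 ≤ Kp n p := kernel_psd p (mm n)

theorem Kp_succ (n p : ℕ) : Kp n (p + 1) = Kp n p + mm n p ^ 2 +
    2 * ∑ c' ∈ range p, mm n p * mm n c' / (1 - 4 * ((p : ℚ) - c') ^ 2) := by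
  unfold Kp
  rw [Finset.sum_range_succ]
  have h1 : ∑ c ∈ range p, ∑ c' ∈ range (p + 1), mm n c * mm n c' /
      (1 - 4 * ((c : ℚ) - c') ^ 2) = ∑ c ∈ range p, ∑ c' ∈ range p, mm n c * mm n c' /
      (1 - 4 * ((c : ℚ) - c') ^ 2) +
      ∑ c ∈ range p, mm n c * mm n p / (1 - 4 * ((c : ℚ) - p) ^ 2) := by
    rw [← Finset.sum_add_distrib]
    exact Finset.sum_congr rfl fun c _ => Finset.sum_range_succ _ _
  have h2 : ∑ c ∈ range p, mm n c * mm n p / (1 - 4 * ((c : ℚ) - p) ^ 2) =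
      ∑ c' ∈ range p, mm n p * mm n c' / (1 - 4 * ((p : ℚ) - c') ^ 2) := by
    refine Finset.sum_congr rfl fun c _ => ?_
    rw [mul_comm (mm n c), ← neg_sub (p : ℚ) c, neg_sq]
  rw [h1, h2, Finset.sum_range_succ, sub_self]
  ring

theorem sum_mkC {m p : ℕ} (hp1 : 1 ≤ p) (hp : p ≤ m + 1) :
    ∑ c ∈ range p, (mkC c ((m + 1) * m / 2) (w0 (m + 1)) : ℚ) =
      (((m + 1) * m / 2 : ℕ) + 1) * (((m + 1) * m / 2 : ℕ) + 2) * (Val m).card *
        ((1 / (2 * (m : ℚ) + 1) + tau (m + 1) p ^ 2 - Kp (m + 1) p) / 2) := by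
  induction p, hp1 using Nat.le_induction with
  | base =>
    rw [Finset.sum_range_one, Nat.cast_zero, mkC_w0_zero]
    unfold tau Kp
    rw [Finset.sum_range_one, Finset.sum_range_one, Finset.sum_range_one]
    have h1 : (2 * (m : ℚ) + 1) ≠ 0 := by positivity
    rw [sub_self]
    field_simp
    ring
  | succ p hp1 ih =>
    rw [Finset.sum_range_succ, ih (by omega), mkC_w0_pos hp1 (by omega), Kp_succ]
    have h1 : tau (m + 1) (p + 1) = tau (m + 1) p + mm (m + 1) p := by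
      unfold tau
      rw [Finset.sum_range_succ]
    have h2 : ∑ c' ∈ range p, mm (m + 1) p * mm (m + 1) c' *
        (1 - 1 / (1 - 4 * ((p : ℚ) - c') ^ 2)) = mm (m + 1) p * tau (m + 1) p -
        ∑ c' ∈ range p, mm (m + 1) p * mm (m + 1) c' / (1 - 4 * ((p : ℚ) - c') ^ 2) := by
      unfold tau
      rw [Finset.mul_sum, ← Finset.sum_sub_distrib]
      refine Finset.sum_congr rfl fun c' _ => ?_
      ring
    rw [h1, h2]
    ring

theorem sum_Tm_sq {m p : ℕ} (hp1 : 1 ≤ p) (hp : p ≤ m + 1) :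
    ∑ s ∈ Val m, (Tm m s p : ℚ) * (Tm m s p + 1) =
      (((m + 1) * m / 2 : ℕ) + 1) * (((m + 1) * m / 2 : ℕ) + 2) * (Val m).card *
        (1 / (2 * (m : ℚ) + 1) + tau (m + 1) p ^ 2 - Kp (m + 1) p) := by
  have h1 : ∀ s ∈ Val m, Tm m s p * (Tm m s p + 1) = 2 * ∑ c ∈ range p,
      ∑ k ∈ (range ((m + 1) * m / 2 + 1)).filter (fun k => (PP m s k 0).val = c), (k + 1) := by
    intro s hs
    have e1 : ∑ c ∈ range p, ∑ k ∈ (range ((m + 1) * m / 2 + 1)).filter
        (fun k => (PP m s k 0).val = c), (k + 1) =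
        ∑ k ∈ (range ((m + 1) * m / 2 + 1)).filter (fun k => (PP m s k 0).val < p),
          (k + 1) := by
      rw [← Finset.sum_fiberwise_of_maps_to (s := (range ((m + 1) * m / 2 + 1)).filter
        (fun k => (PP m s k 0).val < p)) (t := range p) (g := fun k => (PP m s k 0).val)]
      · refine Finset.sum_congr rfl fun c hc => ?_
        rw [Finset.mem_range] at hc
        rw [Finset.filter_filter]
        refine Finset.sum_congr ?_ fun _ _ => rfl
        ext k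
        rw [Finset.mem_filter, Finset.mem_filter]
        constructor
        · rintro ⟨h1, h3⟩
          exact ⟨h1, by omega, h3⟩
        · rintro ⟨h1, h2, h3⟩
          exact ⟨h1, h3⟩
      · intro k hk
        rw [Finset.mem_filter] at hk
        rw [Finset.mem_range]
        exact hk.2
    rw [e1, filter_eq_range hs]
    have e2 : ∀ T : ℕ, T * (T + 1) = 2 * ∑ k ∈ range T, (k + 1) := by
      intro T
      induction T with
      | zero => rfl
      | succ T ih =>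
        rw [Finset.sum_range_succ, Nat.mul_add 2, ← ih]
        ring
    exact e2 _
  have h2 : ∑ s ∈ Val m, Tm m s p * (Tm m s p + 1) =
      2 * ∑ c ∈ range p, mkC c ((m + 1) * m / 2) (w0 (m + 1)) := by
    rw [Finset.sum_congr rfl h1, ← Finset.mul_sum, Finset.sum_comm]
    congr 1
    exact Finset.sum_congr rfl fun c _ => sum_C m c
  have h3 : ∑ s ∈ Val m, (Tm m s p : ℚ) * (Tm m s p + 1) =
      2 * ∑ c ∈ range p, (mkC c ((m + 1) * m / 2) (w0 (m + 1)) : ℚ) := by exact_mod_cast h2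
  rw [h3, sum_mkC hp1 hp]
  ring

theorem tau_nonneg (n p : ℕ) : 0 ≤ tau n p := Finset.sum_nonneg fun _ _ => mm_nonneg _ _

theorem tau_le_one {n p : ℕ} (hn : 1 ≤ n) (hp : p ≤ n) : tau n p ≤ 1 := by
  rw [← sum_mm hn]
  unfold tau
  exact Finset.sum_le_sum_of_subset_of_nonneg (Finset.range_mono hp) fun _ _ _ => mm_nonneg _ _

/-- The variance of the passage times. -/
theorem var_Tm {m p : ℕ} (hp1 : 1 ≤ p) (hp : p ≤ m + 1) :
    ∑ s ∈ Val m, ((Tm m s p : ℚ) - (((m + 1) * m / 2 : ℕ) + 1) * tau (m + 1) p) ^ 2 =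
      (((m + 1) * m / 2 : ℕ) + 1) * (Val m).card *
        ((((m + 1) * m / 2 : ℕ) + 2) * (1 / (2 * (m : ℚ) + 1) - Kp (m + 1) p) -
          tau (m + 1) p * (1 - tau (m + 1) p)) := by
  have h1 := sum_Tm (m := m) (p := p) hp
  have h2 := sum_Tm_sq hp1 hp
  have h3 : ∑ s ∈ Val m, ((Tm m s p : ℚ) - (((m + 1) * m / 2 : ℕ) + 1) * tau (m + 1) p) ^ 2 =
      ∑ s ∈ Val m, (Tm m s p : ℚ) * (Tm m s p + 1) -
        (1 + 2 * ((((m + 1) * m / 2 : ℕ) + 1) * tau (m + 1) p)) * ∑ s ∈ Val m, (Tm m s p : ℚ) +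
        (Val m).card * ((((m + 1) * m / 2 : ℕ) + 1) * tau (m + 1) p) ^ 2 := by
    rw [Finset.mul_sum, ← Finset.sum_sub_distrib, ← nsmul_eq_mul, ← Finset.sum_const,
      ← Finset.sum_add_distrib]
    refine Finset.sum_congr rfl fun s _ => ?_
    ring
  rw [h3, h1, h2]
  ring

theorem var_Tm_le {m p : ℕ} (hp : p ≤ m + 1) :
    ∑ s ∈ Val m, ((Tm m s p : ℚ) - (((m + 1) * m / 2 : ℕ) + 1) * tau (m + 1) p) ^ 2 ≤
      (((m + 1) * m / 2 : ℕ) + 1) * (((m + 1) * m / 2 : ℕ) + 2) / (2 * (m : ℚ) + 1) *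
        (Val m).card := by
  rcases Nat.eq_zero_or_pos p with rfl | hp1
  · have h1 : ∀ s, Tm m s 0 = 0 := by
      intro s
      unfold Tm
      rw [Finset.card_eq_zero, Finset.filter_eq_empty_iff]
      intro k _ h
      exact Nat.not_lt_zero _ h
    have h2 : tau (m + 1) 0 = 0 := Finset.sum_range_zero _
    simp only [h1, h2, Nat.cast_zero, mul_zero, sub_zero]
    rw [zero_pow (by norm_num), Finset.sum_const_zero]
    positivity
  · rw [var_Tm hp1 hp]
    have h1 := Kp_nonneg (m + 1) p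
    have h2 := tau_nonneg (m + 1) p
    have h3 := tau_le_one (n := m + 1) (by omega) hp
    have h4 : 0 ≤ tau (m + 1) p * (1 - tau (m + 1) p) := mul_nonneg h2 (by linarith)
    have h5 : (0 : ℚ) ≤ (((m + 1) * m / 2 : ℕ) + 1) * (Val m).card := by positivity
    have h6 : (0 : ℚ) ≤ (((m + 1) * m / 2 : ℕ) : ℚ) + 2 := by positivity
    have h7 : ((((m + 1) * m / 2 : ℕ) : ℚ) + 2) * (1 / (2 * (m : ℚ) + 1) - Kp (m + 1) p) -
          tau (m + 1) p * (1 - tau (m + 1) p) ≤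
        ((((m + 1) * m / 2 : ℕ) : ℚ) + 2) * (1 / (2 * (m : ℚ) + 1)) := by
      nlinarith [mul_nonneg h6 h1]
    calc _ ≤ (((m + 1) * m / 2 : ℕ) + 1) * ((Val m).card : ℚ) *
          (((((m + 1) * m / 2 : ℕ) : ℚ) + 2) * (1 / (2 * (m : ℚ) + 1))) :=
        mul_le_mul_of_nonneg_left h7 h5
      _ = _ := by ring

end Pool.Agent.SortNet
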