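import Pool.Agent.Work.MP_aee03d_pr.Layer

/-!
# The tail bounds (module TAIL)
-/

namespace Pool.Agent.SortNet

open Equiv Finset MeasureTheory

/-- A large set of networks on which the square distance of the particle `j` from the sine curve
is bounded by a quantity with a small mean. -/
theorem good_set {m : ℕ} (hm : 1 ≤ m) {ε : ℝ} (hε : 0 < ε) (j : Fin (m + 1)) :
    ∃ G ⊆ Val m, ∃ F : (Fin ((m + 1) * m / 2) → Fin m) → ℝ, (∀ s, 0 ≤ F s) ∧
      (((Val m \ G).card : ℕ) : ℝ) ≤ 2 * ε * (Val m).card ∧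
      (∀ s ∈ G, II m s j ≤ F s + 24 * (m * (108 * (j.val : ℝ) + 12 / ε + 3))) ∧
      ∑ s ∈ Val m, F s ≤ 620 * m * (Val m).card := by
  classical
  have hm' : (1 : ℝ) ≤ m := by exact_mod_cast hm
  have hN := NN_two m
  have hj : j.val ≤ m := by
    have := j.isLt
    omega
  have hτ := tau_le_sqrt hm hj
  have hτ0 : (0 : ℝ) ≤ (tau (m + 1) j.val : ℝ) := by exact_mod_cast tau_nonneg _ _
  set δ : ℝ := 1 / Real.sqrt (m * ε) with hδ
  have hmε : 0 < (m : ℝ) * ε := by positivity
  have hs0 : 0 < Real.sqrt (m * ε) := Real.sqrt_pos.2 hmε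
  have hδ0 : 0 < δ := by positivity
  have hδ2 : δ ^ 2 = 1 / (m * ε) := by
    rw [hδ, div_pow, Real.sq_sqrt hmε.le, one_pow]
  have hV : (0 : ℝ) ≤ ((Val m).card : ℝ) := by positivity
  have hlate := fun k0 hk => card_late (k0 := k0) hm hj hδ0 hk
  have hrate : 1 / ((m : ℝ) * δ ^ 2) = ε := by
    rw [hδ2]
    field_simp
  rw [hrate] at hlate
  set τ := (tau (m + 1) j.val : ℝ)
  set N : ℝ := (((m + 1) * m / 2 : ℕ) : ℝ) with hNdef
  have hNm : (m : ℝ) ≤ N := by nlinarith
  have hN1 : 1 ≤ N := by linarith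
  set k0 : ℕ := ⌈(N + 1) * (τ + δ)⌉₊ with hk0
  have hk1 : (N + 1) * (τ + δ) ≤ (k0 : ℝ) + 1 := (Nat.le_ceil _).trans (by linarith)
  have hk2 : (k0 : ℝ) < (N + 1) * (τ + δ) + 1 := Nat.ceil_lt_add_one (by positivity)
  have hlate' := hlate k0 hk1
  -- the size of the shift
  have hmθ : (m : ℝ) * (k0 / N) ≤ 6 * Real.sqrt (j.val * m) + 2 * Real.sqrt (m / ε) + 1 := by
    have e1 : (k0 : ℝ) / N ≤ 2 * (τ + δ) + 1 / m := by
      rw [div_le_iff₀ (by linarith)]
      have e2 : (1 : ℝ) ≤ 1 / m * N := by
        rw [div_mul_eq_mul_div, one_mul, le_div_iff₀ (by linarith)]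
        linarith
      nlinarith [mul_nonneg (by linarith : (0 : ℝ) ≤ N - 1) (by positivity : (0 : ℝ) ≤ τ + δ)]
    have e3 : (m : ℝ) * Real.sqrt (j.val / m) = Real.sqrt (j.val * m) := by
      have : (j.val : ℝ) * m = m ^ 2 * (j.val / m) := by
        field_simp
      rw [this, Real.sqrt_mul (by positivity), Real.sqrt_sq (by linarith)]
    have e4 : (m : ℝ) * δ = Real.sqrt (m / ε) := by
      have h5 : (m : ℝ) / ε = (m * δ) ^ 2 := by
        rw [mul_pow, hδ2]
        field_simp
      rw [h5, Real.sqrt_sq (by positivity)]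
    calc (m : ℝ) * (k0 / N) ≤ m * (2 * (τ + δ) + 1 / m) :=
          mul_le_mul_of_nonneg_left e1 (by linarith)
      _ = 2 * (m * τ) + 2 * (m * δ) + 1 := by
          field_simp
      _ ≤ 2 * (m * (3 * Real.sqrt (j.val / m))) + 2 * (m * δ) + 1 := by
          have := mul_le_mul_of_nonneg_left hτ (by linarith : (0 : ℝ) ≤ m)
          linarith
      _ = 6 * (m * Real.sqrt (j.val / m)) + 2 * (m * δ) + 1 := by ring
      _ = _ := by rw [e3, e4]
  have hQ : ((m : ℝ) * (k0 / N)) ^ 2 ≤ m * (108 * (j.val : ℝ) + 12 / ε + 3) := by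
    have a0 : 0 ≤ (m : ℝ) * (k0 / N) := by positivity
    have a1 := Real.sq_sqrt (by positivity : (0 : ℝ) ≤ (j.val : ℝ) * m)
    have a2 := Real.sq_sqrt (by positivity : (0 : ℝ) ≤ (m : ℝ) / ε)
    have a3 : ((m : ℝ) * (k0 / N)) ^ 2 ≤
        (6 * Real.sqrt (j.val * m) + 2 * Real.sqrt (m / ε) + 1) ^ 2 :=
      pow_le_pow_left₀ a0 hmθ 2
    generalize Real.sqrt (j.val * m) = x at *
    generalize Real.sqrt (m / ε) = y at *
    have a4 : (6 * x + 2 * y + 1) ^ 2 ≤ 3 * (36 * x ^ 2 + 4 * y ^ 2 + 1) := by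
      nlinarith [sq_nonneg (6 * x - 2 * y), sq_nonneg (6 * x - 1), sq_nonneg (2 * y - 1)]
    rw [a1, a2] at a4
    have a5 : (m : ℝ) * (12 / ε) = 12 * (m / ε) := by ring
    nlinarith
  rcases Nat.lt_or_ge ((m + 1) * m / 2) k0 with hlt | hge
  · refine ⟨Val m, Finset.Subset.refl _, fun _ => 0, fun _ => le_rfl, ?_, ?_, ?_⟩
    · rw [Finset.sdiff_self, Finset.card_empty, Nat.cast_zero]
      positivity
    · intro s _
      have h1 : (1 : ℝ) ≤ k0 / N := by
        rw [one_le_div (by linarith), hNdef]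
        exact_mod_cast hlt.le
      have h2 : (m : ℝ) ^ 2 ≤ ((m : ℝ) * (k0 / N)) ^ 2 := by
        refine pow_le_pow_left₀ (by linarith) ?_ 2
        nlinarith
      have h3 := (II_le_sq m s j).trans (h2.trans hQ)
      have h4 : 0 ≤ (m : ℝ) * (108 * (j.val : ℝ) + 12 / ε + 3) := by positivity
      linarith
    · rw [Finset.sum_const_zero]
      positivity
  · refine ⟨(Val m).filter (fun s => (j.val : ℤ) ≤ lp ((List.ofFn s).take k0) 0 ∧
      (j.val : ℤ) ≤ lp ((List.ofFn (rcp s)).take k0) 0), Finset.filter_subset _ _,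
      fun s => 2 * (II m (rot k0 s) 0 + II m (rot k0 (rcp s)) 0), ?_, ?_, ?_,
      sum_compare k0⟩
    · intro s
      have := II_nonneg m (rot k0 s) 0
      have := II_nonneg m (rot k0 (rcp s)) 0
      positivity
    · have h1 : Val m \ (Val m).filter (fun s => (j.val : ℤ) ≤ lp ((List.ofFn s).take k0) 0 ∧
          (j.val : ℤ) ≤ lp ((List.ofFn (rcp s)).take k0) 0) ⊆
          (Val m).filter (fun s => lp ((List.ofFn s).take k0) 0 < (j.val : ℤ)) ∪
          (Val m).filter (fun s => lp ((List.ofFn (rcp s)).take k0) 0 < (j.val : ℤ)) := by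
        intro s hs
        rw [Finset.mem_sdiff, Finset.mem_filter, not_and, not_and_or] at hs
        rw [Finset.mem_union, Finset.mem_filter, Finset.mem_filter]
        rcases hs.2 hs.1 with h | h
        · left
          exact ⟨hs.1, by omega⟩
        · right
          exact ⟨hs.1, by omega⟩
      have h2 := (Finset.card_le_card h1).trans (Finset.card_union_le _ _)
      rw [card_bad k0 j.val hge, card_bad_rc k0 j.val hge] at h2
      have h3 : (((Val m \ (Val m).filter (fun s => (j.val : ℤ) ≤
          lp ((List.ofFn s).take k0) 0 ∧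
          (j.val : ℤ) ≤ lp ((List.ofFn (rcp s)).take k0) 0)).card : ℕ) : ℝ) ≤
          ((((Val m).filter (fun s => k0 < Tm m s j.val)).card : ℕ) : ℝ) +
          ((((Val m).filter (fun s => k0 < Tm m s j.val)).card : ℕ) : ℝ) := by
        exact_mod_cast h2
      linarith
    · intro s hs
      rw [Finset.mem_filter] at hs
      have h1 := compare hm hs.1 hge hs.2.1 hs.2.2
      rw [← hNdef] at h1
      linarith

open Classical in
/-- The tail bound for the particles near the left end. -/
theorem tail_left (m : ℕ) (j : Fin (m + 1)) {M : ℝ} (hM0 : 0 < M) :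
    ((((Val m).filter (fun s => M * (1 + (j.val : ℝ)) < VV m s j)).card : ℕ) : ℝ) ≤
      170000 / M * (Val m).card := by
  have hV : (0 : ℝ) ≤ ((Val m).card : ℝ) := by positivity
  have hj0 : (0 : ℝ) ≤ (j.val : ℝ) := by positivity
  have htriv : ((((Val m).filter (fun s => M * (1 + (j.val : ℝ)) < VV m s j)).card : ℕ) : ℝ) ≤
      (Val m).card := by
    exact_mod_cast Finset.card_filter_le _ _
  rcases le_total M 170000 with hM4 | hM4
  · refine htriv.trans ?_
    have h1 : (1 : ℝ) ≤ 170000 / M := by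
      rw [one_le_div hM0]
      exact hM4
    nlinarith
  rcases Nat.eq_zero_or_pos m with rfl | hm
  · have h1 : (Val 0).filter (fun s => M * (1 + (j.val : ℝ)) < VV 0 s j) = ∅ := by
      rw [Finset.filter_eq_empty_iff]
      intro s _ hcon
      have h2 := VV_le 0 s j
      have h3 := II_le_sq 0 s j
      rw [Nat.cast_zero, zero_add, div_one] at h2
      rw [Nat.cast_zero] at h3
      nlinarith
    rw [h1, Finset.card_empty, Nat.cast_zero]
    positivity
  · have hm' : (1 : ℝ) ≤ m := by exact_mod_cast hm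
    obtain ⟨G, hG, F, hF0, hbad, hGF, hsum⟩ := good_set hm (ε := 18432 / M) (by positivity) j
    have h12 : 12 / (18432 / M) = M / 1536 := by
      field_simp
      ring
    rw [h12] at hGF
    have h1 : (Val m).filter (fun s => M * (1 + (j.val : ℝ)) < VV m s j) ⊆
        (Val m \ G) ∪ (Val m).filter (fun s => M * (1 + (j.val : ℝ)) / 2 <
          16 * F s / (m + 1)) := by
      intro s hs
      rw [Finset.mem_filter] at hs
      rw [Finset.mem_union, Finset.mem_sdiff, Finset.mem_filter]
      by_cases h : s ∈ G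
      · right
        refine ⟨hs.1, ?_⟩
        have h2 := hs.2.trans_le (VV_le m s j)
        have h3 : (16 * II m s j + 4) / ((m : ℝ) + 1) ≤
            16 * F s / (m + 1) + M * (1 + (j.val : ℝ)) / 2 := by
          rw [div_add' _ _ _ (by positivity), div_le_div_iff_of_pos_right (by positivity)]
          have h4 := hGF s h
          have h5 : 16 * (24 * ((m : ℝ) * (108 * (j.val : ℝ) + M / 1536 + 3))) + 4 ≤
              M * (1 + (j.val : ℝ)) / 2 * (m + 1) := by
            have h6 : 384 * (108 * (j.val : ℝ) + M / 1536 + 3) + 4 ≤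
                M * (1 + (j.val : ℝ)) / 2 := by
              nlinarith
            have h7 := mul_le_mul_of_nonneg_left h6 (by linarith : (0 : ℝ) ≤ m)
            have h8 : 0 ≤ M * (1 + (j.val : ℝ)) / 2 := by positivity
            nlinarith
          linarith
        linarith
      · left
        exact ⟨hs.1, h⟩
    have h2 := (Finset.card_le_card h1).trans (Finset.card_union_le _ _)
    have h2' : ((((Val m).filter (fun s => M * (1 + (j.val : ℝ)) < VV m s j)).card : ℕ) : ℝ) ≤
        (((Val m \ G).card : ℕ) : ℝ) +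
        ((((Val m).filter (fun s => M * (1 + (j.val : ℝ)) / 2 <
          16 * F s / (m + 1))).card : ℕ) : ℝ) := by
      exact_mod_cast h2
    have h3 : ((((Val m).filter (fun s => M * (1 + (j.val : ℝ)) / 2 <
          16 * F s / (m + 1))).card : ℕ) : ℝ) * (M * (1 + (j.val : ℝ)) / 2) ≤
          9920 * (Val m).card := by
      calc _ = ∑ s ∈ (Val m).filter (fun s => M * (1 + (j.val : ℝ)) / 2 <
            16 * F s / (m + 1)), M * (1 + (j.val : ℝ)) / 2 := by
            rw [Finset.sum_const, nsmul_eq_mul]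
        _ ≤ ∑ s ∈ (Val m).filter (fun s => M * (1 + (j.val : ℝ)) / 2 <
            16 * F s / (m + 1)), 16 * F s / (m + 1) := by
            refine Finset.sum_le_sum fun s hs => ?_
            rw [Finset.mem_filter] at hs
            exact hs.2.le
        _ ≤ ∑ s ∈ Val m, 16 * F s / (m + 1) := by
            refine Finset.sum_le_sum_of_subset_of_nonneg (Finset.filter_subset _ _)
              fun s _ _ => ?_
            have := hF0 s
            positivity
        _ = 16 * (∑ s ∈ Val m, F s) / (m + 1) := by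
            rw [← Finset.sum_div, ← Finset.mul_sum]
        _ ≤ 16 * (620 * m * (Val m).card) / (m + 1) := by
            refine div_le_div_of_nonneg_right ?_ (by positivity)
            linarith
        _ ≤ 9920 * (Val m).card := by
            rw [div_le_iff₀ (by positivity)]
            nlinarith
    set c : ℝ := ((((Val m).filter (fun s => M * (1 + (j.val : ℝ)) / 2 <
          16 * F s / (m + 1))).card : ℕ) : ℝ)
    have hc0 : 0 ≤ c := by positivity
    have h5 : c ≤ 19840 / M * (Val m).card := by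
      rw [div_mul_eq_mul_div, le_div_iff₀ hM0]
      nlinarith [mul_nonneg hc0 (mul_nonneg hM0.le hj0)]
    calc _ ≤ (((Val m \ G).card : ℕ) : ℝ) + c := h2'
      _ ≤ 2 * (18432 / M) * (Val m).card + 19840 / M * (Val m).card := add_le_add hbad h5
      _ = 56704 / M * (Val m).card := by ring
      _ ≤ 170000 / M * (Val m).card := by
          refine mul_le_mul_of_nonneg_right ?_ hV
          exact div_le_div_of_nonneg_right (by norm_num) hM0.le

/-! ### The complement -/

theorem xx_cp (m : ℕ) (s : Fin ((m + 1) * m / 2) → Fin m) (j : Fin (m + 1)) (t : ℝ) :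
    xx m (cp s) j t = - xx m s (Fin.rev j) t := by
  have h : ∀ k, (((PP m (cp s) k j).val : ℕ) : ℝ) =
      m - (((PP m s k (Fin.rev j)).val : ℕ) : ℝ) := by
    intro k
    rw [PP_cp, Nat.cast_sub]
    have := (PP m s k (Fin.rev j)).isLt
    omega
  unfold xx
  rw [h]
  field_simp
  ring

theorem VV_cp (m : ℕ) (s : Fin ((m + 1) * m / 2) → Fin m) (j : Fin (m + 1)) :
    VV m (cp s) j = VV m s (Fin.rev j) := by
  have h : ∀ t, ZZ m (cp s) j t = - ZZ m s (Fin.rev j) t := by
    intro t
    unfold ZZ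
    rw [xx_cp, xx_cp]
    push_cast
    ring
  unfold VV
  simp only [h, norm_neg, intervalIntegral.integral_neg, mul_neg]

open Classical in
/-- The tail bound for all particles. -/
theorem tail_all (m : ℕ) (j : Fin (m + 1)) {M : ℝ} (hM : 0 < M) :
    ((((Val m).filter (fun s => M * (1 + min (j.val : ℝ) (m - j.val)) <
      VV m s j)).card : ℕ) : ℝ) ≤ 170000 / M * (Val m).card := by
  rcases le_total (j.val : ℝ) (m - j.val) with hj | hj
  · rw [min_eq_left hj]
    exact tail_left m j hM
  · rw [min_eq_right hj]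
    have h1 := tail_left m (Fin.rev j) hM
    have h2 : (((Fin.rev j).val : ℕ) : ℝ) = m - j.val := by
      rw [Fin.val_rev, Nat.cast_sub (by have := j.isLt; omega)]
      push_cast
      ring
    rw [h2] at h1
    refine le_trans (le_of_eq ?_) h1
    congr 1
    rw [Finset.card_filter, Finset.card_filter]
    have h3 := sum_cp (m := m)
      (fun s => if M * (1 + ((m : ℝ) - j.val)) < VV m s j then 1 else 0)
    rw [← h3]
    refine Finset.sum_congr rfl fun s _ => ?_
    rw [VV_cp]

/-- The mean for the first particle. -/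
theorem mean_zero (m : ℕ) : ∑ s ∈ Val m, VV m s 0 ≤ 2500 * (Val m).card := by
  have h1 := sum_II_zero m
  have hV : (0 : ℝ) ≤ ((Val m).card : ℝ) := by positivity
  have hm : (0 : ℝ) ≤ m := by positivity
  calc ∑ s ∈ Val m, VV m s 0 ≤ ∑ s ∈ Val m, (16 * II m s 0 + 4) / (m + 1) :=
        Finset.sum_le_sum fun s _ => VV_le m s 0
    _ = (16 * (∑ s ∈ Val m, II m s 0) + (Val m).card * 4) / (m + 1) := by
        rw [← Finset.sum_div, Finset.sum_add_distrib, ← Finset.mul_sum, Finset.sum_const,
          nsmul_eq_mul]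
    _ ≤ 2500 * (Val m).card := by
        rw [div_le_iff₀ (by positivity)]
        nlinarith [mul_nonneg hm hV]

theorem mean_last (m : ℕ) : ∑ s ∈ Val m, VV m s (Fin.last m) ≤ 2500 * (Val m).card := by
  have h1 := sum_cp (m := m) (fun s => VV m s (Fin.last m))
  rw [← h1]
  have h2 : ∀ s, VV m (cp s) (Fin.last m) = VV m s 0 := by
    intro s
    rw [VV_cp, Fin.rev_last]
  simp only [h2]
  exact mean_zero m

end Pool.Agent.SortNet
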