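import Pool.Agent.Work.MP_aee03d_pr.Basic

/-!
# The transition formula for the numbers of reduced words (module TRANS)
-/

namespace Pool.Agent.SortNet

open Equiv

/-- The transposition of the positions `p < q` is a cover of `w`. -/
def Cov (w : Perm ℤ) (p q : ℤ) : Prop :=
  p < q ∧ w p < w q ∧ ∀ m, p < m → m < q → ¬ (w p < w m ∧ w m < w q)

open Classical in
/-- The right covers at the position `q`. -/
noncomputable def rc (w : Perm ℤ) (q : ℤ) : Finset ℤ :=
  if h : {j : ℤ | Cov w q j}.Finite then h.toFinset else ∅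

open Classical in
/-- The left covers at the position `q`. -/
noncomputable def lc (w : Perm ℤ) (q : ℤ) : Finset ℤ :=
  if h : {i : ℤ | Cov w i q}.Finite then h.toFinset else ∅

/-- A finitely supported permutation is the identity outside of an interval. -/
theorem FS.exists_bound {w : Perm ℤ} (h : FS w) :
    ∃ K : ℤ, 0 < K ∧ ∀ x, x < -K ∨ K < x → w x = x := by
  obtain ⟨a, ha⟩ := h.bddBelow
  obtain ⟨b, hb⟩ := h.bddAbove
  refine ⟨max 1 (max (-a) b), by omega, fun x hx => ?_⟩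
  by_contra hcon
  have h1 := ha hcon
  have h2 := hb hcon
  rcases hx with hx | hx <;> omega

theorem rc_finite {w : Perm ℤ} (h : FS w) (q : ℤ) : {j : ℤ | Cov w q j}.Finite := by
  obtain ⟨K, hK0, hK⟩ := h.exists_bound
  obtain ⟨x0, g1, g2, g3⟩ : ∃ x0 : ℤ, K < x0 ∧ q < x0 ∧ w q < x0 :=
    ⟨max K (max q (w q)) + 1, by omega, by omega, by omega⟩
  refine (Set.finite_Icc q x0).subset fun j hj => ?_
  obtain ⟨h1, h2, h3⟩ := hj
  rw [Set.mem_Icc]
  refine ⟨h1.le, ?_⟩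
  by_contra hcon
  push Not at hcon
  have h4 := h3 x0 g2 hcon
  have e1 := hK x0 (Or.inr g1)
  have e2 := hK j (Or.inr (by omega))
  omega

theorem lc_finite {w : Perm ℤ} (h : FS w) (q : ℤ) : {i : ℤ | Cov w i q}.Finite := by
  obtain ⟨K, hK0, hK⟩ := h.exists_bound
  obtain ⟨x0, g1, g2, g3⟩ : ∃ x0 : ℤ, x0 < -K ∧ x0 < q ∧ x0 < w q :=
    ⟨min (-K) (min q (w q)) - 1, by omega, by omega, by omega⟩
  refine (Set.finite_Icc x0 q).subset fun j hj => ?_
  obtain ⟨h1, h2, h3⟩ := hj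
  rw [Set.mem_Icc]
  refine ⟨?_, h1.le⟩
  by_contra hcon
  push Not at hcon
  have h4 := h3 x0 hcon g2
  have e1 := hK x0 (Or.inl g1)
  have e2 := hK j (Or.inl (by omega))
  omega

theorem mem_rc {w : Perm ℤ} (h : FS w) {q j : ℤ} : j ∈ rc w q ↔ Cov w q j := by
  unfold rc
  rw [dif_pos (rc_finite h q), Set.Finite.mem_toFinset]
  exact Iff.rfl

theorem mem_lc {w : Perm ℤ} (h : FS w) {q i : ℤ} : i ∈ lc w q ↔ Cov w i q := by
  unfold lc
  rw [dif_pos (lc_finite h q), Set.Finite.mem_toFinset]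
  exact Iff.rfl

/-- Covers and left descents commute, apart from two exceptional situations. -/
theorem cov_ldesc_comm {w : Perm ℤ} (h : FS w) {p q v : ℤ}
    (h1 : ¬ (w p = v ∧ w q = v + 1)) (h2 : ¬ (w p = v + 1 ∧ w q = v)) :
    (Cov w p q ∧ v ∈ ldesc (w * swap p q)) ↔ (v ∈ ldesc w ∧ Cov (sw v * w) p q) := by
  rw [mem_ldesc (h.mul (FS.swap p q)), mem_ldesc h]
  have e1 : ∀ x, (w * swap p q)⁻¹ x = swap p q (w⁻¹ x) := by
    intro x
    rw [mul_inv_rev, swap_inv]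
    rfl
  rw [e1, e1]
  obtain ⟨a, rfl⟩ : ∃ a, v = w a := ⟨w⁻¹ v, (apply_inv w v).symm⟩
  obtain ⟨b, hb⟩ : ∃ b, w a + 1 = w b := ⟨w⁻¹ (w a + 1), (apply_inv w _).symm⟩
  rw [hb] at h1 h2
  rw [inv_apply, hb, inv_apply]
  have k : ∀ x y, w x = w y ↔ x = y := fun x y => w.injective.eq_iff
  rw [k, k] at h1 h2
  have e2 : ∀ m, (sw (w a) * w) m = if m = a then w b else if m = b then w a else w m := by
    intro m
    show swap (w a) (w a + 1) (w m) = _
    simp only [swap_apply_def, hb, k]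
  unfold Cov
  simp only [e2, swap_apply_def]
  have k1 := k p a
  have k2 := k p b
  have k3 := k q a
  have k4 := k q b
  have k5 := k a b
  constructor
  · rintro ⟨⟨c1, c2, c3⟩, c4⟩
    have ca := c3 a
    have cb := c3 b
    refine ⟨?_, c1, ?_, ?_⟩
    · split_ifs at c4 <;> omega
    · split_ifs at c4 ⊢ <;> omega
    · intro m hm1 hm2
      have cm := c3 m hm1 hm2
      have m1 := k m a
      have m2 := k m b
      split_ifs at c4 ⊢ <;> omega
  · rintro ⟨c4, c1, c2, c3⟩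
    have ca := c3 a
    have cb := c3 b
    refine ⟨⟨c1, ?_, ?_⟩, ?_⟩
    · split_ifs at c2 <;> omega
    · intro m hm1 hm2
      have cm := c3 m hm1 hm2
      have m1 := k m a
      have m2 := k m b
      split_ifs at c2 cm ca cb <;> omega
    · split_ifs at c2 ca cb ⊢ <;> omega

/-- Two double sums over almost the same set of pairs. -/
theorem exchange (A C : Finset ℤ) (B D : ℤ → Finset ℤ) (F : ℤ → ℤ → ℕ) (r : ℕ)
    (j1 v1 j2 v2 : ℤ) (c1 c2 : Prop) [Decidable c1] [Decidable c2]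
    (hAB : ∀ j v, (j ∈ A ∧ v ∈ B j) ↔
      ((v ∈ C ∧ j ∈ D v) ∧ ¬ (c2 ∧ j = j2 ∧ v = v2)) ∨ (c1 ∧ j = j1 ∧ v = v1))
    (h1 : c1 → ¬ (v1 ∈ C ∧ j1 ∈ D v1)) (h2 : c2 → v2 ∈ C ∧ j2 ∈ D v2)
    (h3 : c1 → c2 → ¬ (j1 = j2 ∧ v1 = v2))
    (hF1 : c1 → F j1 v1 = r) (hF2 : c2 → F j2 v2 = r) :
    ∑ j ∈ A, ∑ v ∈ B j, F j v + (if c2 then r else 0) =
      ∑ v ∈ C, ∑ j ∈ D v, F j v + (if c1 then r else 0) := by
  classical
  let SA : Finset (ℤ × ℤ) := (A ×ˢ A.biUnion B).filter (fun x => x.2 ∈ B x.1)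
  let SC : Finset (ℤ × ℤ) := (C.biUnion D ×ˢ C).filter (fun x => x.1 ∈ D x.2)
  have mA : ∀ x : ℤ × ℤ, x ∈ SA ↔ x.1 ∈ A ∧ x.2 ∈ B x.1 := by
    intro x
    simp only [SA, Finset.mem_filter, Finset.mem_product, Finset.mem_biUnion]
    constructor
    · rintro ⟨⟨h1, -⟩, h2⟩
      exact ⟨h1, h2⟩
    · rintro ⟨h1, h2⟩
      exact ⟨⟨h1, _, h1, h2⟩, h2⟩
  have mC : ∀ x : ℤ × ℤ, x ∈ SC ↔ x.2 ∈ C ∧ x.1 ∈ D x.2 := by
    intro x
    simp only [SC, Finset.mem_filter, Finset.mem_product, Finset.mem_biUnion]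
    constructor
    · rintro ⟨⟨-, h1⟩, h2⟩
      exact ⟨h1, h2⟩
    · rintro ⟨h1, h2⟩
      exact ⟨⟨⟨_, h1, h2⟩, h1⟩, h2⟩
  have sA : ∑ x ∈ SA, F x.1 x.2 = ∑ j ∈ A, ∑ v ∈ B j, F j v :=
    Finset.sum_finset_product SA A B mA
  have sC : ∑ x ∈ SC, F x.1 x.2 = ∑ v ∈ C, ∑ j ∈ D v, F j v :=
    Finset.sum_finset_product_right SC C D mC
  let E1 : Finset (ℤ × ℤ) := if c1 then {(j1, v1)} else ∅
  let E2 : Finset (ℤ × ℤ) := if c2 then {(j2, v2)} else ∅
  have mE1 : ∀ x : ℤ × ℤ, x ∈ E1 ↔ c1 ∧ x.1 = j1 ∧ x.2 = v1 := by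
    intro x
    by_cases hc : c1
    · simp only [E1, if_pos hc, Finset.mem_singleton, Prod.ext_iff, hc, true_and]
    · simp only [E1, if_neg hc, Finset.notMem_empty, hc, false_and]
  have mE2 : ∀ x : ℤ × ℤ, x ∈ E2 ↔ c2 ∧ x.1 = j2 ∧ x.2 = v2 := by
    intro x
    by_cases hc : c2
    · simp only [E2, if_pos hc, Finset.mem_singleton, Prod.ext_iff, hc, true_and]
    · simp only [E2, if_neg hc, Finset.notMem_empty, hc, false_and]
  have sE1 : ∑ x ∈ E1, F x.1 x.2 = if c1 then r else 0 := by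
    by_cases hc : c1
    · simp only [E1, if_pos hc, Finset.sum_singleton]
      exact hF1 hc
    · simp only [E1, if_neg hc, Finset.sum_empty]
  have sE2 : ∑ x ∈ E2, F x.1 x.2 = if c2 then r else 0 := by
    by_cases hc : c2
    · simp only [E2, if_pos hc, Finset.sum_singleton]
      exact hF2 hc
    · simp only [E2, if_neg hc, Finset.sum_empty]
  have hAB' : ∀ x : ℤ × ℤ, x ∈ SA ↔ (x ∈ SC ∧ x ∉ E2) ∨ x ∈ E1 := by
    intro x
    rw [mA, mC, mE1, mE2, hAB]
  have d1 : Disjoint SA E2 := by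
    rw [Finset.disjoint_left]
    intro x hx hx2
    rcases (hAB' x).1 hx with h | h
    · exact h.2 hx2
    · obtain ⟨a1, a2, a3⟩ := (mE1 x).1 h
      obtain ⟨b1, b2, b3⟩ := (mE2 x).1 hx2
      exact h3 a1 b1 ⟨a2.symm.trans b2, a3.symm.trans b3⟩
  have d2 : Disjoint SC E1 := by
    rw [Finset.disjoint_left]
    intro x hx hx2
    obtain ⟨a1, a2, a3⟩ := (mE1 x).1 hx2
    have h := (mC x).1 hx
    rw [a2, a3] at h
    exact h1 a1 h
  rw [← sA, ← sC, ← sE1, ← sE2, ← Finset.sum_union d1, ← Finset.sum_union d2]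
  congr 1
  ext x
  rw [Finset.mem_union, Finset.mem_union, hAB']
  constructor
  · rintro ((⟨h, -⟩ | h) | h)
    · exact Or.inl h
    · exact Or.inr h
    · left
      obtain ⟨b1, b2, b3⟩ := (mE2 x).1 h
      rw [mC, b2, b3]
      exact h2 b1
  · rintro (h | h)
    · by_cases h' : x ∈ E2
      · exact Or.inr h'
      · exact Or.inl (Or.inl ⟨h, h'⟩)
    · exact Or.inl (Or.inr h)

theorem cov_adj {w : Perm ℤ} {p q v : ℤ} (hpq : p < q) (h1 : w p = v) (h2 : w q = v + 1) :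
    Cov w p q := by
  refine ⟨hpq, by omega, fun m _ _ => by omega⟩

theorem ldesc_swap {w : Perm ℤ} (h : FS w) {p q v : ℤ} (hpq : p < q) (h1 : w p = v)
    (h2 : w q = v + 1) : v ∈ ldesc (w * swap p q) := by
  rw [mem_ldesc (h.mul (FS.swap p q))]
  have e1 : ∀ x, (w * swap p q)⁻¹ x = swap p q (w⁻¹ x) := by
    intro x
    rw [mul_inv_rev, swap_inv]
    rfl
  rw [e1, e1, ← h2, inv_apply, ← h1, inv_apply, swap_apply_left, swap_apply_right]
  exact hpq

theorem sw_mul_mul_swap {w : Perm ℤ} {p q v : ℤ}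
    (h : (w p = v ∧ w q = v + 1) ∨ (w p = v + 1 ∧ w q = v)) :
    sw v * (w * swap p q) = w := by
  rw [Equiv.mul_swap_eq_swap_mul, ← mul_assoc]
  rcases h with ⟨h1, h2⟩ | ⟨h1, h2⟩
  · rw [h1, h2]
    show swap v (v + 1) * swap v (v + 1) * w = w
    rw [swap_mul_self, one_mul]
  · rw [h1, h2, swap_comm (v + 1) v]
    show swap v (v + 1) * swap v (v + 1) * w = w
    rw [swap_mul_self, one_mul]

/-- The pairs (cover, then left descent) against the pairs (left descent, then cover). -/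
theorem cov_pairs {w : Perm ℤ} (h : FS w) (p q v : ℤ) :
    (Cov w p q ∧ v ∈ ldesc (w * swap p q)) ↔
      ((v ∈ ldesc w ∧ Cov (sw v * w) p q) ∧ ¬ (p < q ∧ w p = v + 1 ∧ w q = v)) ∨
        (p < q ∧ w p = v ∧ w q = v + 1) := by
  by_cases h1 : w p = v ∧ w q = v + 1
  · constructor
    · intro h2
      exact Or.inr ⟨h2.1.1, h1⟩
    · rintro (⟨⟨h2, h3⟩, -⟩ | ⟨h2, -⟩)
      · exfalso
        have h4 := h3.2.1
        rw [Perm.mul_apply, Perm.mul_apply, h1.1, h1.2, sw_apply_left, sw_apply_right] at h4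
        omega
      · exact ⟨cov_adj h2 h1.1 h1.2, ldesc_swap h h2 h1.1 h1.2⟩
  · by_cases h2 : w p = v + 1 ∧ w q = v
    · constructor
      · rintro ⟨h3, -⟩
        have h4 := h3.2.1
        omega
      · rintro (⟨⟨h3, h4⟩, h5⟩ | ⟨h3, h4⟩)
        · exact absurd ⟨h4.1, h2⟩ h5
        · exact absurd h4 h1
    · rw [cov_ldesc_comm h h1 h2]
      constructor
      · intro h3
        exact Or.inl ⟨h3, fun h4 => h2 h4.2⟩
      · rintro (h3 | h3)
        · exact h3.1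
        · exact absurd h3.2 h1

theorem pair_ldesc {w : Perm ℤ} (h : FS w) {p q v : ℤ} (hpq : p < q) (h1 : w p = v + 1)
    (h2 : w q = v) : v ∈ ldesc w ∧ Cov (sw v * w) p q := by
  constructor
  · rw [mem_ldesc h, ← h1, inv_apply, ← h2, inv_apply]
    exact hpq
  · refine cov_adj (v := v) hpq ?_ ?_
    · rw [Perm.mul_apply, h1, sw_apply_right]
    · rw [Perm.mul_apply, h2, sw_apply_left]

theorem not_pair_ldesc {w : Perm ℤ} {p q v : ℤ} (h1 : w p = v) (h2 : w q = v + 1) :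
    ¬ (v ∈ ldesc w ∧ Cov (sw v * w) p q) := by
  rintro ⟨-, h3⟩
  have h4 := h3.2.1
  rw [Perm.mul_apply, Perm.mul_apply, h1, h2, sw_apply_left, sw_apply_right] at h4
  omega

theorem right_exchange {w : Perm ℤ} (h : FS w) (q : ℤ) (k : ℕ) :
    ∑ j ∈ rc w q, ∑ v ∈ ldesc (w * swap q j), R k (sw v * (w * swap q j)) +
        (if q < w⁻¹ (w q - 1) then R k w else 0) =
      ∑ v ∈ ldesc w, ∑ j ∈ rc (sw v * w) q, R k (sw v * (w * swap q j)) +
        (if q < w⁻¹ (w q + 1) then R k w else 0) := by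
  have e1 : w (w⁻¹ (w q + 1)) = w q + 1 := apply_inv _ _
  have e2 : w (w⁻¹ (w q - 1)) = w q - 1 := apply_inv _ _
  refine exchange (rc w q) (ldesc w) (fun j => ldesc (w * swap q j))
    (fun v => rc (sw v * w) q) (fun j v => R k (sw v * (w * swap q j))) (R k w)
    (w⁻¹ (w q + 1)) (w q) (w⁻¹ (w q - 1)) (w q - 1) _ _ ?_ ?_ ?_ ?_ ?_ ?_
  · intro j v
    rw [mem_rc h, mem_rc ((FS.sw v).mul h), cov_pairs h]
    have i1 : w j = v ∧ w q = v + 1 ↔ j = w⁻¹ (w q - 1) ∧ v = w q - 1 := by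
      constructor
      · rintro ⟨h1, h2⟩
        have h3 : w q - 1 = w j := by omega
        exact ⟨by rw [h3, inv_apply], by omega⟩
      · rintro ⟨h1, h2⟩
        rw [h1, e2]
        omega
    have i2 : w q = v ∧ w j = v + 1 ↔ j = w⁻¹ (w q + 1) ∧ v = w q := by
      constructor
      · rintro ⟨h1, h2⟩
        have h3 : w q + 1 = w j := by omega
        exact ⟨by rw [h3, inv_apply], by omega⟩
      · rintro ⟨h1, h2⟩
        rw [h1, e1]
        omega
    constructor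
    · rintro (⟨h1, h2⟩ | ⟨h1, h2⟩)
      · refine Or.inl ⟨h1, fun h3 => h2 ?_⟩
        obtain ⟨h4, h5⟩ := i1.2 h3.2
        exact ⟨by rw [h3.2.1]; exact h3.1, h5, h4⟩
      · obtain ⟨h3, h4⟩ := i2.1 h2
        exact Or.inr ⟨by rw [← h3]; exact h1, h3, h4⟩
    · rintro (⟨h1, h2⟩ | ⟨h1, h2⟩)
      · refine Or.inl ⟨h1, fun h3 => h2 ?_⟩
        obtain ⟨h4, h5⟩ := i1.1 ⟨h3.2.2, h3.2.1⟩
        exact ⟨by rw [← h4]; exact h3.1, h4, h5⟩
      · obtain ⟨h3, h4⟩ := i2.2 h2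
        exact Or.inr ⟨by rw [h2.1]; exact h1, h3, h4⟩
  · intro _
    rw [mem_rc ((FS.sw _).mul h)]
    exact not_pair_ldesc rfl e1
  · intro hc
    rw [mem_rc ((FS.sw _).mul h)]
    exact pair_ldesc h hc (by omega) e2
  · intro _ _ h3
    omega
  · intro _
    show R k (sw (w q) * (w * swap q (w⁻¹ (w q + 1)))) = _
    rw [sw_mul_mul_swap (Or.inl ⟨rfl, e1⟩)]
  · intro _
    show R k (sw (w q - 1) * (w * swap q (w⁻¹ (w q - 1)))) = _
    rw [sw_mul_mul_swap (Or.inr ⟨by omega, e2⟩)]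

theorem left_exchange {w : Perm ℤ} (h : FS w) (q : ℤ) (k : ℕ) :
    ∑ i ∈ lc w q, ∑ v ∈ ldesc (w * swap i q), R k (sw v * (w * swap i q)) +
        (if w⁻¹ (w q + 1) < q then R k w else 0) =
      ∑ v ∈ ldesc w, ∑ i ∈ lc (sw v * w) q, R k (sw v * (w * swap i q)) +
        (if w⁻¹ (w q - 1) < q then R k w else 0) := by
  have e1 : w (w⁻¹ (w q + 1)) = w q + 1 := apply_inv _ _
  have e2 : w (w⁻¹ (w q - 1)) = w q - 1 := apply_inv _ _
  refine exchange (lc w q) (ldesc w) (fun i => ldesc (w * swap i q))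
    (fun v => lc (sw v * w) q) (fun i v => R k (sw v * (w * swap i q))) (R k w)
    (w⁻¹ (w q - 1)) (w q - 1) (w⁻¹ (w q + 1)) (w q) _ _ ?_ ?_ ?_ ?_ ?_ ?_
  · intro i v
    rw [mem_lc h, mem_lc ((FS.sw v).mul h), cov_pairs h]
    have i1 : w i = v + 1 ∧ w q = v ↔ i = w⁻¹ (w q + 1) ∧ v = w q := by
      constructor
      · rintro ⟨h1, h2⟩
        have h3 : w q + 1 = w i := by omega
        exact ⟨by rw [h3, inv_apply], by omega⟩
      · rintro ⟨h1, h2⟩
        rw [h1, e1]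
        omega
    have i2 : w i = v ∧ w q = v + 1 ↔ i = w⁻¹ (w q - 1) ∧ v = w q - 1 := by
      constructor
      · rintro ⟨h1, h2⟩
        have h3 : w q - 1 = w i := by omega
        exact ⟨by rw [h3, inv_apply], by omega⟩
      · rintro ⟨h1, h2⟩
        rw [h1, e2]
        omega
    constructor
    · rintro (⟨h1, h2⟩ | ⟨h1, h2⟩)
      · refine Or.inl ⟨h1, fun h3 => h2 ?_⟩
        obtain ⟨h4, h5⟩ := i1.2 h3.2
        exact ⟨by rw [h3.2.1]; exact h3.1, h4, h5⟩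
      · obtain ⟨h3, h4⟩ := i2.1 h2
        exact Or.inr ⟨by rw [← h3]; exact h1, h3, h4⟩
    · rintro (⟨h1, h2⟩ | ⟨h1, h2⟩)
      · refine Or.inl ⟨h1, fun h3 => h2 ?_⟩
        obtain ⟨h4, h5⟩ := i1.1 h3.2
        exact ⟨by rw [← h4]; exact h3.1, h4, h5⟩
      · obtain ⟨h3, h4⟩ := i2.2 h2
        exact Or.inr ⟨by rw [h2.1]; exact h1, h3, h4⟩
  · intro _
    rw [mem_lc ((FS.sw _).mul h)]
    exact not_pair_ldesc e2 (by omega)
  · intro hc
    rw [mem_lc ((FS.sw _).mul h)]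
    exact pair_ldesc h hc e1 rfl
  · intro _ _ h3
    omega
  · intro _
    show R k (sw (w q - 1) * (w * swap (w⁻¹ (w q - 1)) q)) = _
    rw [sw_mul_mul_swap (Or.inl ⟨e2, by omega⟩)]
  · intro _
    show R k (sw (w q) * (w * swap (w⁻¹ (w q + 1)) q)) = _
    rw [sw_mul_mul_swap (Or.inr ⟨e1, rfl⟩)]

/-- The transition formula. -/
theorem transition {w : Perm ℤ} (h : FS w) (q : ℤ) (k : ℕ) :
    ∑ j ∈ rc w q, R k (w * swap q j) = ∑ i ∈ lc w q, R k (w * swap i q) := by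
  induction k generalizing w with
  | zero =>
    classical
    have key : ∀ p q : ℤ, Cov w p q → R 0 (w * swap p q) = 0 := by
      intro p q hc
      rw [R_zero, if_neg]
      intro h1
      rw [mul_eq_one_iff_eq_inv, swap_inv] at h1
      have h2 := hc.2.1
      rw [h1, swap_apply_left, swap_apply_right] at h2
      have h3 := hc.1
      omega
    rw [Finset.sum_eq_zero, Finset.sum_eq_zero]
    · intro i hi
      exact key _ _ ((mem_lc h).1 hi)
    · intro j hj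
      exact key _ _ ((mem_rc h).1 hj)
  | succ k ih =>
    have e1 : ∑ j ∈ rc w q, R (k + 1) (w * swap q j) =
        ∑ j ∈ rc w q, ∑ v ∈ ldesc (w * swap q j), R k (sw v * (w * swap q j)) :=
      Finset.sum_congr rfl fun j _ => R_succ_left k (h.mul (FS.swap q j))
    have e2 : ∑ i ∈ lc w q, R (k + 1) (w * swap i q) =
        ∑ i ∈ lc w q, ∑ v ∈ ldesc (w * swap i q), R k (sw v * (w * swap i q)) :=
      Finset.sum_congr rfl fun i _ => R_succ_left k (h.mul (FS.swap i q))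
    have e3 : ∑ v ∈ ldesc w, ∑ j ∈ rc (sw v * w) q, R k (sw v * (w * swap q j)) =
        ∑ v ∈ ldesc w, ∑ i ∈ lc (sw v * w) q, R k (sw v * (w * swap i q)) := by
      refine Finset.sum_congr rfl fun v _ => ?_
      have h1 := ih ((FS.sw v).mul h)
      simpa only [mul_assoc] using h1
    have h1 := right_exchange h q k
    have h2 := left_exchange h q k
    rw [← e1] at h1
    rw [← e2] at h2
    have h3 : w⁻¹ (w q + 1) ≠ q := by
      intro h4
      have h5 := apply_inv w (w q + 1)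
      rw [h4] at h5
      omega
    have h4 : w⁻¹ (w q - 1) ≠ q := by
      intro h4
      have h5 := apply_inv w (w q - 1)
      rw [h4] at h5
      omega
    rw [e3] at h1
    split_ifs at h1 h2 <;> omega

/-- The transition formula if there is only one cover on each side. -/
theorem transition_unique {w : Perm ℤ} (h : FS w) {q i0 j0 : ℤ} (hj : ∀ j, Cov w q j ↔ j = j0)
    (hi : ∀ i, Cov w i q ↔ i = i0) (k : ℕ) :
    R k (w * swap q j0) = R k (w * swap i0 q) := by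
  have h1 := transition h q k
  have e1 : rc w q = {j0} := by
    ext j
    rw [mem_rc h, hj, Finset.mem_singleton]
  have e2 : lc w q = {i0} := by
    ext i
    rw [mem_lc h, hi, Finset.mem_singleton]
  rwa [e1, e2, Finset.sum_singleton, Finset.sum_singleton] at h1

end Pool.Agent.SortNet
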