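import Pool.Agent.Work.MP_aee03d_pr.Trans

/-!
# Reduction of nested (vexillary) permutations to Grassmannian ones (module VEX)
-/

namespace Pool.Agent.SortNet

open Equiv

/-- The row of the Rothe diagram of `w` at the position `i`: the smaller values to the right. -/
def row (w : Perm ℤ) (i : ℤ) : Set ℤ := {x | x < w i ∧ i < w⁻¹ x}

/-- The rows are linearly ordered by inclusion. -/
def Nested (w : Perm ℤ) : Prop := ∀ i k, row w i ⊆ row w k ∨ row w k ⊆ row w i

/-- The length of a row. -/
noncomputable def code (w : Perm ℤ) (i : ℤ) : ℕ := (row w i).ncard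

/-- `w` increases up to `q` and after `q`. -/
def Gr (q : ℤ) (w : Perm ℤ) : Prop :=
  (∀ x y, x < y → y ≤ q → w x < w y) ∧ ∀ x y, q < x → x < y → w x < w y

theorem mem_row {w : Perm ℤ} {i p : ℤ} : w p ∈ row w i ↔ w p < w i ∧ i < p := by
  show w p < w i ∧ i < w⁻¹ (w p) ↔ _
  rw [inv_apply]

theorem row_finite {w : Perm ℤ} (h : FS w) (i : ℤ) : (row w i).Finite := by
  obtain ⟨K, hK0, hK⟩ := h.exists_bound
  obtain ⟨x0, g1, g2⟩ : ∃ x0 : ℤ, x0 < -K ∧ x0 < i := ⟨min (-K) i - 1, by omega, by omega⟩
  refine (Set.finite_Icc x0 (w i)).subset fun x hx => ?_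
  rw [Set.mem_Icc]
  refine ⟨?_, hx.1.le⟩
  by_contra hcon
  push Not at hcon
  have h1 : w x = x := hK x (Or.inl (by omega))
  have h2 : w⁻¹ x = x := by
    conv_lhs => rw [← h1]
    exact inv_apply _ _
  have h3 := hx.2
  omega

theorem mono_right {w : Perm ℤ} {a : ℤ} (h : ∀ x, a < x → w x < w (x + 1)) {x y : ℤ}
    (hx : a < x) (hxy : x < y) : w x < w y := by
  have h1 : x + 1 ≤ y := hxy
  induction y, h1 using Int.leInduction with
  | base => exact h x hx
  | succ y hy ih =>
    exact (ih (by omega)).trans (h y (by omega))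

theorem mono_left {w : Perm ℤ} {a : ℤ} (h : ∀ x, x < a → w x < w (x + 1)) {x y : ℤ}
    (hxy : x < y) (hy : y ≤ a) : w x < w y := by
  have h1 : x + 1 ≤ y := hxy
  induction y, h1 using Int.leInduction with
  | base => exact h x (by omega)
  | succ y hy' ih =>
    exact (ih (by omega) (by omega)).trans (h y (by omega))

/-- The conclusion of the reduction. -/
def Red (w : Perm ℤ) : Prop :=
  ∃ (g : Perm ℤ) (q : ℤ) (π : Perm ℤ), FS g ∧ Gr q g ∧ (∀ x, code g x = code w (π x)) ∧
    ∀ k, R k g = R k w

/-- One step of the reduction. -/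
theorem red_step {w : Perm ℤ} (h : FS w) (hN : Nested w) {d q : ℤ} (hdq : d < q)
    (hd : w (d + 1) < w d) (hd' : ∀ x, x < d → w x < w (x + 1))
    (hq : w (q + 1) < w q) (hq' : ∀ x, q < x → w x < w (x + 1)) :
    ∃ (g : Perm ℤ) (i : ℤ), FS g ∧ Nested g ∧ g (d + 1) < g d ∧
      (∀ x, x < d → g x < g (x + 1)) ∧ (∀ x, q < x → g x < g (x + 1)) ∧ g q < g (q - 1) ∧
      (∀ x, code g x = code w (swap i q x)) ∧ (∀ k, R k g = R k w) ∧
      code g q < code w q := by
  -- the last smaller value
  have hmr : ∀ x y, q < x → x < y → w x < w y := fun x y => mono_right hq'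
  obtain ⟨K, hK0, hK⟩ := h.exists_bound
  have hbex : ∃ j, (q < j ∧ w j < w q) ∧ ∀ m, (q < m ∧ w m < w q) → m ≤ j := by
    refine Int.exists_greatest_of_bdd (P := fun m => q < m ∧ w m < w q)
      ⟨max K (w q), fun m hm => ?_⟩ ⟨q + 1, by omega, hq⟩
    by_contra hcon
    push Not at hcon
    have h1 := hK m (Or.inr (by omega))
    omega
  obtain ⟨j, ⟨hqj, hjq⟩, hjmax⟩ := hbex
  have hiex : ∃ i, (i < q ∧ w i < w j) ∧ ∀ m, (m < q ∧ w m < w j) → m ≤ i := by
    obtain ⟨x0, g1, g2, g3⟩ : ∃ x0 : ℤ, x0 < -K ∧ x0 < q ∧ x0 < w j :=
      ⟨min (-K) (min q (w j)) - 1, by omega, by omega, by omega⟩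
    refine Int.exists_greatest_of_bdd (P := fun m => m < q ∧ w m < w j)
      ⟨q, fun m hm => hm.1.le⟩ ⟨x0, g2, ?_⟩
    rw [hK x0 (Or.inl g1)]
    exact g3
  obtain ⟨i, ⟨hiq, hij⟩, himax⟩ := hiex
  have inj : ∀ x y, w x = w y ↔ x = y := fun x y => w.injective.eq_iff
  -- the values between `i` and `q`
  have hbet : ∀ m, i < m → m < q → w j < w m := by
    intro m h1 h2
    by_contra hcon
    have h3 := inj m j
    have h4 := himax m ⟨h2, by omega⟩
    omega
  have hright : ∀ m, q < m → w m < w q → m ≤ j := fun m h1 h2 => hjmax m ⟨h1, h2⟩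
  have hright' : ∀ m, q < m → w m < w q → w m ≤ w j := by
    intro m h1 h2
    rcases (hright m h1 h2).lt_or_eq with h3 | h3
    · exact (hmr m j h1 h3).le
    · rw [h3]
  have hright2 : ∀ m, j < m → w q < w m := by
    intro m h1
    by_contra hcon
    have h3 := inj m q
    have h4 := hright m (by omega) (by omega)
    omega
  -- the values to the left of `i`
  have hleft : ∀ m, m < i → w m < w i ∨ w j < w m := by
    intro m hm
    by_contra hcon
    push Not at hcon
    have i1 := inj m i
    have i2 := inj m j
    have h1 : w i ∈ row w m := mem_row.2 ⟨by omega, hm⟩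
    have h2 : w i ∉ row w q := fun h3 => by
      have := (mem_row.1 h3).2
      omega
    have h3 : w j ∈ row w q := mem_row.2 ⟨hjq, hqj⟩
    have h4 : w j ∉ row w m := fun h5 => by
      have := (mem_row.1 h5).1
      omega
    rcases hN m q with h5 | h5
    · exact h2 (h5 h1)
    · exact h4 (h5 h3)
  -- the permutations
  have hv : FS (w * swap q j) := h.mul (FS.swap q j)
  have vq : (w * swap q j) q = w j := by rw [Perm.mul_apply, swap_apply_left]
  have vj : (w * swap q j) j = w q := by rw [Perm.mul_apply, swap_apply_right]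
  have vo : ∀ m, m ≠ q → m ≠ j → (w * swap q j) m = w m := fun m h1 h2 => by
    rw [Perm.mul_apply, swap_apply_of_ne_of_ne h1 h2]
  have hcj : ∀ j', Cov (w * swap q j) q j' ↔ j' = j := by
    intro j'
    unfold Cov
    rw [vq]
    constructor
    · rintro ⟨h1, h2, h3⟩
      by_contra hne
      rw [vo j' (by omega) hne] at h2
      have i1 := inj j' q
      rcases lt_or_gt_of_ne hne with h4 | h4
      · have h5 := hmr j' j h1 h4
        omega
      · have h5 := h3 j hqj h4
        rw [vj, vo j' (by omega) hne] at h5
        have h6 := hright2 j' h4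
        omega
    · rintro rfl
      refine ⟨hqj, by rw [vj]; exact hjq, fun m h1 h2 => ?_⟩
      rw [vo m (by omega) (by omega), vj]
      have h5 := hmr m j' h1 h2
      omega
  have hci : ∀ i', Cov (w * swap q j) i' q ↔ i' = i := by
    intro i'
    unfold Cov
    rw [vq]
    constructor
    · rintro ⟨h1, h2, h3⟩
      rw [vo i' (by omega) (by omega)] at h2
      by_contra hne
      have h4 := himax i' ⟨h1, h2⟩
      have h5 := h3 i (by omega) hiq
      rw [vo i' (by omega) (by omega), vo i (by omega) (by omega)] at h5
      rcases hleft i' (by omega) with h6 | h6 <;> omega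
    · rintro rfl
      refine ⟨hiq, by rw [vo i' (by omega) (by omega)]; exact hij, fun m h1 h2 => ?_⟩
      rw [vo m (by omega) (by omega)]
      have := hbet m h1 h2
      omega
  have hR := transition_unique hv hcj hci
  obtain ⟨g, hg⟩ : ∃ g, g = w * swap q j * swap i q := ⟨_, rfl⟩
  have hgFS : FS g := by
    rw [hg]
    exact hv.mul (FS.swap i q)
  have gi : g i = w j := by
    rw [hg, Perm.mul_apply, swap_apply_left, vq]
  have gq : g q = w i := by
    rw [hg, Perm.mul_apply, swap_apply_right, vo i (by omega) (by omega)]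
  have gj : g j = w q := by
    rw [hg, Perm.mul_apply, swap_apply_of_ne_of_ne (by omega) (by omega), vj]
  have go : ∀ m, m ≠ i → m ≠ q → m ≠ j → g m = w m := by
    intro m h1 h2 h3
    rw [hg, Perm.mul_apply, swap_apply_of_ne_of_ne h1 h2, vo m h2 h3]
  have hgR : ∀ k, R k g = R k w := by
    intro k
    have h1 := hR k
    rw [mul_assoc, swap_mul_self, mul_one] at h1
    rw [hg, h1]
  -- monotonicity after `q`
  have hgr' : ∀ x, q < x → g x < g (x + 1) := by
    intro x hx
    by_cases h1 : x = j
    · subst h1
      rw [gj, go (x + 1) (by omega) (by omega) (by omega)]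
      exact hright2 _ (by omega)
    · by_cases h2 : x + 1 = j
      · rw [h2, gj, go x (by omega) (by omega) h1]
        have h3 := hmr x j hx (by omega)
        omega
      · rw [go x (by omega) (by omega) h1, go (x + 1) (by omega) (by omega) h2]
        exact hq' x hx
  have hgmr : ∀ x y, q < x → x < y → g x < g y := fun x y => mono_right hgr'
  -- the rows
  let T : Set ℤ → Set ℤ := fun S => (S \ {w j}) ∪ {w i}
  have memT : ∀ (S : Set ℤ) (x : ℤ), x ∈ T S ↔ (x ∈ S ∧ x ≠ w j) ∨ x = w i := by
    intro S x
    simp only [T, Set.mem_union, Set.mem_sdiff, Set.mem_singleton_iff, ne_eq]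
  have rA : ∀ m, m < i → row g m = row w m := by
    intro m hm
    ext x
    obtain ⟨p, rfl⟩ : ∃ p, x = g p := ⟨g⁻¹ x, (apply_inv g x).symm⟩
    rw [mem_row, go m (by omega) (by omega) (by omega)]
    by_cases p1 : p = i
    · subst p1
      rw [gi, mem_row]
      omega
    · by_cases p2 : p = q
      · subst p2
        rw [gq, mem_row]
        omega
      · by_cases p3 : p = j
        · subst p3
          rw [gj, mem_row]
          omega
        · rw [go p p1 p2 p3, mem_row]
  have rB : ∀ m, i < m → m < q → row g m = T (row w m) := by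
    intro m hm1 hm2
    have hm3 := hbet m hm1 hm2
    ext x
    obtain ⟨p, rfl⟩ : ∃ p, x = g p := ⟨g⁻¹ x, (apply_inv g x).symm⟩
    rw [mem_row, memT, go m (by omega) (by omega) (by omega)]
    by_cases p1 : p = i
    · subst p1
      rw [gi, mem_row]
      omega
    · by_cases p2 : p = q
      · subst p2
        rw [gq, mem_row]
        omega
      · by_cases p3 : p = j
        · subst p3
          rw [gj, mem_row]
          have := inj q p
          have := inj q i
          omega
        · rw [go p p1 p2 p3, mem_row]
          have := inj p j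
          have := inj p i
          omega
  have rI : row g i = T (row w q) := by
    ext x
    obtain ⟨p, rfl⟩ : ∃ p, x = g p := ⟨g⁻¹ x, (apply_inv g x).symm⟩
    rw [mem_row, memT, gi]
    by_cases p1 : p = i
    · subst p1
      rw [gi, mem_row]
      omega
    · by_cases p2 : p = q
      · subst p2
        rw [gq, mem_row]
        omega
      · by_cases p3 : p = j
        · subst p3
          rw [gj, mem_row]
          have := inj q p
          have := inj q i
          omega
        · rw [go p p1 p2 p3, mem_row]
          have i1 := inj p j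
          have i2 := inj p i
          have h1 := hbet p
          have h2 := hright' p
          have h3 := himax p
          omega
  have rQ : row g q = row w i := by
    ext x
    obtain ⟨p, rfl⟩ : ∃ p, x = g p := ⟨g⁻¹ x, (apply_inv g x).symm⟩
    rw [mem_row, gq]
    by_cases p1 : p = i
    · subst p1
      rw [gi, mem_row]
      omega
    · by_cases p2 : p = q
      · subst p2
        rw [gq, mem_row]
        omega
      · by_cases p3 : p = j
        · subst p3
          rw [gj, mem_row]
          omega
        · rw [go p p1 p2 p3, mem_row]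
          have h1 := hbet p
          omega
  have rD : ∀ m, q < m → row g m = ∅ := by
    intro m hm
    rw [Set.eq_empty_iff_forall_notMem]
    intro x
    obtain ⟨p, rfl⟩ : ∃ p, x = g p := ⟨g⁻¹ x, (apply_inv g x).symm⟩
    rw [mem_row]
    rintro ⟨h1, h2⟩
    have := hgmr m p hm h2
    omega
  have rD' : ∀ m, q < m → row w m = ∅ := by
    intro m hm
    rw [Set.eq_empty_iff_forall_notMem]
    intro x
    obtain ⟨p, rfl⟩ : ∃ p, x = w p := ⟨w⁻¹ x, (apply_inv w x).symm⟩
    rw [mem_row]
    rintro ⟨h1, h2⟩
    have := hmr m p hm h2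
    omega
  -- membership facts
  have bB : ∀ k, i < k → k ≤ q → w j ∈ row w k ∧ w i ∉ row w k := by
    intro k h1 h2
    constructor
    · rw [mem_row]
      rcases h2.lt_or_eq with h3 | h3
      · exact ⟨hbet k h1 h3, by omega⟩
      · rw [h3]
        exact ⟨hjq, hqj⟩
    · rw [mem_row]
      omega
  have cardT : ∀ k, i < k → k ≤ q → (T (row w k)).ncard = (row w k).ncard := by
    intro k h1 h2
    obtain ⟨h3, h4⟩ := bB k h1 h2
    have hf := row_finite h k
    have h5 : T (row w k) = insert (w i) (row w k \ {w j}) := by
      ext x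
      rw [memT, Set.mem_insert_iff, Set.mem_sdiff, Set.mem_singleton_iff]
      exact or_comm
    rw [h5, Set.ncard_insert_of_notMem (fun h6 => h4 h6.1) hf.sdiff,
      Set.ncard_sdiff_singleton_add_one h3 hf]
  have hcode : ∀ x, code g x = code w (swap i q x) := by
    intro x
    unfold code
    by_cases h1 : x = i
    · rw [h1, swap_apply_left, rI]
      exact cardT q hiq le_rfl
    · by_cases h2 : x = q
      · rw [h2, swap_apply_right, rQ]
      · rw [swap_apply_of_ne_of_ne h1 h2]
        rcases lt_or_gt_of_ne h1 with h3 | h3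
        · rw [rA x h3]
        · rcases lt_or_gt_of_ne h2 with h4 | h4
          · rw [rB x h3 h4]
            exact cardT x h3 h4.le
          · rw [rD x h4, rD' x h4]
  have hCsub : ∀ k, i < k → k ≤ q → row w i ⊆ row w k := by
    intro k h1 h2 x
    obtain ⟨p, rfl⟩ : ∃ p, x = w p := ⟨w⁻¹ x, (apply_inv w x).symm⟩
    rw [mem_row, mem_row]
    rintro ⟨h3, h4⟩
    have h5 := hbet p h4
    have h6 : q < p := by
      by_contra hcon
      have i1 := inj p q
      rcases (show p < q ∨ p = q by omega) with h7 | h7
      · have := h5 h7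
        omega
      · rw [h7] at h3
        omega
    have h8 := (mem_row.1 (bB k h1 h2).1).1
    exact ⟨by omega, by omega⟩
  have bC : w j ∉ row w i := by
    rw [mem_row]
    omega
  -- nestedness
  have hNg : Nested g := by
    -- classification of the positions
    have cls : ∀ m, (m < i ∧ row g m = row w m) ∨
        (∃ k, i < k ∧ k ≤ q ∧ row g m = T (row w k)) ∨ row g m = row w i ∨ row g m = ∅ := by
      intro m
      rcases lt_trichotomy m i with h1 | h1 | h1
      · exact Or.inl ⟨h1, rA m h1⟩
      · right
        left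
        rw [h1]
        exact ⟨q, hiq, le_rfl, rI⟩
      · rcases lt_trichotomy m q with h2 | h2 | h2
        · exact Or.inr (Or.inl ⟨m, h1, h2.le, rB m h1 h2⟩)
        · right
          right
          left
          rw [h2]
          exact rQ
        · exact Or.inr (Or.inr (Or.inr (rD m h2)))
    have AB : ∀ m k, m < i → i < k → k ≤ q → row w m ⊆ T (row w k) ∨
        T (row w k) ⊆ row w m := by
      intro m k hm h1 h2
      obtain ⟨hb1, hb2⟩ := bB k h1 h2
      rcases hleft m hm with h3 | h3
      · left
        have h4 : w j ∉ row w m := by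
          rw [mem_row]
          omega
        have h5 : row w m ⊆ row w k := by
          rcases hN m k with h6 | h6
          · exact h6
          · exact absurd (h6 hb1) h4
        intro x hx
        rw [memT]
        refine Or.inl ⟨h5 hx, ?_⟩
        rintro rfl
        exact h4 hx
      · right
        have h4 : w i ∈ row w m := by
          rw [mem_row]
          omega
        have h5 : row w k ⊆ row w m := by
          rcases hN m k with h6 | h6
          · exact absurd (h6 h4) hb2
          · exact h6
        intro x hx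
        rw [memT] at hx
        rcases hx with hx | rfl
        · exact h5 hx.1
        · exact h4
    have BB : ∀ k k', T (row w k) ⊆ T (row w k') ∨ T (row w k') ⊆ T (row w k) := by
      intro k k'
      rcases hN k k' with h1 | h1
      · left
        intro x
        rw [memT, memT]
        exact Or.imp_left fun h2 => ⟨h1 h2.1, h2.2⟩
      · right
        intro x
        rw [memT, memT]
        exact Or.imp_left fun h2 => ⟨h1 h2.1, h2.2⟩
    have BC : ∀ k, i < k → k ≤ q → row w i ⊆ T (row w k) := by
      intro k h1 h2 x hx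
      rw [memT]
      refine Or.inl ⟨hCsub k h1 h2 hx, ?_⟩
      rintro rfl
      exact bC hx
    intro m m'
    rcases cls m with ⟨h1, h2⟩ | ⟨k, h1, h1', h2⟩ | h2 | h2 <;>
      rcases cls m' with ⟨h3, h4⟩ | ⟨k', h3, h3', h4⟩ | h4 | h4 <;> rw [h2, h4]
    · exact hN m m'
    · exact AB m k' h1 h3 h3'
    · exact hN m i
    · exact Or.inr (Set.empty_subset _)
    · exact (AB m' k h3 h1 h1').symm
    · exact BB k k'
    · exact Or.inr (BC k h1 h1')
    · exact Or.inr (Set.empty_subset _)
    · exact hN i m'
    · exact Or.inl (BC k' h3 h3')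
    · exact Or.inl subset_rfl
    · exact Or.inr (Set.empty_subset _)
    · exact Or.inl (Set.empty_subset _)
    · exact Or.inl (Set.empty_subset _)
    · exact Or.inl (Set.empty_subset _)
    · exact Or.inl subset_rfl
  -- the first descent
  have hid : i ≠ d := by
    rintro rfl
    rcases (show i + 1 < q ∨ i + 1 = q by omega) with h1 | h1
    · have h2 := himax (i + 1) ⟨h1, by omega⟩
      omega
    · rw [h1] at hd
      omega
  have hgd' : ∀ x, x < d → g x < g (x + 1) := by
    intro x hx
    by_cases h1 : x = i
    · subst h1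
      rw [gi, go (x + 1) (by omega) (by omega) (by omega)]
      exact hbet _ (by omega) (by omega)
    · by_cases h2 : x + 1 = i
      · rw [h2, gi, go x h1 (by omega) (by omega)]
        have h3 := hd' x hx
        rw [h2] at h3
        omega
      · rw [go x h1 (by omega) (by omega), go (x + 1) h2 (by omega) (by omega)]
        exact hd' x hx
  have hgd : g (d + 1) < g d := by
    rw [go d (Ne.symm hid) (by omega) (by omega)]
    rcases (show d + 1 < q ∨ d + 1 = q by omega) with h1 | h1
    · by_cases h2 : d + 1 = i
      · rw [h2, gi]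
        rw [h2] at hd
        rcases hleft d (by omega) with h3 | h3 <;> omega
      · rw [go (d + 1) h2 (by omega) (by omega)]
        exact hd
    · rw [h1, gq]
      rcases lt_or_gt_of_ne hid with h3 | h3
      · have := hbet d h3 hdq
        omega
      · omega
  have hgq : g q < g (q - 1) := by
    rw [gq]
    rcases (show q - 1 = i ∨ i < q - 1 by omega) with h1 | h1
    · rw [h1, gi]
      exact hij
    · rw [go (q - 1) (by omega) (by omega) (by omega)]
      have := hbet (q - 1) h1 (by omega)
      omega
  have hcq : code g q < code w q := by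
    rw [hcode, swap_apply_right]
    refine Set.ncard_lt_ncard ?_ (row_finite h q)
    refine ⟨hCsub q hiq le_rfl, fun h1 => ?_⟩
    exact bC (h1 (bB q hiq le_rfl).1)
  exact ⟨g, i, hgFS, hNg, hgd, hgd', hgr', hgq, hcode, hgR, hcq⟩

theorem red_aux : ∀ (n1 n2 : ℕ) (w : Perm ℤ), FS w → Nested w → ∀ d q : ℤ, d ≤ q →
    w (d + 1) < w d → (∀ x, x < d → w x < w (x + 1)) → w (q + 1) < w q →
    (∀ x, q < x → w x < w (x + 1)) → (q - d).toNat = n1 → code w q = n2 → Red w := by
  intro n1
  induction n1 using Nat.strong_induction_on with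
  | _ n1 ih1 =>
    intro n2
    induction n2 using Nat.strong_induction_on with
    | _ n2 ih2 =>
      intro w h hN d q hdq hd hd' hq hq' e1 e2
      rcases hdq.lt_or_eq with hlt | heq
      · obtain ⟨g, i, a1, a2, a3, a4, a5, a6, a7, a8, a9⟩ :=
          red_step h hN hlt hd hd' hq hq'
        have hred : Red g := by
          by_cases hgq : g (q + 1) < g q
          · exact ih2 (code g q) (by rw [← e2]; exact a9) g a1 a2 d q hdq a3 a4 hgq a5 e1 rfl
          · refine ih1 (q - 1 - d).toNat (by omega) (code g (q - 1)) g a1 a2 d (q - 1)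
              (by omega) a3 a4 ?_ ?_ rfl rfl
            · rw [sub_add_cancel]
              exact a6
            · intro x hx
              rcases (show x = q ∨ q < x by omega) with h1 | h1
              · rw [h1]
                have h2 : g (q + 1) ≠ g q := fun h3 => by
                  have := g.injective h3
                  omega
                omega
              · exact a5 x h1
        obtain ⟨g', q', π, b1, b2, b3, b4⟩ := hred
        refine ⟨g', q', swap i q * π, b1, b2, fun x => ?_, fun k => ?_⟩
        · rw [b3, a7]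
          rfl
        · rw [b4, a8]
      · subst heq
        exact ⟨w, d, 1, h, ⟨fun x y h1 h2 => mono_left hd' h1 h2,
          fun x y h1 h2 => mono_right hq' h1 h2⟩, fun x => rfl, fun k => rfl⟩

/-- A nested permutation has the same numbers of reduced words as a Grassmannian permutation
with rearranged row lengths. -/
theorem exists_gr {w : Perm ℤ} (h : FS w) (hN : Nested w) :
    ∃ (g : Perm ℤ) (q : ℤ) (π : Perm ℤ), FS g ∧ Gr q g ∧ (∀ x, code g x = code w (π x)) ∧
      ∀ k, R k g = R k w := by
  have hnd : ∀ x, x ∉ desc w → w x < w (x + 1) := by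
    intro x hx
    rw [mem_desc h] at hx
    have h1 : w x ≠ w (x + 1) := fun h2 => by
      have := w.injective h2
      omega
    omega
  by_cases hD : (desc w).Nonempty
  · refine red_aux _ _ w h hN ((desc w).min' hD) ((desc w).max' hD)
      ((desc w).min'_le _ ((desc w).max'_mem hD)) ((mem_desc h _).1 ((desc w).min'_mem hD)) ?_
      ((mem_desc h _).1 ((desc w).max'_mem hD)) ?_ rfl rfl
    · intro x hx
      refine hnd x fun h1 => ?_
      have := (desc w).min'_le x h1
      omega
    · intro x hx
      refine hnd x fun h1 => ?_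
      have := (desc w).le_max' x h1
      omega
  · rw [Finset.not_nonempty_iff_eq_empty] at hD
    have h1 : ∀ x, w x < w (x + 1) := fun x => hnd x (by rw [hD]; exact Finset.notMem_empty x)
    exact ⟨w, 0, 1, h, ⟨fun x y h2 h3 => mono_left (a := 0) (fun x _ => h1 x) h2 h3,
      fun x y h2 h3 => mono_right (a := 0) (fun x _ => h1 x) h2 h3⟩, fun x => rfl, fun k => rfl⟩

end Pool.Agent.SortNet
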