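import Pool.Agent.Work.MP_aee03d_pr.Mark
import Pool.Agent.Work.MP_aee03d_pr.Fam

/-!
# Sorting networks as words (module WORDS)
-/

namespace Pool.Agent.SortNet

open Equiv Finset

/-! ### Products of letters -/

/-- The permutation of `ℤ` of a word with the letters `0, ..., m - 1`. -/
def lp {m : ℕ} (l : List (Fin m)) : Perm ℤ := (l.map (fun i => sw (i.val : ℤ))).prod

theorem lp_nil {m : ℕ} : lp ([] : List (Fin m)) = 1 := rfl

theorem lp_cons {m : ℕ} (i : Fin m) (l : List (Fin m)) :
    lp (i :: l) = sw (i.val : ℤ) * lp l := by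
  unfold lp
  rw [List.map_cons, List.prod_cons]

theorem lp_append {m : ℕ} (l l' : List (Fin m)) : lp (l ++ l') = lp l * lp l' := by
  unfold lp
  rw [List.map_append, List.prod_append]

theorem lp_single {m : ℕ} (i : Fin m) : lp [i] = sw (i.val : ℤ) := by
  rw [lp_cons, lp_nil, mul_one]

theorem lp_reverse {m : ℕ} (l : List (Fin m)) : lp l.reverse = (lp l)⁻¹ := by
  induction l with
  | nil => rw [List.reverse_nil, lp_nil, inv_one]
  | cons i l ih => rw [List.reverse_cons, lp_append, lp_single, lp_cons, ih, mul_inv_rev, sw_inv]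

/-- The permutation fixes all points outside of `{0, ..., m}`. -/
def FX (m : ℕ) (w : Perm ℤ) : Prop := ∀ x, x < 0 ∨ (m : ℤ) < x → w x = x

namespace FX

variable {m : ℕ} {w w' : Perm ℤ}

theorem fs (h : FX m w) : FS w := by
  refine (Set.finite_Icc (0 : ℤ) m).subset fun x hx => ?_
  by_contra hcon
  rw [Set.mem_Icc, not_and_or] at hcon
  exact hx (h x (by omega))

theorem mem (h : FX m w) {x : ℤ} (h0 : 0 ≤ x) (h1 : x ≤ m) : 0 ≤ w x ∧ w x ≤ m := by
  by_contra hcon
  have h2 : w (w x) = w x := h (w x) (by omega)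
  have h3 := w.injective h2
  omega

theorem one : FX m 1 := fun _ _ => rfl

theorem mul (h : FX m w) (h' : FX m w') : FX m (w * w') := by
  intro x hx
  rw [Perm.mul_apply, h' x hx, h x hx]

theorem inv (h : FX m w) : FX m w⁻¹ := by
  intro x hx
  rw [Perm.inv_eq_iff_eq, h x hx]

theorem sw {i : ℤ} (h0 : 0 ≤ i) (h1 : i < m) : FX m (sw i) := by
  intro x hx
  exact sw_apply_of_ne (by omega) (by omega)

theorem desc (h : FX m w) {i : ℤ} (hi : i ∈ desc w) : 0 ≤ i ∧ i < m := by
  rw [mem_desc h.fs] at hi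
  by_contra hcon
  rcases (show i + 1 < 0 ∨ i + 1 = 0 ∨ i = m ∨ (m : ℤ) < i by omega) with h1 | h1 | h1 | h1
  · rw [h i (by omega), h (i + 1) (by omega)] at hi
    omega
  · have h2 := (h.mem (x := i + 1) (by omega) (by omega)).1
    rw [h i (by omega)] at hi
    omega
  · have h2 := (h.mem (x := i) (by omega) (by omega)).2
    rw [h (i + 1) (by omega)] at hi
    omega
  · rw [h i (by omega), h (i + 1) (by omega)] at hi
    omega

end FX

theorem fx_lp {m : ℕ} (l : List (Fin m)) : FX m (lp l) := by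
  induction l with
  | nil => exact FX.one
  | cons i l ih =>
    rw [lp_cons]
    exact (FX.sw (by omega) (by have := i.isLt; omega)).mul ih

theorem fx_w0 (m : ℕ) : FX m (w0 (m + 1)) := by
  intro x hx
  rw [w0_apply, if_neg (by push_cast; omega)]

/-! ### Inversions -/

/-- The number of inversions in `{0, ..., m}`. -/
noncomputable def invs (m : ℕ) (w : Perm ℤ) : ℕ :=
  ((Finset.Icc (0 : ℤ) m ×ˢ Finset.Icc (0 : ℤ) m).filter
    (fun p => p.1 < p.2 ∧ w p.2 < w p.1)).card

theorem mem_invs {m : ℕ} {w : Perm ℤ} {a b : ℤ} :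
    (a, b) ∈ (Finset.Icc (0 : ℤ) m ×ˢ Finset.Icc (0 : ℤ) m).filter
      (fun p => p.1 < p.2 ∧ w p.2 < w p.1) ↔
      0 ≤ a ∧ b ≤ m ∧ a < b ∧ w b < w a := by
  rw [Finset.mem_filter, Finset.mem_product, Finset.mem_Icc, Finset.mem_Icc]
  constructor
  · rintro ⟨⟨h1, h2⟩, h3, h4⟩
    exact ⟨h1.1, h2.2, h3, h4⟩
  · rintro ⟨h1, h2, h3, h4⟩
    exact ⟨⟨⟨h1, by omega⟩, by omega, h2⟩, h3, h4⟩

theorem sw_cases (i x : ℤ) : (x = i ∧ sw i x = i + 1) ∨ (x = i + 1 ∧ sw i x = i) ∨
    (x ≠ i ∧ x ≠ i + 1 ∧ sw i x = x) := by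
  by_cases h1 : x = i
  · left
    exact ⟨h1, by rw [h1, sw_apply_left]⟩
  · by_cases h2 : x = i + 1
    · right
      left
      exact ⟨h2, by rw [h2, sw_apply_right]⟩
    · right
      right
      exact ⟨h1, h2, sw_apply_of_ne h1 h2⟩

theorem sw_sw (i x : ℤ) : sw i (sw i x) = x := by
  have := congrArg (fun g : Perm ℤ => g x) (sw_mul_self i)
  exact this

theorem invs_desc {m : ℕ} {w : Perm ℤ} {i : ℤ} (h0 : 0 ≤ i) (h1 : i < m)
    (hd : w (i + 1) < w i) : invs m (w * sw i) + 1 = invs m w := by
  have key : invs m (w * sw i) = (((Finset.Icc (0 : ℤ) m ×ˢ Finset.Icc (0 : ℤ) m).filter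
      (fun p => p.1 < p.2 ∧ w p.2 < w p.1)).erase (i, i + 1)).card := by
    refine Finset.card_nbij' (fun p => (sw i p.1, sw i p.2)) (fun p => (sw i p.1, sw i p.2))
      ?_ ?_ ?_ ?_
    · rintro ⟨a, b⟩ hp
      rw [Finset.mem_coe, mem_invs, Perm.mul_apply, Perm.mul_apply] at hp
      rw [Finset.mem_coe, Finset.mem_erase]
      show (sw i a, sw i b) ≠ _ ∧ (sw i a, sw i b) ∈ _
      rw [mem_invs]
      obtain ⟨ha, hb, hab, hw⟩ := hp
      have hne : ¬ (a = i ∧ b = i + 1) := by
        rintro ⟨rfl, rfl⟩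
        rw [sw_apply_left, sw_apply_right] at hw
        omega
      have ca := sw_cases i a
      have cb := sw_cases i b
      refine ⟨?_, by omega, by omega, by omega, hw⟩
      intro h
      rw [Prod.mk.injEq] at h
      omega
    · rintro ⟨a, b⟩ hp
      rw [Finset.mem_coe, Finset.mem_erase, mem_invs, ne_eq, Prod.mk.injEq] at hp
      show (sw i a, sw i b) ∈ ((_ : Finset (ℤ × ℤ)) : Set (ℤ × ℤ))
      rw [Finset.mem_coe, mem_invs, Perm.mul_apply, Perm.mul_apply, sw_sw, sw_sw]
      obtain ⟨hne, ha, hb, hab, hw⟩ := hp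
      have ca := sw_cases i a
      have cb := sw_cases i b
      exact ⟨by omega, by omega, by omega, hw⟩
    · rintro ⟨a, b⟩ _
      show (sw i (sw i a), sw i (sw i b)) = (a, b)
      rw [sw_sw, sw_sw]
    · rintro ⟨a, b⟩ _
      show (sw i (sw i a), sw i (sw i b)) = (a, b)
      rw [sw_sw, sw_sw]
  rw [key]
  unfold invs
  refine Finset.card_erase_add_one ?_
  rw [mem_invs]
  exact ⟨h0, by omega, by omega, hd⟩

theorem invs_asc {m : ℕ} {w : Perm ℤ} {i : ℤ} (h0 : 0 ≤ i) (h1 : i < m)
    (hd : w i < w (i + 1)) : invs m (w * sw i) = invs m w + 1 := by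
  have h := invs_desc (w := w * sw i) h0 h1 (by
    rw [Perm.mul_apply, Perm.mul_apply, sw_apply_left, sw_apply_right]
    exact hd)
  rw [mul_assoc, sw_mul_self, mul_one] at h
  exact h.symm

theorem invs_one (m : ℕ) : invs m 1 = 0 := by
  unfold invs
  rw [Finset.card_eq_zero]
  ext ⟨a, b⟩
  rw [mem_invs]
  simp only [Perm.one_apply, Finset.notMem_empty, iff_false]
  omega

theorem invs_mul_sw {m : ℕ} (w : Perm ℤ) {i : ℤ} (h0 : 0 ≤ i) (h1 : i < m) :
    invs m (w * sw i) ≤ invs m w + 1 := by
  have hne : w i ≠ w (i + 1) := fun h => by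
    have := w.injective h
    omega
  rcases lt_or_gt_of_ne hne with h | h
  · exact (invs_asc h0 h1 h).le
  · have := invs_desc h0 h1 h
    omega

theorem invs_mul_lp {m : ℕ} (w : Perm ℤ) (l : List (Fin m)) :
    invs m (w * lp l) ≤ invs m w + l.length := by
  induction l generalizing w with
  | nil => rw [lp_nil, mul_one]; exact Nat.le_add_right _ _
  | cons i l ih =>
    rw [lp_cons, ← mul_assoc, List.length_cons]
    have h1 := ih (w * sw i.val)
    have h2 := invs_mul_sw (m := m) w (i := i.val) (by omega) (by have := i.isLt; omega)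
    omega

theorem invs_lp {m : ℕ} (l : List (Fin m)) : invs m (lp l) ≤ l.length := by
  have h := invs_mul_lp 1 l
  rw [one_mul, invs_one, zero_add] at h
  exact h

theorem invs_of_R {m k : ℕ} : ∀ {w : Perm ℤ}, FX m w → R k w ≠ 0 → invs m w = k := by
  classical
  induction k with
  | zero =>
    intro w _ h
    rw [R_zero] at h
    have h1 : w = 1 := by
      by_contra hcon
      rw [if_neg hcon] at h
      exact h rfl
    rw [h1, invs_one]
  | succ k ih =>
    intro w hw h
    rw [R_succ] at h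
    obtain ⟨i, hi, h2⟩ := Finset.exists_ne_zero_of_sum_ne_zero h
    have h3 := hw.desc hi
    have h4 := ih (hw.mul (FX.sw h3.1 h3.2)) h2
    rw [mem_desc hw.fs] at hi
    have h5 := invs_desc h3.1 h3.2 hi
    omega

theorem invs_w0 (m : ℕ) : invs m (w0 (m + 1)) = (m + 1) * m / 2 :=
  invs_of_R (fx_w0 m) (R_w0_pos (m + 1)).ne'

/-! ### Words -/

open Classical in
/-- The words of length `k` with the product `w`. -/
noncomputable def Wd (m k : ℕ) (w : Perm ℤ) : Finset (Fin k → Fin m) :=
  Finset.univ.filter (fun s => lp (List.ofFn s) = w)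

theorem mem_Wd {m k : ℕ} {w : Perm ℤ} {s : Fin k → Fin m} :
    s ∈ Wd m k w ↔ lp (List.ofFn s) = w := by
  unfold Wd
  simp only [Finset.mem_filter, Finset.mem_univ, true_and]

theorem Wd_empty {m k : ℕ} {w : Perm ℤ} (h : k < invs m w) : Wd m k w = ∅ := by
  ext s
  rw [mem_Wd]
  simp only [Finset.notMem_empty, iff_false]
  intro h1
  have h2 := invs_lp (List.ofFn s)
  rw [h1, List.length_ofFn] at h2
  omega

theorem sum_Wd_succ (m k : ℕ) (w : Perm ℤ) (F : List (Fin m) → ℕ) :
    ∑ s ∈ Wd m (k + 1) w, F (List.ofFn s) =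
      ∑ i : Fin m, ∑ s ∈ Wd m k (w * sw i.val), F (List.ofFn s ++ [i]) := by
  classical
  unfold Wd
  rw [Finset.sum_filter, ← Equiv.sum_comp (Fin.snocEquiv (fun _ => Fin m)),
    Fintype.sum_prod_type]
  refine Finset.sum_congr rfl fun i _ => ?_
  rw [Finset.sum_filter]
  refine Finset.sum_congr rfl fun s _ => ?_
  have h1 : List.ofFn (Fin.snocEquiv (fun _ => Fin m) (i, s)) = List.ofFn s ++ [i] := by
    rw [List.ofFn_succ_last]
    simp [Fin.snocEquiv]
  rw [h1, lp_append, lp_single]
  have h2 : lp (List.ofFn s) * sw (i.val : ℤ) = w ↔ lp (List.ofFn s) = w * sw i.val := by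
    constructor
    · intro h
      rw [← h, mul_assoc, sw_mul_self, mul_one]
    · intro h
      rw [h, mul_assoc, sw_mul_self, mul_one]
  simp only [h2]

theorem sum_Wd_zero (m : ℕ) (w : Perm ℤ) (F : List (Fin m) → ℕ) [Decidable (w = 1)] :
    ∑ s ∈ Wd m 0 w, F (List.ofFn s) = if w = 1 then F [] else 0 := by
  classical
  unfold Wd
  rw [Finset.sum_filter, Fintype.sum_unique, List.ofFn_zero, lp_nil]
  by_cases h : w = 1
  · rw [if_pos h, if_pos h.symm]
  · rw [if_neg h, if_neg fun h1 => h h1.symm]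

/-- The sum over the descents as a sum over the letters. -/
theorem sum_desc_fin {m : ℕ} {w : Perm ℤ} (hw : FX m w) (G : ℤ → ℕ)
    (hG : ∀ i : ℤ, 0 ≤ i → i < m → w i < w (i + 1) → G i = 0) :
    ∑ i : Fin m, G i.val = ∑ i ∈ desc w, G i := by
  classical
  have h1 : desc w = (Finset.univ.filter
      (fun i : Fin m => w ((i.val : ℤ) + 1) < w (i.val : ℤ))).image (fun i => (i.val : ℤ)) := by
    ext i
    rw [Finset.mem_image]
    constructor
    · intro hi
      have h2 := hw.desc hi
      rw [mem_desc hw.fs] at hi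
      refine ⟨⟨i.toNat, by omega⟩, ?_, by show ((i.toNat : ℕ) : ℤ) = i; omega⟩
      rw [Finset.mem_filter]
      refine ⟨Finset.mem_univ _, ?_⟩
      show w (((i.toNat : ℕ) : ℤ) + 1) < w ((i.toNat : ℕ) : ℤ)
      rw [Int.toNat_of_nonneg h2.1]
      exact hi
    · rintro ⟨j, hj, rfl⟩
      rw [mem_desc hw.fs]
      exact (Finset.mem_filter.1 hj).2
  rw [h1, Finset.sum_image (by
    intro a _ b _ hab
    have hab' : (a.val : ℤ) = b.val := hab
    exact Fin.ext (by exact_mod_cast hab')), Finset.sum_filter]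
  refine Finset.sum_congr rfl fun i _ => ?_
  by_cases h2 : w ((i.val : ℤ) + 1) < w (i.val : ℤ)
  · rw [if_pos h2]
  · rw [if_neg h2]
    have hne : w (i.val : ℤ) ≠ w ((i.val : ℤ) + 1) := fun h => by
      have := w.injective h
      omega
    exact hG _ (by omega) (by have := i.isLt; omega) (by omega)

/-! ### Statistics of prefixes -/

/-- The sum of the weights `ω t` of the prefixes, of length `t`, after which the label at the
position `0` is `c`. -/
def stat {m : ℕ} (ω : ℕ → ℕ) (c : ℤ) (l : List (Fin m)) : ℕ :=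
  ∑ t ∈ range (l.length + 1), if lp (l.take t) 0 = c then ω t else 0

theorem stat_append {m : ℕ} (ω : ℕ → ℕ) (c : ℤ) (l : List (Fin m)) (i : Fin m) :
    stat ω c (l ++ [i]) = stat ω c l +
      if lp (l ++ [i]) 0 = c then ω (l.length + 1) else 0 := by
  unfold stat
  rw [List.length_append, List.length_singleton, Finset.sum_range_succ]
  congr 1
  · refine Finset.sum_congr rfl fun t ht => ?_
    rw [Finset.mem_range] at ht
    rw [List.take_append_of_le_length (by omega)]
  · rw [List.take_of_length_le (by rw [List.length_append, List.length_singleton])]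

open Classical in
/-- The common form of `mkA` and `mkC`. -/
noncomputable def mkG (ω : ℕ → ℕ) (c : ℤ) : ℕ → Perm ℤ → ℕ
  | 0, v => if v 0 = c then ω 0 * R 0 v else 0
  | k + 1, v => (if v 0 = c then ω (k + 1) * R (k + 1) v else 0) +
      ∑ i ∈ desc v, mkG ω c k (v * sw i)

theorem mkA_eq (c : ℤ) (k : ℕ) (v : Perm ℤ) : mkA c k v = mkG (fun _ => 1) c k v := by
  induction k generalizing v with
  | zero =>
    unfold mkA mkG
    rw [one_mul]
  | succ k ih =>
    unfold mkA mkG
    rw [one_mul]
    congr 1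
    exact Finset.sum_congr rfl fun i _ => ih _

theorem mkC_eq (c : ℤ) (k : ℕ) (v : Perm ℤ) : mkC c k v = mkG (fun t => t + 1) c k v := by
  induction k generalizing v with
  | zero =>
    unfold mkC mkG
    rw [zero_add, one_mul]
  | succ k ih =>
    unfold mkC mkG
    congr 1
    exact Finset.sum_congr rfl fun i _ => ih _

theorem card_Wd {m : ℕ} (k : ℕ) : ∀ {w : Perm ℤ}, FX m w → invs m w = k →
    (Wd m k w).card = R k w := by
  classical
  induction k with
  | zero =>
    intro w _ _
    have h := sum_Wd_zero m w (fun _ => 1)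
    rw [Finset.card_eq_sum_ones, h, R_zero]
  | succ k ih =>
    intro w hw hk
    have h := sum_Wd_succ m k w (fun _ => 1)
    rw [Finset.card_eq_sum_ones, h]
    simp only [← Finset.card_eq_sum_ones]
    rw [sum_desc_fin hw (fun i => (Wd m k (w * sw i)).card), R_succ]
    · refine Finset.sum_congr rfl fun i hi => ?_
      have h3 := hw.desc hi
      rw [mem_desc hw.fs] at hi
      have h5 := invs_desc h3.1 h3.2 hi
      exact ih (hw.mul (FX.sw h3.1 h3.2)) (by omega)
    · intro i h0 h1 h2
      rw [Finset.card_eq_zero]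
      refine Wd_empty ?_
      rw [invs_asc h0 h1 h2]
      omega

theorem sum_stat {m : ℕ} (ω : ℕ → ℕ) (c : ℤ) (k : ℕ) : ∀ {w : Perm ℤ}, FX m w →
    invs m w = k → ∑ s ∈ Wd m k w, stat ω c (List.ofFn s) = mkG ω c k w := by
  classical
  induction k with
  | zero =>
    intro w _ _
    rw [sum_Wd_zero]
    unfold mkG stat
    rw [R_zero, List.length_nil, zero_add, Finset.sum_range_one, List.take_nil, lp_nil]
    by_cases h1 : w = 1
    · rw [if_pos h1, if_pos h1, h1, mul_one]
    · rw [if_neg h1, if_neg h1, mul_zero, ite_self]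
  | succ k ih =>
    intro w hw hk
    rw [sum_Wd_succ]
    have e1 : ∀ i : Fin m, ∑ s ∈ Wd m k (w * sw i.val), stat ω c (List.ofFn s ++ [i]) =
        (fun i : ℤ => ∑ s ∈ Wd m k (w * sw i), stat ω c (List.ofFn s) +
          (if w 0 = c then ω (k + 1) else 0) * (Wd m k (w * sw i)).card) (i.val : ℤ) := by
      intro i
      show _ = ∑ s ∈ Wd m k (w * sw (i.val : ℤ)), stat ω c (List.ofFn s) +
          (if w 0 = c then ω (k + 1) else 0) * (Wd m k (w * sw (i.val : ℤ))).card
      rw [Finset.card_eq_sum_ones, Finset.mul_sum, ← Finset.sum_add_distrib]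
      refine Finset.sum_congr rfl fun s hs => ?_
      rw [mem_Wd] at hs
      rw [stat_append, lp_append, lp_single, hs, mul_assoc, sw_mul_self, mul_one, mul_one,
        List.length_ofFn]
    rw [Finset.sum_congr rfl fun i _ => e1 i, sum_desc_fin hw (fun i : ℤ =>
      ∑ s ∈ Wd m k (w * sw i), stat ω c (List.ofFn s) +
          (if w 0 = c then ω (k + 1) else 0) * (Wd m k (w * sw i)).card),
      Finset.sum_add_distrib, ← Finset.mul_sum]
    · have e2 : ∑ i ∈ desc w, (Wd m k (w * sw i)).card = R (k + 1) w := by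
        rw [R_succ]
        refine Finset.sum_congr rfl fun i hi => ?_
        have h3 := hw.desc hi
        rw [mem_desc hw.fs] at hi
        have h5 := invs_desc h3.1 h3.2 hi
        exact card_Wd k (hw.mul (FX.sw h3.1 h3.2)) (by omega)
      have e3 : ∑ i ∈ desc w, ∑ s ∈ Wd m k (w * sw i), stat ω c (List.ofFn s) =
          ∑ i ∈ desc w, mkG ω c k (w * sw i) := by
        refine Finset.sum_congr rfl fun i hi => ?_
        have h3 := hw.desc hi
        rw [mem_desc hw.fs] at hi
        have h5 := invs_desc h3.1 h3.2 hi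
        exact ih (hw.mul (FX.sw h3.1 h3.2)) (by omega)
      rw [e2, e3]
      conv_rhs => unfold mkG
      rw [add_comm]
      congr 1
      rw [ite_mul, zero_mul]
    · intro i h0 h1 h2
      have h4 : Wd m k (w * sw i) = ∅ := by
        refine Wd_empty ?_
        rw [invs_asc h0 h1 h2]
        omega
      show ∑ s ∈ Wd m k (w * sw i), stat ω c (List.ofFn s) +
          (if w 0 = c then ω (k + 1) else 0) * (Wd m k (w * sw i)).card = 0
      rw [h4, Finset.sum_empty, Finset.card_empty, mul_zero, add_zero]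

/-! ### The exchange of labels and positions -/

theorem w0_mul_self (n : ℕ) : w0 n * w0 n = 1 := by
  have h : (w0 n)⁻¹ * w0 n = 1 := inv_mul_cancel _
  rw [w0_inv] at h
  exact h

theorem sw_rev {m : ℕ} (i : Fin m) :
    sw ((Fin.rev i).val : ℤ) = w0 (m + 1) * sw (i.val : ℤ) * w0 (m + 1) := by
  ext x
  rw [Perm.mul_apply, Perm.mul_apply]
  have h1 : ((Fin.rev i).val : ℤ) = m - 1 - i.val := by
    rw [Fin.val_rev]
    have := i.isLt
    omega
  rw [h1]
  have hi := i.isLt
  have c1 := sw_cases ((m : ℤ) - 1 - i.val) x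
  by_cases hx : 0 ≤ x ∧ x ≤ m
  · have e1 : w0 (m + 1) x = m - x := by
      rw [w0_apply, if_pos (by push_cast; omega)]
      push_cast
      ring
    rw [e1]
    have c2 := sw_cases (i.val : ℤ) ((m : ℤ) - x)
    have e2 : w0 (m + 1) (sw (i.val : ℤ) ((m : ℤ) - x)) = m - sw (i.val : ℤ) ((m : ℤ) - x) := by
      rw [w0_apply, if_pos (by push_cast; omega)]
      push_cast
      ring
    rw [e2]
    omega
  · have e1 : w0 (m + 1) x = x := by
      rw [w0_apply, if_neg (by push_cast; omega)]
    rw [e1]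
    have c2 := sw_cases (i.val : ℤ) x
    have e2 : sw (i.val : ℤ) x = x := by omega
    rw [e2, e1]
    omega

theorem lp_map_rev {m : ℕ} (l : List (Fin m)) :
    lp (l.map Fin.rev) = w0 (m + 1) * lp l * w0 (m + 1) := by
  induction l with
  | nil => rw [List.map_nil, lp_nil, mul_one, w0_mul_self]
  | cons i l ih =>
    rw [List.map_cons, lp_cons, lp_cons, ih, sw_rev]
    have h := w0_mul_self (m + 1)
    calc w0 (m + 1) * sw (i.val : ℤ) * w0 (m + 1) * (w0 (m + 1) * lp l * w0 (m + 1))
        = w0 (m + 1) * sw (i.val : ℤ) * (w0 (m + 1) * w0 (m + 1)) * lp l * w0 (m + 1) := by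
          group
      _ = w0 (m + 1) * (sw (i.val : ℤ) * lp l) * w0 (m + 1) := by
          rw [h]
          group

/-- The involution that replaces the permutation at the time `t` by its inverse. -/
def phiL {m : ℕ} (t : ℕ) (l : List (Fin m)) : List (Fin m) :=
  (l.take t).reverse ++ ((l.drop t).map Fin.rev).reverse

theorem length_phiL {m : ℕ} (t : ℕ) (l : List (Fin m)) : (phiL t l).length = l.length := by
  unfold phiL
  rw [List.length_append, List.length_reverse, List.length_reverse, List.length_map,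
    List.length_take, List.length_drop]
  omega

theorem take_phiL {m : ℕ} {t : ℕ} {l : List (Fin m)} (ht : t ≤ l.length) :
    (phiL t l).take t = (l.take t).reverse := by
  unfold phiL
  exact List.take_left' (by rw [List.length_reverse, List.length_take]; omega)

theorem drop_phiL {m : ℕ} {t : ℕ} {l : List (Fin m)} (ht : t ≤ l.length) :
    (phiL t l).drop t = ((l.drop t).map Fin.rev).reverse := by
  unfold phiL
  exact List.drop_left' (by rw [List.length_reverse, List.length_take]; omega)

theorem phiL_phiL {m : ℕ} {t : ℕ} {l : List (Fin m)} (ht : t ≤ l.length) :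
    phiL t (phiL t l) = l := by
  conv_lhs => rw [phiL]
  rw [take_phiL ht, drop_phiL ht, List.reverse_reverse, List.map_reverse, List.reverse_reverse,
    List.map_map]
  have h : (Fin.rev ∘ Fin.rev : Fin m → Fin m) = id := by
    funext x
    exact Fin.rev_rev x
  rw [h, List.map_id, List.take_append_drop]

theorem lp_phiL {m : ℕ} {t : ℕ} {l : List (Fin m)} (h : lp l = w0 (m + 1)) :
    lp (phiL t l) = w0 (m + 1) := by
  have h1 : lp (l.take t) * lp (l.drop t) = w0 (m + 1) := by
    rw [← lp_append, List.take_append_drop, h]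
  unfold phiL
  rw [lp_append, lp_reverse, lp_reverse, lp_map_rev]
  have h2 : lp (l.drop t) = (lp (l.take t))⁻¹ * w0 (m + 1) := by
    rw [← h1]
    group
  rw [h2, mul_inv_rev, mul_inv_rev, mul_inv_rev, w0_inv, inv_inv]
  have h3 := w0_mul_self (m + 1)
  calc (lp (l.take t))⁻¹ * (w0 (m + 1) * (w0 (m + 1) * lp (l.take t) * w0 (m + 1)))
      = (lp (l.take t))⁻¹ * ((w0 (m + 1) * w0 (m + 1)) * lp (l.take t) * w0 (m + 1)) := by
        group
    _ = w0 (m + 1) := by
        rw [h3]
        group

/-- The involution on words. -/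
def phi {m N : ℕ} (t : ℕ) (s : Fin N → Fin m) : Fin N → Fin m :=
  fun j => (phiL t (List.ofFn s))[j.val]'(by
    rw [length_phiL, List.length_ofFn]
    exact j.isLt)

theorem ofFn_phi {m N : ℕ} (t : ℕ) (s : Fin N → Fin m) :
    List.ofFn (phi t s) = phiL t (List.ofFn s) := by
  refine List.ext_getElem ?_ ?_
  · rw [List.length_ofFn, length_phiL, List.length_ofFn]
  · intro j h1 h2
    rw [List.getElem_ofFn]
    rfl

theorem phi_phi {m N : ℕ} {t : ℕ} (ht : t ≤ N) (s : Fin N → Fin m) : phi t (phi t s) = s := by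
  refine List.ofFn_injective ?_
  rw [ofFn_phi, ofFn_phi, phiL_phiL (by rw [List.length_ofFn]; exact ht)]

theorem exchange_time {m N t : ℕ} (ht : t ≤ N) (F : Perm ℤ → ℕ) :
    ∑ s ∈ Wd m N (w0 (m + 1)), F (lp ((List.ofFn s).take t))⁻¹ =
      ∑ s ∈ Wd m N (w0 (m + 1)), F (lp ((List.ofFn s).take t)) := by
  refine Finset.sum_nbij' (phi t) (phi t) ?_ ?_ ?_ ?_ ?_
  · intro s hs
    rw [mem_Wd] at hs ⊢
    rw [ofFn_phi, lp_phiL hs]
  · intro s hs
    rw [mem_Wd] at hs ⊢
    rw [ofFn_phi, lp_phiL hs]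
  · intro s _
    exact phi_phi ht s
  · intro s _
    exact phi_phi ht s
  · intro s _
    rw [ofFn_phi, take_phiL (by rw [List.length_ofFn]; exact ht), lp_reverse]

/-! ### The sorting networks -/

/-- The positions of the particles after `k` steps of the word `s`. -/
def PP (m : ℕ) (s : Fin ((m + 1) * m / 2) → Fin m) (k : ℕ) : Perm (Fin (m + 1)) :=
  ((List.ofFn (fun i : Fin ((m + 1) * m / 2) =>
    Equiv.swap (s i).castSucc (s i).succ)).take k).reverse.prod

open Classical in
/-- The sorting networks. -/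
noncomputable def Val (m : ℕ) : Finset (Fin ((m + 1) * m / 2) → Fin m) :=
  Finset.univ.filter (fun s => ∀ j, PP m s ((m + 1) * m / 2) j = Fin.rev j)

theorem swap_val {m : ℕ} (i : Fin m) (x : Fin (m + 1)) :
    (((Equiv.swap i.castSucc i.succ) x).val : ℤ) = sw (i.val : ℤ) (x.val : ℤ) := by
  have h := sw_cases (i.val : ℤ) (x.val : ℤ)
  rw [Equiv.swap_apply_def]
  split_ifs with h1 h2
  · subst h1
    rw [Fin.val_castSucc, Fin.val_succ] at *
    omega
  · subst h2
    rw [Fin.val_castSucc, Fin.val_succ] at *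
    push_cast at h ⊢
    omega
  · have h3 : (x.val : ℤ) ≠ i.val := by
      intro h3
      apply h1
      ext
      rw [Fin.val_castSucc]
      exact_mod_cast h3
    have h4 : (x.val : ℤ) ≠ i.val + 1 := by
      intro h4
      apply h2
      ext
      rw [Fin.val_succ]
      exact_mod_cast h4
    omega

theorem prod_val {m : ℕ} (l : List (Fin m)) (x : Fin (m + 1)) :
    (((l.map (fun i => Equiv.swap i.castSucc i.succ)).prod x).val : ℤ) = lp l (x.val : ℤ) := by
  induction l with
  | nil => rfl
  | cons i l ih =>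
    rw [List.map_cons, List.prod_cons, lp_cons, Perm.mul_apply, Perm.mul_apply, swap_val, ih]

theorem PP_val {m : ℕ} (s : Fin ((m + 1) * m / 2) → Fin m) (k : ℕ) (j : Fin (m + 1)) :
    ((PP m s k j).val : ℤ) = (lp ((List.ofFn s).take k))⁻¹ (j.val : ℤ) := by
  have h1 : List.ofFn (fun i : Fin ((m + 1) * m / 2) => Equiv.swap (s i).castSucc (s i).succ) =
      (List.ofFn s).map (fun i => Equiv.swap i.castSucc i.succ) := by
    rw [List.map_ofFn]
    rfl
  unfold PP
  rw [h1, ← List.map_take, ← List.map_reverse, prod_val, lp_reverse]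

theorem mem_Val {m : ℕ} {s : Fin ((m + 1) * m / 2) → Fin m} :
    s ∈ Val m ↔ lp (List.ofFn s) = w0 (m + 1) := by
  unfold Val
  rw [Finset.mem_filter]
  have htake : (List.ofFn s).take ((m + 1) * m / 2) = List.ofFn s :=
    List.take_of_length_le (by rw [List.length_ofFn])
  constructor
  · rintro ⟨-, h⟩
    have h1 : (lp (List.ofFn s))⁻¹ = w0 (m + 1) := by
      ext x
      by_cases hx : 0 ≤ x ∧ x ≤ m
      · have h2 := PP_val s ((m + 1) * m / 2) ⟨x.toNat, by omega⟩
        rw [h, htake, Fin.val_rev] at h2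
        have h3 : (((⟨x.toNat, by omega⟩ : Fin (m + 1)).val : ℕ) : ℤ) = x := by
          show ((x.toNat : ℕ) : ℤ) = x
          omega
        rw [h3] at h2
        rw [← h2, w0_apply, if_pos (by push_cast; omega)]
        push_cast
        have h4 : (⟨x.toNat, by omega⟩ : Fin (m + 1)).val = x.toNat := rfl
        omega
      · rw [(fx_lp _).inv x (by omega), fx_w0 m x (by omega)]
    rw [← w0_inv, ← h1, inv_inv]
  · intro h
    refine ⟨Finset.mem_univ _, fun j => ?_⟩
    have h2 := PP_val s ((m + 1) * m / 2) j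
    rw [htake, h, w0_inv, w0_apply, if_pos (by have := j.isLt; push_cast; omega)] at h2
    ext
    rw [Fin.val_rev]
    have := j.isLt
    push_cast at h2
    omega

theorem Val_eq (m : ℕ) : Val m = Wd m ((m + 1) * m / 2) (w0 (m + 1)) := by
  ext s
  rw [mem_Val, mem_Wd]

theorem card_Val (m : ℕ) : (Val m).card = R ((m + 1) * m / 2) (w0 (m + 1)) := by
  rw [Val_eq, card_Wd _ (fx_w0 m) (invs_w0 m)]

/-- The weighted number of pairs (network, time) such that the particle `0` is at the
position `c`. -/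
theorem sum_G {m : ℕ} (ω : ℕ → ℕ) (c : ℕ) :
    ∑ s ∈ Val m, ∑ k ∈ (range ((m + 1) * m / 2 + 1)).filter
      (fun k => (PP m s k 0).val = c), ω k = mkG ω c ((m + 1) * m / 2) (w0 (m + 1)) := by
  classical
  rw [← sum_stat ω c _ (fx_w0 m) (invs_w0 m), Val_eq]
  have e1 : ∀ s ∈ Wd m ((m + 1) * m / 2) (w0 (m + 1)),
      ∑ k ∈ (range ((m + 1) * m / 2 + 1)).filter (fun k => (PP m s k 0).val = c), ω k =
      ∑ k ∈ range ((m + 1) * m / 2 + 1),
        if (lp ((List.ofFn s).take k))⁻¹ 0 = c then ω k else 0 := by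
    intro s _
    rw [Finset.sum_filter]
    refine Finset.sum_congr rfl fun k _ => ?_
    have h := PP_val s k 0
    rw [Fin.val_zero, Nat.cast_zero] at h
    rw [← h]
    by_cases h1 : (PP m s k 0).val = c
    · rw [if_pos h1, if_pos (by exact_mod_cast h1)]
    · rw [if_neg h1, if_neg (by exact_mod_cast h1)]
  have e2 : ∀ s ∈ Wd m ((m + 1) * m / 2) (w0 (m + 1)), stat ω c (List.ofFn s) =
      ∑ k ∈ range ((m + 1) * m / 2 + 1),
        if lp ((List.ofFn s).take k) 0 = c then ω k else 0 := by
    intro s _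
    unfold stat
    rw [List.length_ofFn]
  rw [Finset.sum_congr rfl e1, Finset.sum_congr rfl e2, Finset.sum_comm,
    Finset.sum_comm (s := Wd m ((m + 1) * m / 2) (w0 (m + 1)))]
  refine Finset.sum_congr rfl fun k hk => ?_
  rw [Finset.mem_range] at hk
  exact exchange_time (by omega) (fun x => if x 0 = c then ω k else 0)

/-- The number of pairs (network, time) such that the particle `0` is at the position `c`. -/
theorem sum_A (m c : ℕ) :
    ∑ s ∈ Val m, ((range ((m + 1) * m / 2 + 1)).filter
      (fun k => (PP m s k 0).val = c)).card = mkA c ((m + 1) * m / 2) (w0 (m + 1)) := by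
  rw [mkA_eq, ← sum_G]
  refine Finset.sum_congr rfl fun s _ => ?_
  rw [Finset.card_eq_sum_ones]

theorem sum_C (m c : ℕ) :
    ∑ s ∈ Val m, ∑ k ∈ (range ((m + 1) * m / 2 + 1)).filter
      (fun k => (PP m s k 0).val = c), (k + 1) = mkC c ((m + 1) * m / 2) (w0 (m + 1)) := by
  rw [mkC_eq, ← sum_G]

/-- Every step of a network is an ascent. -/
theorem step_ascent {m : ℕ} {l : List (Fin m)} (h : lp l = w0 (m + 1))
    (hl : l.length = (m + 1) * m / 2) {k : ℕ} (hk : k < l.length) :
    lp (l.take k) (l[k].val : ℤ) < lp (l.take k) ((l[k].val : ℤ) + 1) := by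
  by_contra hcon
  have hne : lp (l.take k) (l[k].val : ℤ) ≠ lp (l.take k) ((l[k].val : ℤ) + 1) := fun h => by
    have := (lp (l.take k)).injective h
    omega
  have h1 := invs_desc (m := m) (w := lp (l.take k)) (i := (l[k].val : ℤ)) (by omega)
    (by have := l[k].isLt; omega) (by omega)
  have h2 : lp (l.take k) * sw (l[k].val : ℤ) = lp (l.take (k + 1)) := by
    rw [← List.take_concat_get' l k hk, lp_append, lp_single]
  rw [h2] at h1
  have h3 := invs_lp (l.take k)
  rw [List.length_take] at h3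
  have h4 := invs_mul_lp (lp (l.take (k + 1))) (l.drop (k + 1))
  rw [← lp_append, List.take_append_drop, h, invs_w0, List.length_drop] at h4
  omega

/-- The particle `0` moves to the right only. -/
theorem PP_mono {m : ℕ} {s : Fin ((m + 1) * m / 2) → Fin m} (hs : s ∈ Val m) {k k' : ℕ}
    (hk : k ≤ k') : PP m s k 0 ≤ PP m s k' 0 := by
  rw [mem_Val] at hs
  induction k', hk using Nat.le_induction with
  | base => exact le_rfl
  | succ k' _ ih =>
    refine ih.trans ?_
    rw [Fin.le_def]
    have h1 := PP_val s k' 0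
    have h2 := PP_val s (k' + 1) 0
    rw [Fin.val_zero, Nat.cast_zero] at h1 h2
    by_cases hlen : k' < (List.ofFn s).length
    · have h3 := step_ascent hs (by rw [List.length_ofFn]) hlen
      have h4 : lp ((List.ofFn s).take (k' + 1)) =
          lp ((List.ofFn s).take k') * sw (((List.ofFn s)[k']).val : ℤ) := by
        rw [← List.take_concat_get' (List.ofFn s) k' hlen, lp_append, lp_single]
      rw [h4, mul_inv_rev, sw_inv, Perm.mul_apply, ← h1] at h2
      have hfx := fx_lp ((List.ofFn s).take k')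
      have h5 : lp ((List.ofFn s).take k') ((PP m s k' 0).val : ℤ) = 0 := by
        rw [h1, apply_inv]
      have hc := sw_cases (((List.ofFn s)[k']).val : ℤ) ((PP m s k' 0).val : ℤ)
      rcases hc with hc | hc | hc
      · omega
      · exfalso
        rw [← hc.1, h5] at h3
        have h6 := (hfx.mem (x := (((List.ofFn s)[k']).val : ℤ)) (by omega)
          (by have := ((List.ofFn s)[k']).isLt; omega)).1
        omega
      · omega
    · rw [List.take_of_length_le (by omega)] at h1 h2
      rw [← h1] at h2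
      omega

end Pool.Agent.SortNet
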